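import Mathlib

/-!
# RH and zero-free half planes
-/

set_option autoImplicit false

open Complex

namespace Pool.Agent.N831.LI

/-- a zero of zeta that is not a trivial zero has positive real part -/
theorem re_pos_of_zero {s : ℂ} (h0 : riemannZeta s = 0) (htriv : ¬ ∃ n : ℕ, s = -2 * (n + 1)) :
    0 < s.re := by
  by_contra h4
  push Not at h4
  have h1 : s ≠ 1 := by
    rintro rfl
    simp at h4
    linarith
  have h5 : ∀ n : ℕ, s ≠ -n := by
    intro n hn
    rcases Nat.even_or_odd n with he | ho
    · obtain ⟨k, hk⟩ := he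
      rcases Nat.eq_zero_or_pos k with hk0 | hk0
      · subst hk0
        rw [hk] at hn
        simp only [add_zero, Nat.cast_zero, neg_zero] at hn
        rw [hn, riemannZeta_zero] at h0
        norm_num at h0
      · obtain ⟨j, rfl⟩ := Nat.exists_eq_succ_of_ne_zero hk0.ne'
        apply htriv
        refine ⟨j, ?_⟩
        rw [hn, hk]
        push_cast
        ring
    · obtain ⟨k, hk⟩ := ho
      -- odd negative integers: reflect to `1 - s = n + 1`
      have h6 := riemannZeta_one_sub (s := (n : ℂ) + 1) (fun m hm => by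
        have h8 := congrArg Complex.re hm
        simp at h8
        have h9 : (0 : ℝ) ≤ n := Nat.cast_nonneg n
        have h10 : (0 : ℝ) ≤ m := Nat.cast_nonneg m
        linarith) (by
        intro h8
        have h9 := congrArg Complex.re h8
        simp at h9
        omega)
      have e : (1 : ℂ) - (n + 1) = s := by rw [hn]; ring
      rw [e, h0] at h6
      have hz2 : riemannZeta ((n : ℂ) + 1) ≠ 0 := riemannZeta_ne_zero_of_one_le_re (by simp)
      have hcos : Complex.cos (Real.pi * ((n : ℂ) + 1) / 2) ≠ 0 := by
        have e2 : (Real.pi : ℂ) * ((n : ℂ) + 1) / 2 = (((k + 1 : ℕ) * Real.pi : ℝ) : ℂ) := by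
          rw [hk]
          push_cast; ring
        rw [e2, ← Complex.ofReal_cos, Real.cos_nat_mul_pi]
        push_cast
        exact pow_ne_zero _ (by norm_num)
      have hG : Complex.Gamma ((n : ℂ) + 1) ≠ 0 := by
        apply Complex.Gamma_ne_zero_of_re_pos
        simp
        positivity
      have hp : (2 * (Real.pi : ℂ)) ^ (-((n : ℂ) + 1)) ≠ 0 := by
        rw [Ne, Complex.cpow_eq_zero_iff]
        push Not
        intro h8
        exfalso
        have := Real.pi_ne_zero
        have h9 : (2 : ℂ) * Real.pi ≠ 0 := by simp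
        exact h9 h8
      have : (2 : ℂ) * (2 * (Real.pi : ℂ)) ^ (-((n : ℂ) + 1)) * Complex.Gamma ((n : ℂ) + 1) *
          Complex.cos (Real.pi * ((n : ℂ) + 1) / 2) * riemannZeta ((n : ℂ) + 1) ≠ 0 :=
        mul_ne_zero (mul_ne_zero (mul_ne_zero (mul_ne_zero two_ne_zero hp) hG) hcos) hz2
      exact this h6.symm
  have h6 := riemannZeta_one_sub h5 h1
  rw [h0, mul_zero] at h6
  exact riemannZeta_ne_zero_of_one_le_re (s := 1 - s) (by simp; linarith) h6

/-- RH from the absence of zeros to the right of the line -/
theorem rh_of_right (h : ∀ s : ℂ, riemannZeta s = 0 → s.re ≤ 1 / 2) : RiemannHypothesis := by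
  intro s h0 htriv h1
  have hs1 := h s h0
  by_contra h2
  have h3 : s.re < 1 / 2 := lt_of_le_of_ne hs1 h2
  have hpos := re_pos_of_zero h0 htriv
  have hns : ∀ n : ℕ, s ≠ -n := by
    intro n hn
    have := congrArg Complex.re hn
    simp at this
    have h9 : (0 : ℝ) ≤ n := Nat.cast_nonneg n
    linarith
  have h6 := riemannZeta_one_sub hns h1
  rw [h0, mul_zero] at h6
  have h7 := h _ h6
  simp at h7
  linarith

theorem right_of_rh (h : RiemannHypothesis) {s : ℂ} (h0 : riemannZeta s = 0) : s.re ≤ 1 / 2 := by
  by_contra h2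
  push Not at h2
  have h1 : s.re < 1 := by
    by_contra h2
    push Not at h2
    exact riemannZeta_ne_zero_of_one_le_re h2 h0
  have h3 := h s h0 (by
    rintro ⟨n, hn⟩
    have := congrArg Complex.re hn
    simp at this
    have h3 : (0 : ℝ) ≤ n := Nat.cast_nonneg n
    linarith) (by rintro rfl; simp at h1)
  linarith

end Pool.Agent.N831.LI
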