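import Pool.Agent.N831.LI.Bnd

/-!
# The converse: asymptotics of the kernel at a fixed zero
-/

set_option autoImplicit false

open Complex Filter Topology Finset Polynomial

namespace Pool.Agent.N831.LI

lemma phi_bound {t : ℂ} (ht : ‖t‖ ≤ 1 / 2) : ‖(1 - t) / (1 + t) * cexp (2 * t) - 1‖ ≤ 16 * ‖t‖ ^ 2 := by
  have h0 := norm_nonneg t
  have hd : 1 / 2 ≤ ‖1 + t‖ := by
    have := norm_sub_norm_le (1 : ℂ) (-t)
    rw [norm_one, norm_neg, sub_neg_eq_add] at this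
    linarith
  have hne : (1 : ℂ) + t ≠ 0 := norm_pos_iff.1 (by linarith)
  set E := cexp (2 * t) - 1 - 2 * t with hE
  have h2t : ‖2 * t‖ ≤ 1 := by
    rw [norm_mul, Complex.norm_ofNat]; linarith
  have hEn : ‖E‖ ≤ 4 * ‖t‖ ^ 2 := by
    have := Complex.norm_exp_sub_one_sub_id_le h2t
    rw [norm_mul, Complex.norm_ofNat] at this
    calc ‖E‖ ≤ (2 * ‖t‖) ^ 2 := this
      _ = _ := by ring
  have e : (1 - t) / (1 + t) * cexp (2 * t) - 1 = (-2 * t ^ 2 + (1 - t) * E) / (1 + t) := by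
    rw [hE]
    field_simp
    ring
  rw [e, norm_div, div_le_iff₀ (by linarith)]
  have h1 : ‖1 - t‖ ≤ 3 / 2 := by
    have := norm_sub_le (1 : ℂ) t
    rw [norm_one] at this
    linarith
  calc ‖-2 * t ^ 2 + (1 - t) * E‖ ≤ ‖-2 * t ^ 2‖ + ‖(1 - t) * E‖ := norm_add_le _ _
    _ ≤ 2 * ‖t‖ ^ 2 + 3 / 2 * (4 * ‖t‖ ^ 2) := by
        rw [norm_mul, norm_mul, norm_pow, norm_neg, Complex.norm_ofNat]
        gcongr
    _ ≤ 16 * ‖t‖ ^ 2 * (1 / 2) := by nlinarith [sq_nonneg ‖t‖]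
    _ ≤ 16 * ‖t‖ ^ 2 * ‖1 + t‖ := by gcongr

lemma pow_one_add (t : ℂ) (k : ℕ) (h : k * ‖t‖ ≤ 1) : ‖(1 + t) ^ k - 1‖ ≤ 2 * (k * ‖t‖) := by
  have h1 : ‖(1 + t) ^ k - 1‖ ≤ (1 + ‖t‖) ^ k - 1 := by
    clear h
    induction k with
    | zero => simp
    | succ k ih =>
      have e : (1 + t) ^ (k + 1) - 1 = (1 + t) * ((1 + t) ^ k - 1) + t := by ring
      rw [e]
      have h2 : ‖1 + t‖ ≤ 1 + ‖t‖ := by
        have := norm_add_le (1 : ℂ) t
        rwa [norm_one] at this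
      calc ‖(1 + t) * ((1 + t) ^ k - 1) + t‖ ≤ ‖1 + t‖ * ‖(1 + t) ^ k - 1‖ + ‖t‖ := by
            refine (norm_add_le _ _).trans ?_
            rw [norm_mul]
        _ ≤ (1 + ‖t‖) * ((1 + ‖t‖) ^ k - 1) + ‖t‖ := by gcongr
        _ = _ := by ring
  have h2 : (1 + ‖t‖) ^ k ≤ Real.exp (k * ‖t‖) := by
    rw [Real.exp_nat_mul]
    gcongr
    linarith [Real.add_one_le_exp ‖t‖]
  have h3 : Real.exp (k * ‖t‖) - 1 ≤ 2 * (k * ‖t‖) := by
    have h4 := Real.abs_exp_sub_one_le (x := k * ‖t‖) (by rw [abs_of_nonneg (by positivity)]; exact h)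
    rw [abs_of_nonneg (show (0:ℝ) ≤ k * ‖t‖ by positivity)] at h4
    exact (le_abs_self _).trans h4
  linarith

/-- `-W = exp (-2z/b) (1 + r)` -/
lemma V_eq {b : ℝ} (hb : 0 < b) {z : ℂ} (hz : ‖z‖ ≤ b / 2) :
    ∃ r : ℂ, ‖r‖ ≤ 16 * ‖z‖ ^ 2 / b ^ 2 ∧ -W b z = cexp (-(2 * z / b)) * (1 + r) := by
  have hbC : (b : ℂ) ≠ 0 := by exact_mod_cast hb.ne'
  set t : ℂ := z / b with ht
  have htn : ‖t‖ = ‖z‖ / b := by
    rw [ht, norm_div, Complex.norm_real, Real.norm_eq_abs, abs_of_pos hb]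
  have ht2 : ‖t‖ ≤ 1 / 2 := by
    rw [htn, div_le_iff₀ hb]; linarith
  have hne : (1 : ℂ) + t ≠ 0 := by
    have := norm_sub_norm_le (1 : ℂ) (-t)
    rw [norm_one, norm_neg, sub_neg_eq_add] at this
    exact norm_pos_iff.1 (by linarith)
  refine ⟨(1 - t) / (1 + t) * cexp (2 * t) - 1, ?_, ?_⟩
  · refine (phi_bound ht2).trans (le_of_eq ?_)
    rw [htn]; ring
  · have e1 : -W b z = (1 - t) / (1 + t) := by
      have h3 : z + b ≠ 0 := by
        have : z + b = b * (1 + t) := by rw [ht]; field_simp; ring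
        rw [this]
        exact mul_ne_zero hbC hne
      unfold W
      rw [ht] at hne ⊢
      rw [← neg_div, div_eq_div_iff h3 hne]
      field_simp
      ring
    rw [e1]
    have e2 : -(2 * z / (b : ℂ)) = -(2 * t) := by rw [ht]; ring
    rw [e2, Complex.exp_neg]
    have := Complex.exp_ne_zero (2 * t)
    field_simp
    ring

lemma tw_eq_W (b ν : ℝ) : tw b ν = -W b (-(ν * I)) := by
  unfold tw W
  rw [← neg_div]
  congr 1 <;> ring

lemma tendsto_log_div : Tendsto (fun b : ℝ => Real.log b / b) atTop (𝓝 0) := by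
  have := Real.isLittleO_log_id_atTop.tendsto_div_nhds_zero
  simpa using this

/-- the power `A` -/
theorem claim1 {α : ℝ} (hα : 0 < α) (z : ℂ) : ∃ K : ℝ, 0 ≤ K ∧ ∀ᶠ b : ℝ in atTop, ∀ t : ℝ, 0 ≤ t →
    t ≤ α * Real.log b → ‖(-W b z) ^ ⌊t * b⌋₊ * cexp (2 * z * t) - 1‖ ≤ K * (Real.log b / b) := by
  set K : ℝ := 4 * ‖z‖ + 32 * α * ‖z‖ ^ 2 with hK
  have hK0 : 0 ≤ K := by positivity
  refine ⟨3 * K, by positivity, ?_⟩
  have ev1 : ∀ᶠ b : ℝ in atTop, K * (Real.log b / b) ≤ 1 := by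
    have h1 : Tendsto (fun b : ℝ => K * (Real.log b / b)) atTop (𝓝 0) := by
      simpa using tendsto_log_div.const_mul K
    filter_upwards [h1.eventually_lt_const one_pos] with b hb using hb.le
  have ev2 := Real.tendsto_log_atTop.eventually_ge_atTop 1
  filter_upwards [ev1, ev2, eventually_ge_atTop (max 1 (2 * ‖z‖))] with b h1 h2 hb
  intro t ht0 ht
  have hb1 : 1 ≤ b := (le_max_left _ _).trans hb
  have hb0 : 0 < b := by linarith
  have hbz : ‖z‖ ≤ b / 2 := by linarith [(le_max_right _ _).trans hb]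
  obtain ⟨r, hr, hV⟩ := V_eq hb0 hbz
  set L := Real.log b with hL
  set A := ⌊t * b⌋₊ with hA
  have hbC : (b : ℂ) ≠ 0 := by exact_mod_cast hb0.ne'
  have hpos : 0 ≤ t * b := by positivity
  have hA1 : (A : ℝ) ≤ t * b := Nat.floor_le hpos
  have hA2 : t * b < A + 1 := Nat.lt_floor_add_one _
  set d : ℝ := t * b - A with hd
  have hd0 : 0 ≤ d := by linarith
  have hd1 : d ≤ 1 := by linarith
  have e1 : (-W b z) ^ A * cexp (2 * z * t) = cexp (2 * z * d / b) * (1 + r) ^ A := by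
    rw [hV, mul_pow, ← Complex.exp_nat_mul]
    have : cexp (A * -(2 * z / b)) * (1 + r) ^ A * cexp (2 * z * t) =
        cexp (A * -(2 * z / b)) * cexp (2 * z * t) * (1 + r) ^ A := by ring
    rw [this, ← Complex.exp_add]
    congr 2
    rw [hd]
    push_cast
    field_simp
    ring
  rw [e1]
  set x := cexp (2 * z * d / b) - 1 with hx
  set y := (1 + r) ^ A - 1 with hy
  have hLb : 0 ≤ L / b := by positivity
  have hx1 : ‖2 * z * d / b‖ ≤ 2 * ‖z‖ / b := by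
    rw [norm_div, norm_mul, norm_mul, Complex.norm_ofNat, Complex.norm_real, Complex.norm_real,
      Real.norm_eq_abs, Real.norm_eq_abs, abs_of_pos hb0, abs_of_nonneg hd0]
    apply div_le_div_of_nonneg_right _ hb0.le
    exact mul_le_of_le_one_right (by positivity) hd1
  have hxL : 2 * ‖z‖ / b ≤ 1 := by rw [div_le_one hb0]; linarith
  have hxn : ‖x‖ ≤ K * (L / b) := by
    have := Complex.norm_exp_sub_one_le (hx1.trans hxL)
    calc ‖x‖ ≤ 2 * ‖2 * z * d / b‖ := this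
      _ ≤ 2 * (2 * ‖z‖ / b) := by gcongr
      _ = 4 * ‖z‖ * (1 / b) := by ring
      _ ≤ 4 * ‖z‖ * (L / b) := by gcongr
      _ ≤ K * (L / b) := by
          apply mul_le_mul_of_nonneg_right _ hLb
          rw [hK]
          have : 0 ≤ 32 * α * ‖z‖ ^ 2 := by positivity
          linarith
  have hAr : A * ‖r‖ ≤ 16 * α * ‖z‖ ^ 2 * (L / b) := by
    calc A * ‖r‖ ≤ (α * L * b) * (16 * ‖z‖ ^ 2 / b ^ 2) := by
          gcongr
          exact hA1.trans (by gcongr)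
      _ = _ := by field_simp
  have hKle : 16 * α * ‖z‖ ^ 2 * (L / b) ≤ K / 2 * (L / b) := by
    apply mul_le_mul_of_nonneg_right _ hLb
    rw [hK]
    have := norm_nonneg z
    linarith
  have hyn : ‖y‖ ≤ K * (L / b) := by
    have := pow_one_add r A (by linarith)
    linarith
  have e2 : cexp (2 * z * d / b) * (1 + r) ^ A - 1 = x + y + x * y := by
    rw [hx, hy]; ring
  rw [e2]
  calc ‖x + y + x * y‖ ≤ ‖x‖ + ‖y‖ + ‖x‖ * ‖y‖ := by
        refine (norm_add_le _ _).trans ?_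
        rw [norm_mul]
        gcongr
        exact norm_add_le _ _
    _ ≤ K * (L / b) + K * (L / b) + 1 * (K * (L / b)) := by
        gcongr
        linarith
    _ = _ := by ring

/-- the limit of the Dirichlet kernel -/
noncomputable def GG (τ : ℝ) (ζ : ℂ) : ℂ := if ζ = 0 then 1 else (1 - cexp (-(2 * τ * ζ))) / (2 * τ * ζ)

/-- the numerator -/
theorem num_lim {τ : ℝ} (hτ : 0 < τ) (ν : ℝ) (z : ℂ) :
    Tendsto (fun b : ℝ => (Real.log b : ℂ) * ((-tw b ν * W b z) ^ ⌊τ * b⌋₊ -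
      cexp (-(2 * τ * (z - ν * I))))) atTop (𝓝 0) := by
  rw [tendsto_zero_iff_norm_tendsto_zero]
  set ζ : ℂ := z - ν * I with hζ
  set K1 : ℝ := 16 * ‖z‖ ^ 2 + 16 * ν ^ 2 + 16 * ‖z‖ ^ 2 * (16 * ν ^ 2) with hK1
  have hK10 : 0 ≤ K1 := by positivity
  set K : ℝ := Real.exp (2 * τ * ‖ζ‖) * (2 * τ * K1) + Real.exp (2 * τ * ‖ζ‖) * (4 * ‖ζ‖) with hK
  have hlim : Tendsto (fun b : ℝ => K * (Real.log b / b)) atTop (𝓝 0) := by
    simpa using tendsto_log_div.const_mul K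
  refine squeeze_zero' (Eventually.of_forall fun _ => norm_nonneg _) ?_ hlim
  filter_upwards [eventually_ge_atTop (max (max (max 1 (1 / τ)) (2 * ‖z‖)) (max (2 * |ν|)
    (max (τ * K1) (2 * ‖ζ‖))))] with b hb
  have hb1 : 1 ≤ b := (le_max_left _ _).trans ((le_max_left _ _).trans ((le_max_left _ _).trans hb))
  have hbτ : 1 / τ ≤ b := (le_max_right _ _).trans ((le_max_left _ _).trans ((le_max_left _ _).trans hb))
  have hbz : 2 * ‖z‖ ≤ b := (le_max_right _ _).trans ((le_max_left _ _).trans hb)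
  have hbν : 2 * |ν| ≤ b := (le_max_left _ _).trans ((le_max_right _ _).trans hb)
  have hbK : τ * K1 ≤ b := (le_max_left _ _).trans ((le_max_right _ _).trans ((le_max_right _ _).trans hb))
  have hbζ : 2 * ‖ζ‖ ≤ b := (le_max_right _ _).trans ((le_max_right _ _).trans ((le_max_right _ _).trans hb))
  have hb0 : 0 < b := by linarith
  have hbC : (b : ℂ) ≠ 0 := by exact_mod_cast hb0.ne'
  obtain ⟨r1, hr1, hV1⟩ := V_eq hb0 (z := z) (by linarith)
  have hνn : ‖-((ν : ℂ) * I)‖ = |ν| := by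
    rw [norm_neg, norm_mul, Complex.norm_real, Complex.norm_I, mul_one, Real.norm_eq_abs]
  obtain ⟨r2, hr2, hV2⟩ := V_eq hb0 (z := -(ν * I)) (by rw [hνn]; linarith)
  rw [hνn, sq_abs] at hr2
  set q := ⌊τ * b⌋₊ with hq
  have hq1 : (q : ℝ) ≤ τ * b := Nat.floor_le (by positivity)
  have hq2 : τ * b < q + 1 := Nat.lt_floor_add_one _
  set r : ℂ := r1 + r2 + r1 * r2 with hr
  have hrn : ‖r‖ ≤ K1 / b ^ 2 := by
    have hb2 : 1 ≤ b ^ 2 := one_le_pow₀ hb1
    calc ‖r‖ ≤ ‖r1‖ + ‖r2‖ + ‖r1‖ * ‖r2‖ := by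
          rw [hr]
          refine (norm_add_le _ _).trans ?_
          rw [norm_mul]
          gcongr
          exact norm_add_le _ _
      _ ≤ 16 * ‖z‖ ^ 2 / b ^ 2 + 16 * ν ^ 2 / b ^ 2 + (16 * ‖z‖ ^ 2 / b ^ 2) * (16 * ν ^ 2 / 1) := by
          gcongr
          refine hr2.trans ?_
          gcongr
      _ = _ := by rw [hK1]; ring
  have hω : -tw b ν * W b z = cexp (-(2 * ζ / b)) * (1 + r) := by
    have : -tw b ν * W b z = tw b ν * (-W b z) := by ring
    rw [this, tw_eq_W, hV1, hV2]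
    have e : cexp (-(2 * ζ / b)) = cexp (-(2 * -(ν * I) / b)) * cexp (-(2 * z / b)) := by
      rw [← Complex.exp_add]
      congr 1
      rw [hζ]
      field_simp
      ring
    rw [e, hr]
    ring
  set d : ℝ := τ * b - q with hd
  have hd0 : 0 ≤ d := by linarith
  have hd1 : d ≤ 1 := by linarith
  have e1 : (-tw b ν * W b z) ^ q - cexp (-(2 * τ * ζ)) =
      cexp (-(2 * ζ * q / b)) * ((1 + r) ^ q - 1) + cexp (-(2 * τ * ζ)) * (cexp (2 * ζ * d / b) - 1) := by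
    rw [hω, mul_pow, ← Complex.exp_nat_mul]
    have e2 : cexp (-(2 * τ * ζ)) * cexp (2 * ζ * d / b) = cexp (-(2 * ζ * q / b)) := by
      rw [← Complex.exp_add]
      congr 1
      rw [hd]
      push_cast
      field_simp
      ring
    have e3 : (q : ℂ) * -(2 * ζ / b) = -(2 * ζ * q / b) := by ring
    rw [e3]
    linear_combination -e2
  have hζ0 := norm_nonneg ζ
  have hn1 : ‖cexp (-(2 * ζ * q / b))‖ ≤ Real.exp (2 * τ * ‖ζ‖) := by
    rw [Complex.norm_exp]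
    apply Real.exp_le_exp.2
    refine (Complex.re_le_norm _).trans ?_
    rw [norm_neg, norm_div, norm_mul, norm_mul, Complex.norm_ofNat, Complex.norm_natCast,
      Complex.norm_real, Real.norm_eq_abs, abs_of_pos hb0, div_le_iff₀ hb0]
    nlinarith
  have hn2 : ‖cexp (-(2 * τ * ζ))‖ ≤ Real.exp (2 * τ * ‖ζ‖) := by
    rw [Complex.norm_exp]
    apply Real.exp_le_exp.2
    refine (Complex.re_le_norm _).trans ?_
    rw [norm_neg, norm_mul, norm_mul, Complex.norm_ofNat, Complex.norm_real, Real.norm_eq_abs,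
      abs_of_pos hτ]
  have hqr : q * ‖r‖ ≤ τ * K1 / b := by
    calc q * ‖r‖ ≤ (τ * b) * (K1 / b ^ 2) := by gcongr
      _ = _ := by field_simp
  have hn3 : ‖(1 + r) ^ q - 1‖ ≤ 2 * (τ * K1 / b) := by
    have h5 : τ * K1 / b ≤ 1 := by rw [div_le_one hb0]; exact hbK
    have := pow_one_add r q (by linarith)
    linarith
  have hn4 : ‖cexp (2 * ζ * d / b) - 1‖ ≤ 2 * (2 * ‖ζ‖ / b) := by
    have h5 : ‖2 * ζ * d / b‖ ≤ 2 * ‖ζ‖ / b := by
      rw [norm_div, norm_mul, norm_mul, Complex.norm_ofNat, Complex.norm_real, Complex.norm_real,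
        Real.norm_eq_abs, Real.norm_eq_abs, abs_of_pos hb0, abs_of_nonneg hd0]
      apply div_le_div_of_nonneg_right _ hb0.le
      exact mul_le_of_le_one_right (by positivity) hd1
    have h6 : 2 * ‖ζ‖ / b ≤ 1 := by rw [div_le_one hb0]; exact hbζ
    have := Complex.norm_exp_sub_one_le (h5.trans h6)
    linarith
  have hL0 : 0 ≤ Real.log b := Real.log_nonneg hb1
  rw [norm_mul, Complex.norm_real, Real.norm_eq_abs, abs_of_nonneg hL0, e1]
  calc Real.log b * ‖cexp (-(2 * ζ * q / b)) * ((1 + r) ^ q - 1) +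
        cexp (-(2 * τ * ζ)) * (cexp (2 * ζ * d / b) - 1)‖
      ≤ Real.log b * (Real.exp (2 * τ * ‖ζ‖) * (2 * (τ * K1 / b)) +
        Real.exp (2 * τ * ‖ζ‖) * (2 * (2 * ‖ζ‖ / b))) := by
        gcongr
        refine (norm_add_le _ _).trans ?_
        rw [norm_mul, norm_mul]
        gcongr
    _ = K * (Real.log b / b) := by rw [hK]; ring

/-- the denominator -/
theorem den_lim {τ : ℝ} (hτ : 0 < τ) (ν : ℝ) {z : ℂ} (hz : |z.re| < 1 / 2) :
    Tendsto (fun b : ℝ => (Real.log b : ℂ) * (((⌊τ * b⌋₊ : ℕ) : ℂ) * (1 - (-tw b ν * W b z)) -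
      2 * τ * (z - ν * I))) atTop (𝓝 0) := by
  rw [tendsto_zero_iff_norm_tendsto_zero]
  set ζ : ℂ := z - ν * I with hζ
  set K1 : ℝ := 1 + τ * (‖z‖ + |ν| + |ν| * ‖z‖) with hK1
  have hK10 : 0 ≤ K1 := by positivity
  set K : ℝ := 2 * ‖ζ‖ * (2 * K1) with hK
  have hlim : Tendsto (fun b : ℝ => K * (Real.log b / b)) atTop (𝓝 0) := by
    simpa using tendsto_log_div.const_mul K
  refine squeeze_zero' (Eventually.of_forall fun _ => norm_nonneg _) ?_ hlim
  filter_upwards [eventually_ge_atTop (1 : ℝ)] with b hb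
  have hb0 : 0 < b := by linarith
  have hbh : 1 / 2 < b := by linarith
  have hbC : (b : ℂ) ≠ 0 := by exact_mod_cast hb0.ne'
  set q := ⌊τ * b⌋₊ with hq
  have hq1 : (q : ℝ) ≤ τ * b := Nat.floor_le (by positivity)
  have hq2 : τ * b < q + 1 := Nat.lt_floor_add_one _
  have hL0 : 0 ≤ Real.log b := Real.log_nonneg hb
  have hne := add_ne hbh hz
  have hden := tw_den (ν := ν) hb0
  have e1 : (q : ℂ) * (1 - (-tw b ν * W b z)) - 2 * τ * ζ =
      2 * ζ * ((b * (q - τ * b) - τ * (b * z - ν * I * b - ν * I * z)) / ((b - ν * I) * (z + b))) := by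
    rw [one_sub_tw hbh hz, ← hζ]
    field_simp
    ring
  rw [norm_mul, Complex.norm_real, Real.norm_eq_abs, abs_of_nonneg hL0, e1, norm_mul, norm_mul,
    Complex.norm_ofNat]
  have hd1 : b ≤ ‖(b : ℂ) - ν * I‖ := by
    have := Complex.abs_re_le_norm ((b : ℂ) - ν * I)
    simp at this
    exact (le_abs_self b).trans this
  have hd2 : b / 2 ≤ ‖z + b‖ := by
    have := Complex.abs_re_le_norm (z + b)
    simp at this
    have h3 := le_abs_self (z.re + b)
    rw [abs_lt] at hz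
    linarith [hz.1]
  have hnum : ‖(b : ℂ) * (q - τ * b) - τ * (b * z - ν * I * b - ν * I * z)‖ ≤ K1 * b := by
    have h1 : ‖(b : ℂ) * (q - τ * b)‖ ≤ b * 1 := by
      rw [norm_mul, Complex.norm_real, Real.norm_eq_abs, abs_of_pos hb0]
      have : ((q : ℂ) - τ * b) = ((q - τ * b : ℝ) : ℂ) := by push_cast; ring
      rw [this, Complex.norm_real, Real.norm_eq_abs]
      gcongr
      rw [abs_le]; constructor <;> linarith
    have h2 : ‖(τ : ℂ) * (b * z - ν * I * b - ν * I * z)‖ ≤ τ * (b * ‖z‖ + |ν| * b + |ν| * ‖z‖ * b) := by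
      rw [norm_mul, Complex.norm_real, Real.norm_eq_abs, abs_of_pos hτ]
      gcongr
      calc ‖(b : ℂ) * z - ν * I * b - ν * I * z‖ ≤ ‖(b : ℂ) * z‖ + ‖(ν : ℂ) * I * b‖ + ‖(ν : ℂ) * I * z‖ := by
            refine (norm_sub_le _ _).trans ?_
            gcongr
            exact norm_sub_le _ _
        _ = b * ‖z‖ + |ν| * b + |ν| * ‖z‖ * 1 := by
            simp only [norm_mul, Complex.norm_real, Complex.norm_I, mul_one, Real.norm_eq_abs,
              abs_of_pos hb0]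
        _ ≤ _ := by gcongr
    calc ‖(b : ℂ) * (q - τ * b) - τ * (b * z - ν * I * b - ν * I * z)‖
        ≤ b * 1 + τ * (b * ‖z‖ + |ν| * b + |ν| * ‖z‖ * b) := (norm_sub_le _ _).trans (add_le_add h1 h2)
      _ = K1 * b := by rw [hK1]; ring
  have hfrac : ‖((b : ℂ) * (q - τ * b) - τ * (b * z - ν * I * b - ν * I * z)) /
      ((b - ν * I) * (z + b))‖ ≤ 2 * K1 / b := by
    rw [norm_div, norm_mul]
    calc _ ≤ K1 * b / (b * (b / 2)) := by gcongr
      _ = 2 * K1 / b := by field_simp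
  calc Real.log b * (2 * ‖ζ‖ * _) ≤ Real.log b * (2 * ‖ζ‖ * (2 * K1 / b)) := by gcongr
    _ = K * (Real.log b / b) := by rw [hK]; ring

/-- the Dirichlet kernel -/
theorem claim2 {τ : ℝ} (hτ : 0 < τ) (ν : ℝ) {z : ℂ} (hz : |z.re| < 1 / 2) :
    Tendsto (fun b : ℝ => (Real.log b : ℂ) * (dv ⌊τ * b⌋₊ (-tw b ν * W b z) -
      GG τ (z - ν * I))) atTop (𝓝 0) := by
  by_cases h0 : z - ν * I = 0
  · refine tendsto_const_nhds.congr' ?_
    filter_upwards [eventually_ge_atTop (max 1 (1 / τ))] with b hb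
    have hb1 : 1 ≤ b := (le_max_left _ _).trans hb
    have hbτ : 1 ≤ b * τ := by
      have := (le_max_right _ _).trans hb
      rwa [div_le_iff₀ hτ] at this
    have hq : 1 ≤ ⌊τ * b⌋₊ := by
      rw [Nat.one_le_floor_iff]; linarith
    have h1 := one_sub_tw (b := b) (ν := ν) (by linarith) hz
    rw [h0, mul_zero, zero_div] at h1
    have h2 : -tw b ν * W b z = 1 := (sub_eq_zero.1 h1).symm
    rw [h2, dv_one hq, GG, if_pos h0]
    ring
  · have hn := num_lim hτ ν z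
    have hd := den_lim hτ ν hz
    set ζ : ℂ := z - ν * I with hζ
    have hd0 : (2 : ℂ) * τ * ζ ≠ 0 := by
      have : (τ : ℂ) ≠ 0 := by exact_mod_cast hτ.ne'
      exact mul_ne_zero (mul_ne_zero two_ne_zero this) h0
    have hd1 : Tendsto (fun b : ℝ => ((⌊τ * b⌋₊ : ℕ) : ℂ) * (1 - (-tw b ν * W b z))) atTop
        (𝓝 (2 * τ * ζ)) := by
      rw [tendsto_iff_norm_sub_tendsto_zero]
      refine squeeze_zero' (Eventually.of_forall fun _ => norm_nonneg _) ?_
        (tendsto_zero_iff_norm_tendsto_zero.1 hd)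
      filter_upwards [Real.tendsto_log_atTop.eventually_ge_atTop 1] with b hb
      rw [norm_mul, Complex.norm_real, Real.norm_eq_abs, abs_of_nonneg (by linarith)]
      exact le_mul_of_one_le_left (norm_nonneg _) hb
    have hev := hd1.eventually_ne hd0
    have hlim : Tendsto (fun b : ℝ => (-((Real.log b : ℂ) * ((-tw b ν * W b z) ^ ⌊τ * b⌋₊ -
        cexp (-(2 * τ * ζ)))) * (2 * τ * ζ) - (1 - cexp (-(2 * τ * ζ))) *
        ((Real.log b : ℂ) * (((⌊τ * b⌋₊ : ℕ) : ℂ) * (1 - (-tw b ν * W b z)) - 2 * τ * ζ))) /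
        ((((⌊τ * b⌋₊ : ℕ) : ℂ) * (1 - (-tw b ν * W b z))) * (2 * τ * ζ))) atTop
        (𝓝 ((-0 * (2 * τ * ζ) - (1 - cexp (-(2 * τ * ζ))) * 0) / ((2 * τ * ζ) * (2 * τ * ζ)))) := by
      refine Tendsto.div ?_ (hd1.mul_const _) (mul_ne_zero hd0 hd0)
      exact (hn.neg.mul_const _).sub (hd.const_mul _)
    have hz0 : ((-0 * (2 * τ * ζ) - (1 - cexp (-(2 * τ * ζ))) * 0) / ((2 * τ * ζ) * (2 * τ * ζ))) = (0 : ℂ) := by
      simp
    rw [hz0] at hlim
    refine hlim.congr' ?_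
    filter_upwards [hev] with b hb
    have hx1 : -tw b ν * W b z ≠ 1 := by
      intro h
      rw [h, sub_self, mul_zero] at hb
      exact hb rfl
    rw [dv_geom hx1, GG, if_neg h0]
    set d := ((⌊τ * b⌋₊ : ℕ) : ℂ) * (1 - (-tw b ν * W b z))
    set x := (-tw b ν * W b z) ^ ⌊τ * b⌋₊
    have hτC : (τ : ℂ) ≠ 0 := by exact_mod_cast hτ.ne'
    field_simp
    ring

end Pool.Agent.N831.LI
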