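import Mathlib

/-!
# Li coefficients with a base point: the abstract setting

`M z` is the multiplicity of the zero `1/2 + z`; `b = a - 1/2` for the base point `a`.
-/

set_option autoImplicit false

open Complex Filter Topology Finset

namespace Pool.Agent.N831.LI

/-- abstract zero data -/
structure Zs (M : ℂ → ℝ) : Prop where
  nn : ∀ z, 0 ≤ M z
  one : ∀ z, M z ≠ 0 → 1 ≤ M z
  strip : ∀ z, M z ≠ 0 → |z.re| < 1 / 2
  conj : ∀ z, M (starRingEnd ℂ z) = M z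
  neg : ∀ z, M (-z) = M z
  cnt : ∀ s : ℝ, 1 < s → ∃ C : ℝ, 0 ≤ C ∧ ∀ S : Finset ℂ, ∑ z ∈ S, M z / (1 + |z.im|) ^ s ≤ C
  low : ∃ c : ℝ, 0 < c ∧ ∃ Y0 : ℝ, 1 ≤ Y0 ∧ ∀ Y : ℝ, Y0 ≤ Y → ∃ S : Finset ℂ,
    (∀ z ∈ S, Y < z.im ∧ z.im ≤ 2 * Y) ∧ c * Y * Real.log Y ≤ ∑ z ∈ S, M z

/-- the Möbius transformation -/
noncomputable def W (b : ℝ) (z : ℂ) : ℂ := (z - b) / (z + b)

/-- the Li coefficient -/
noncomputable def li (M : ℂ → ℝ) (b : ℝ) (n : ℕ) : ℝ := ∑' z : ℂ, M z * (1 - (W b z ^ n).re)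

/-- the density hypothesis -/
def Dn (M : ℂ → ℝ) (κ : ℝ) : Prop := ∃ η : ℝ, 0 < η ∧ ∃ C : ℝ, 0 ≤ C ∧ ∀ T : ℝ, 1 ≤ T →
  ∀ S : Finset ℂ, (∀ z ∈ S, |z.im| ≤ T) → ∑ z ∈ S, M z * T ^ (2 * κ * |z.re|) ≤ C * T ^ (2 - η)

lemma normSq_add (b : ℝ) (z : ℂ) : Complex.normSq (z + b) = (z.re + b) ^ 2 + z.im ^ 2 := by
  rw [Complex.normSq_apply]; simp; ring

lemma normSq_sub (b : ℝ) (z : ℂ) : Complex.normSq (z - b) = (z.re - b) ^ 2 + z.im ^ 2 := by
  rw [Complex.normSq_apply]; simp; ring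

lemma add_ne {b : ℝ} (hb : 1 / 2 < b) {z : ℂ} (hz : |z.re| < 1 / 2) : z + b ≠ 0 := by
  intro h
  have := congrArg Complex.re h
  simp at this
  rw [abs_lt] at hz
  linarith [hz.1]

lemma sub_ne {b : ℝ} (hb : 1 / 2 < b) {z : ℂ} (hz : |z.re| < 1 / 2) : z - b ≠ 0 := by
  intro h
  have := congrArg Complex.re h
  simp at this
  rw [abs_lt] at hz
  linarith [hz.2]

/-- the exponent -/
noncomputable def gg (b y : ℝ) : ℝ := 2 * b / ((b - 1 / 2) ^ 2 + y ^ 2)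

lemma gg_nonneg {b : ℝ} (hb : 1 / 2 < b) (y : ℝ) : 0 ≤ gg b y := by
  unfold gg
  positivity

/-- `|w| ≤ exp (|x| g)` -/
lemma norm_W_le {b : ℝ} (hb : 1 / 2 < b) {z : ℂ} (hz : |z.re| < 1 / 2) :
    ‖W b z‖ ≤ Real.exp (|z.re| * gg b z.im) := by
  have h1 : (0 : ℝ) < (z.re + b) ^ 2 + z.im ^ 2 := by
    rw [abs_lt] at hz
    have : 0 < z.re + b := by linarith [hz.1]
    positivity
  have hd : 0 < (b - 1 / 2) ^ 2 + z.im ^ 2 := by
    have : 0 < b - 1 / 2 := by linarith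
    positivity
  have h2 : ‖W b z‖ ^ 2 = ((z.re - b) ^ 2 + z.im ^ 2) / ((z.re + b) ^ 2 + z.im ^ 2) := by
    rw [W, norm_div, div_pow, ← Complex.normSq_eq_norm_sq, ← Complex.normSq_eq_norm_sq,
      normSq_add, normSq_sub]
  have h3 : ((z.re - b) ^ 2 + z.im ^ 2) / ((z.re + b) ^ 2 + z.im ^ 2) ≤
      1 + 4 * b * |z.re| / ((b - 1 / 2) ^ 2 + z.im ^ 2) := by
    have hle : (b - 1 / 2) ^ 2 + z.im ^ 2 ≤ (z.re + b) ^ 2 + z.im ^ 2 := by
      rw [abs_lt] at hz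
      have : b - 1 / 2 ≤ z.re + b := by linarith [hz.1]
      have h0 : 0 ≤ b - 1 / 2 := by linarith
      nlinarith
    have h4 : ((z.re - b) ^ 2 + z.im ^ 2) / ((z.re + b) ^ 2 + z.im ^ 2) =
        1 + (-4 * b * z.re) / ((z.re + b) ^ 2 + z.im ^ 2) := by
      field_simp; ring
    rw [h4]
    have h5 : (-4 * b * z.re) / ((z.re + b) ^ 2 + z.im ^ 2) ≤
        (4 * b * |z.re|) / ((z.re + b) ^ 2 + z.im ^ 2) := by
      apply div_le_div_of_nonneg_right _ h1.le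
      have := neg_abs_le z.re
      nlinarith
    have h6 : (4 * b * |z.re|) / ((z.re + b) ^ 2 + z.im ^ 2) ≤
        (4 * b * |z.re|) / ((b - 1 / 2) ^ 2 + z.im ^ 2) := by
      apply div_le_div_of_nonneg_left _ hd hle
      have := abs_nonneg z.re
      positivity
    linarith
  have h7 : ‖W b z‖ ^ 2 ≤ Real.exp (|z.re| * gg b z.im) ^ 2 := by
    rw [h2, ← Real.exp_nat_mul]
    refine h3.trans ?_
    have h8 := Real.add_one_le_exp (4 * b * |z.re| / ((b - 1 / 2) ^ 2 + z.im ^ 2))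
    have h9 : ((2 : ℕ) : ℝ) * (|z.re| * gg b z.im) = 4 * b * |z.re| / ((b - 1 / 2) ^ 2 + z.im ^ 2) := by
      unfold gg; push_cast; ring
    rw [h9]; linarith
  exact (pow_le_pow_iff_left₀ (norm_nonneg _) (Real.exp_pos _).le two_ne_zero).1 h7

lemma W_neg {b : ℝ} (z : ℂ) : W b (-z) = (W b z)⁻¹ := by
  unfold W
  rw [inv_div, ← neg_div_neg_eq]
  congr 1 <;> ring

lemma W_conj {b : ℝ} (z : ℂ) : W b (starRingEnd ℂ z) = starRingEnd ℂ (W b z) := by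
  unfold W
  simp

lemma W_one_sub {b : ℝ} {z : ℂ} (h : z + b ≠ 0) : W b z = 1 - 2 * b / (z + b) := by
  unfold W
  field_simp
  ring

/-- second order expansion of `(1 - u)^n` -/
lemma pow_exp (u : ℂ) (n : ℕ) : ‖(1 - u) ^ n - 1 + n * u‖ ≤ (n : ℝ) ^ 2 * ‖u‖ ^ 2 * (1 + ‖u‖) ^ n := by
  induction n with
  | zero => simp
  | succ n ih =>
    have e : (1 - u) ^ (n + 1) - 1 + ((n + 1 : ℕ) : ℂ) * u =
        (1 - u) * ((1 - u) ^ n - 1 + n * u) + n * u ^ 2 := by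
      push_cast; ring
    rw [e]
    have hu := norm_nonneg u
    have h1 : ‖1 - u‖ ≤ 1 + ‖u‖ := by
      have := norm_sub_le (1 : ℂ) u
      simpa using this
    have h2 : (1 : ℝ) ≤ (1 + ‖u‖) ^ (n + 1) := one_le_pow₀ (by linarith)
    calc ‖(1 - u) * ((1 - u) ^ n - 1 + n * u) + n * u ^ 2‖
        ≤ ‖(1 - u) * ((1 - u) ^ n - 1 + n * u)‖ + ‖(n : ℂ) * u ^ 2‖ := norm_add_le _ _
      _ ≤ (1 + ‖u‖) * ((n : ℝ) ^ 2 * ‖u‖ ^ 2 * (1 + ‖u‖) ^ n) + n * ‖u‖ ^ 2 * (1 + ‖u‖) ^ (n + 1) := by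
          rw [norm_mul, norm_mul, norm_pow, Complex.norm_natCast]
          have h3 : (n : ℝ) * ‖u‖ ^ 2 ≤ n * ‖u‖ ^ 2 * (1 + ‖u‖) ^ (n + 1) :=
            le_mul_of_one_le_right (by positivity) h2
          exact add_le_add (mul_le_mul h1 ih (norm_nonneg _) (by positivity)) h3
      _ = ((n : ℝ) ^ 2 + n) * ‖u‖ ^ 2 * (1 + ‖u‖) ^ (n + 1) := by ring
      _ ≤ _ := by
          have : (n : ℝ) ^ 2 + n ≤ ((n + 1 : ℕ) : ℝ) ^ 2 := by
            push_cast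
            nlinarith [Nat.cast_nonneg (α := ℝ) n]
          gcongr

/-- the terms of high zeros -/
lemma term_far {b : ℝ} (hb : 1 ≤ b) {z : ℂ} (hz : |z.re| < 1 / 2) {n : ℕ} (hn : 1 ≤ n)
    (hy : n * b ≤ |z.im|) : |1 - (W b z ^ n).re| ≤ 40 * (n * b / |z.im|) ^ 2 := by
  have hn1 : (1 : ℝ) ≤ n := by exact_mod_cast hn
  have hy0 : 0 < |z.im| := lt_of_lt_of_le (by positivity) hy
  have hne := add_ne (b := b) (by linarith) hz
  set u : ℂ := 2 * b / (z + b) with hu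
  have hnu : |z.im| ≤ ‖z + b‖ := by
    have := Complex.abs_im_le_norm (z + b)
    simpa using this
  have hu1 : ‖u‖ ≤ 2 * b / |z.im| := by
    rw [hu, norm_div]
    have : ‖(2 : ℂ) * b‖ = 2 * b := by
      rw [norm_mul, Complex.norm_real, Real.norm_eq_abs, abs_of_nonneg (by linarith)]
      norm_num
    rw [this]
    exact div_le_div_of_nonneg_left (by positivity) hy0 hnu
  have hq : n * b / |z.im| ≤ 1 := (div_le_one hy0).2 hy
  set q : ℝ := n * b / |z.im| with hqd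
  have hq0 : 0 ≤ q := by positivity
  have hnu2 : n * ‖u‖ ≤ 2 * q := by
    calc n * ‖u‖ ≤ n * (2 * b / |z.im|) := by gcongr
      _ = 2 * q := by rw [hqd]; ring
  have h1 := pow_exp u n
  have h2 : (1 + ‖u‖) ^ n ≤ Real.exp 2 := by
    calc (1 + ‖u‖) ^ n ≤ (Real.exp ‖u‖) ^ n := by
          gcongr
          linarith [Real.add_one_le_exp ‖u‖]
      _ = Real.exp (n * ‖u‖) := by rw [← Real.exp_nat_mul]
      _ ≤ Real.exp 2 := Real.exp_le_exp.2 (by linarith)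
  have he2 : Real.exp 2 ≤ 7.4 := by
    have := Real.exp_one_lt_d9
    have h : Real.exp 2 = Real.exp 1 * Real.exp 1 := by rw [← Real.exp_add]; norm_num
    rw [h]
    have := Real.exp_pos 1
    nlinarith
  have h3 : ‖(1 - u) ^ n - 1 + n * u‖ ≤ 30 * q ^ 2 := by
    refine h1.trans ?_
    calc (n : ℝ) ^ 2 * ‖u‖ ^ 2 * (1 + ‖u‖) ^ n = (n * ‖u‖) ^ 2 * (1 + ‖u‖) ^ n := by ring
      _ ≤ (2 * q) ^ 2 * 7.4 := by
          gcongr
          exact h2.trans he2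
      _ ≤ 30 * q ^ 2 := by nlinarith [sq_nonneg q]
  have h4 : |((n : ℂ) * u).re| ≤ 3 * q ^ 2 := by
    have e : ((n : ℂ) * u).re = n * (2 * b * (z.re + b) / ((z.re + b) ^ 2 + z.im ^ 2)) := by
      rw [hu]
      have : ((n : ℂ) * (2 * b / (z + b))) = ((n * (2 * b) : ℝ) : ℂ) * (z + b)⁻¹ := by
        push_cast; ring
      rw [this, Complex.re_ofReal_mul, Complex.inv_re, normSq_add]
      simp only [add_re, ofReal_re]
      ring
    have hp : 0 < z.re + b := by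
      rw [abs_lt] at hz; linarith [hz.1]
    rw [e, abs_of_nonneg (by positivity)]
    have h5 : z.re + b ≤ 3 / 2 * b := by
      rw [abs_lt] at hz; linarith [hz.2]
    have h6 : 2 * b * (z.re + b) / ((z.re + b) ^ 2 + z.im ^ 2) ≤ 3 * b ^ 2 / |z.im| ^ 2 := by
      apply div_le_div₀ (by positivity) (by nlinarith) (by positivity)
      rw [sq_abs]; nlinarith [sq_nonneg (z.re + b)]
    calc n * (2 * b * (z.re + b) / ((z.re + b) ^ 2 + z.im ^ 2)) ≤ n * (3 * b ^ 2 / |z.im| ^ 2) := by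
          gcongr
      _ ≤ (n * n) * (3 * b ^ 2 / |z.im| ^ 2) := by
          apply mul_le_mul_of_nonneg_right _ (by positivity)
          nlinarith
      _ = 3 * q ^ 2 := by rw [hqd]; ring
  have e : (1 : ℝ) - (W b z ^ n).re = -(((1 - u) ^ n - 1 + n * u).re) + ((n : ℂ) * u).re := by
    rw [W_one_sub hne]
    simp only [sub_re, add_re, one_re]
    ring
  rw [e]
  have h7 := Complex.abs_re_le_norm ((1 - u) ^ n - 1 + n * u)
  calc |-(((1 - u) ^ n - 1 + n * u).re) + ((n : ℂ) * u).re|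
      ≤ |-(((1 - u) ^ n - 1 + n * u).re)| + |((n : ℂ) * u).re| := abs_add_le _ _
    _ ≤ 30 * q ^ 2 + 3 * q ^ 2 := by
        rw [abs_neg]; linarith
    _ ≤ 40 * q ^ 2 := by nlinarith [sq_nonneg q]

end Pool.Agent.N831.LI
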