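import Pool.Agent.N831.LI.Main

/-!
# The negative parts are small
-/

set_option autoImplicit false

open Complex Filter Topology Finset

namespace Pool.Agent.N831.LI

variable {M : ℂ → ℝ}

/-- powers of the logarithm against powers -/
lemma ev_log (k : ℕ) (η ε : ℝ) (hη : 0 < η) (hε : 0 < ε) (A : ℝ) :
    ∀ᶠ b : ℝ in atTop, A * Real.log b ^ k ≤ ε * b ^ η := by
  have h1 := isLittleO_log_rpow_rpow_atTop (k : ℝ) hη
  have h2 := h1.def (c := ε / (|A| + 1)) (by positivity)
  filter_upwards [h2, eventually_ge_atTop (1 : ℝ)] with b hb hb1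
  have hl : 0 ≤ Real.log b := Real.log_nonneg hb1
  rw [Real.rpow_natCast, Real.norm_eq_abs, Real.norm_eq_abs,
    abs_of_nonneg (show 0 ≤ Real.log b ^ k by positivity),
    abs_of_nonneg (show 0 ≤ b ^ η by positivity)] at hb
  have h3 : A * Real.log b ^ k ≤ (|A| + 1) * Real.log b ^ k := by
    have := le_abs_self A
    gcongr
    linarith
  refine h3.trans ?_
  calc (|A| + 1) * Real.log b ^ k ≤ (|A| + 1) * (ε / (|A| + 1) * b ^ η) := by gcongr
    _ = ε * b ^ η := by field_simp

/-- the bound for the negative part of a term -/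
noncomputable def qq (M : ℂ → ℝ) (b : ℝ) (n : ℕ) (z : ℂ) : ℝ :=
  M z * ((n * (|z.re| * gg b z.im)) ^ 2 / 2 * Real.exp (n * (|z.re| * gg b z.im)))

lemma gg_le {b : ℝ} (hb : 10 ≤ b) (y : ℝ) : gg b y ≤ 2.22 / b := by
  unfold gg
  rw [div_le_div_iff₀ (by nlinarith [sq_nonneg (b - 1/2), sq_nonneg y]) (by linarith)]
  nlinarith [sq_nonneg y]

lemma gg_le' {b : ℝ} (hb : 10 ≤ b) (y : ℝ) : b * gg b y ≤ 2 + 6 / b := by
  unfold gg
  rw [← mul_div_assoc, div_le_iff₀ (by nlinarith [sq_nonneg (b - 1/2), sq_nonneg y])]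
  have h : (2 + 6 / b) * ((b - 1 / 2) ^ 2 + y ^ 2) ≥ (2 + 6 / b) * (b - 1 / 2) ^ 2 := by
    have : 0 ≤ (2 + 6 / b) * y ^ 2 := by positivity
    nlinarith
  have h2 : (2 + 6 / b) * (b - 1 / 2) ^ 2 = 2 * b ^ 2 + 4 * b - 5.5 + 1.5 / b := by
    field_simp; ring
  have h3 : 0 ≤ 1.5 / b := by positivity
  nlinarith

lemma exp_le_three {u : ℝ} (h : u ≤ 1) : Real.exp u ≤ 3 := by
  have := Real.exp_one_lt_d9
  have h2 := Real.exp_le_exp.2 h
  linarith

theorem neg_small (hM : Zs M) {κ : ℝ} (hκ : 0 < κ) (hD : Dn M κ) {ε : ℝ} (hε : 0 < ε) :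
    ∀ᶠ b : ℝ in atTop, ∀ n : ℕ, 1 ≤ n → (n : ℝ) ≤ κ * b * Real.log b → ∀ S : Finset ℂ,
      ∑ z ∈ S, qq M b n z ≤ ε * n * b * Real.log b := by
  classical
  obtain ⟨C2, hC2, hc2⟩ := cnt2 hM
  obtain ⟨C5, hC5, hc5⟩ := hM.cnt (5 / 4) (by norm_num)
  obtain ⟨η, hη, C, hC, hd⟩ := hD
  have e1 := Real.tendsto_log_atTop.eventually_ge_atTop (max (max 1 κ) (12 * κ * C2 / ε))
  have e2 := ev_log 1 (3 / 4) ε (by norm_num) hε (4 * C5 * 3)
  have e3 := ev_log 3 η ε hη hε (12 * κ ^ 2 * C)
  have e4 := ev_log 1 1 1 one_pos one_pos (3 * κ)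
  filter_upwards [e1, e2, e3, e4, eventually_ge_atTop (10 : ℝ)] with b h1 h2 h3 h4 hb
  intro n hn hnk S
  set L := Real.log b with hL
  have hL1 : 1 ≤ L := (le_max_left _ _).trans ((le_max_left _ _).trans h1)
  have hLκ : κ ≤ L := (le_max_right _ _).trans ((le_max_left _ _).trans h1)
  have hLc : 12 * κ * C2 / ε ≤ L := (le_max_right _ _).trans h1
  have hb0 : 0 < b := by linarith
  have hn1 : (1 : ℝ) ≤ n := by exact_mod_cast hn
  have hbL : 1 ≤ b * L := by nlinarith
  have hbh : (1 / 2 : ℝ) < b := by linarith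
  rw [← Finset.sum_filter_add_sum_filter_not S (fun z => b * L ≤ |z.im|)]
  -- high
  have hhigh : ∑ z ∈ S.filter (fun z => b * L ≤ |z.im|), qq M b n z ≤ ε / 2 * n * b * L := by
    have hterm : ∀ z ∈ S.filter (fun z => b * L ≤ |z.im|),
        qq M b n z ≤ 6 * n ^ 2 / L ^ 2 * (M z / (1 + |z.im|) ^ 2) := by
      intro z hz
      rw [Finset.mem_filter] at hz
      by_cases hM0 : M z = 0
      · simp [qq, hM0]
      have hx := hM.strip z hM0
      have hy1 : 1 ≤ |z.im| := hbL.trans hz.2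
      have hg : gg b z.im ≤ 2 * b / z.im ^ 2 := by
        unfold gg
        apply div_le_div_of_nonneg_left (by linarith) (by rw [← sq_abs]; positivity)
        nlinarith [sq_nonneg (b - 1 / 2)]
      have hg0 := gg_nonneg hbh z.im
      set u : ℝ := n * (|z.re| * gg b z.im) with hu
      have hu0 : 0 ≤ u := by positivity
      have hu1 : u ≤ n * b / z.im ^ 2 := by
        calc u ≤ n * (1 / 2 * (2 * b / z.im ^ 2)) := by
              rw [hu]; gcongr
          _ = _ := by ring
      have hy2 : (b * L) ^ 2 ≤ z.im ^ 2 := by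
        rw [← sq_abs z.im]; exact pow_le_pow_left₀ (by linarith) hz.2 2
      have hyp : 0 < z.im ^ 2 := lt_of_lt_of_le (by positivity) hy2
      have hu2 : u ≤ 1 := by
        refine hu1.trans ?_
        rw [div_le_one hyp]
        calc n * b ≤ κ * b * L * b := by gcongr
          _ ≤ L * b * L * b := by gcongr
          _ = (b * L) ^ 2 := by ring
          _ ≤ _ := hy2
      have hu3 : u ^ 2 / 2 * Real.exp u ≤ 6 * n ^ 2 / L ^ 2 * (1 / (1 + |z.im|) ^ 2) := by
        have h5 := exp_le_three hu2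
        have h6 : u ^ 2 ≤ (n * b / z.im ^ 2) ^ 2 := pow_le_pow_left₀ hu0 hu1 2
        have h7 : (n * b / z.im ^ 2) ^ 2 ≤ n ^ 2 / L ^ 2 * (4 / (1 + |z.im|) ^ 2) := by
          have h8 : (1 + |z.im|) ^ 2 ≤ 4 * z.im ^ 2 := by
            rw [← sq_abs z.im]; nlinarith
          rw [div_pow, div_mul_div_comm, div_le_div_iff₀ (by positivity) (by positivity)]
          calc (n * b) ^ 2 * (L ^ 2 * (1 + |z.im|) ^ 2) = n ^ 2 * ((b * L) ^ 2 * (1 + |z.im|) ^ 2) := by ring
            _ ≤ n ^ 2 * (z.im ^ 2 * (4 * z.im ^ 2)) := by gcongr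
            _ = _ := by ring
        calc u ^ 2 / 2 * Real.exp u ≤ (n ^ 2 / L ^ 2 * (4 / (1 + |z.im|) ^ 2)) / 2 * 3 := by
              gcongr
              exact h6.trans h7
          _ = _ := by ring
      calc qq M b n z = M z * (u ^ 2 / 2 * Real.exp u) := rfl
        _ ≤ M z * (6 * n ^ 2 / L ^ 2 * (1 / (1 + |z.im|) ^ 2)) :=
            mul_le_mul_of_nonneg_left hu3 (hM.nn z)
        _ = _ := by ring
    refine (Finset.sum_le_sum hterm).trans ?_
    rw [← Finset.mul_sum]
    calc 6 * n ^ 2 / L ^ 2 * ∑ z ∈ S.filter (fun z => b * L ≤ |z.im|), M z / (1 + |z.im|) ^ 2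
        ≤ 6 * n ^ 2 / L ^ 2 * C2 := by gcongr; exact hc2 _
      _ = n * (n * (6 * C2) / L ^ 2) := by ring
      _ ≤ n * ((κ * b * L) * (6 * C2) / L ^ 2) := by gcongr
      _ = n * b * (6 * κ * C2 / L) := by field_simp
      _ ≤ n * b * (ε / 2 * L) := by
          gcongr
          rw [div_le_iff₀ (by linarith)]
          rw [div_le_iff₀ hε] at hLc
          nlinarith [mul_nonneg (mul_nonneg hε.le (show 0 ≤ L by linarith)) (show 0 ≤ L - 1 by linarith)]
      _ = _ := by ring
  -- low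
  have hlow : ∑ z ∈ S.filter (fun z => ¬ b * L ≤ |z.im|), qq M b n z ≤ ε / 2 * n * b * L := by
    rcases le_total (n : ℝ) b with hnb | hnb
    · have hterm : ∀ z ∈ S.filter (fun z => ¬ b * L ≤ |z.im|),
          qq M b n z ≤ 2 * n ^ 2 / b ^ 2 * (1 + b * L) ^ (5 / 4 : ℝ) * (M z / (1 + |z.im|) ^ (5 / 4 : ℝ)) := by
        intro z hz
        rw [Finset.mem_filter, not_le] at hz
        by_cases hM0 : M z = 0
        · simp [qq, hM0]
        have hx := hM.strip z hM0
        have hg := gg_le hb z.im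
        have hg0 := gg_nonneg hbh z.im
        set u : ℝ := n * (|z.re| * gg b z.im) with hu
        have hu0 : 0 ≤ u := by positivity
        have hu1 : u ≤ 1.11 * (n / b) := by
          calc u ≤ n * (1 / 2 * (2.22 / b)) := by
                rw [hu]; gcongr
            _ = _ := by ring
        have hnb1 : n / b ≤ 1 := (div_le_one hb0).2 hnb
        have hu2 : u ≤ 1.11 := by linarith
        have he : Real.exp u ≤ 3.1 := by
          have h5 : Real.exp u ≤ Real.exp 1.11 := Real.exp_le_exp.2 hu2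
          have h6 : Real.exp 1.11 = Real.exp 1 * Real.exp 0.11 := by rw [← Real.exp_add]; norm_num
          have h7 := Real.exp_one_lt_d9
          have h8 : Real.exp 0.11 ≤ 1.12 := by
            have h8 := Real.exp_bound' (x := 0.11) (by norm_num) (by norm_num) (n := 3) (by norm_num)
            norm_num [Finset.sum_range_succ, Nat.factorial] at h8 ⊢
            linarith
          have h9 := Real.exp_pos 1
          nlinarith [Real.exp_pos 0.11]
        have hu3 : u ^ 2 / 2 * Real.exp u ≤ 2 * (n / b) ^ 2 := by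
          have h6 : u ^ 2 ≤ (1.11 * (n / b)) ^ 2 := pow_le_pow_left₀ hu0 hu1 2
          calc u ^ 2 / 2 * Real.exp u ≤ (1.11 * (n / b)) ^ 2 / 2 * 3.1 := by gcongr
            _ ≤ 2 * (n / b) ^ 2 := by nlinarith [sq_nonneg ((n:ℝ) / b)]
        have hr : 1 ≤ (1 + b * L) ^ (5 / 4 : ℝ) / (1 + |z.im|) ^ (5 / 4 : ℝ) := by
          rw [one_le_div (by positivity)]
          exact Real.rpow_le_rpow (by positivity) (by linarith) (by norm_num)
        calc qq M b n z = M z * (u ^ 2 / 2 * Real.exp u) := rfl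
          _ ≤ M z * (2 * (n / b) ^ 2) := mul_le_mul_of_nonneg_left hu3 (hM.nn z)
          _ ≤ M z * (2 * (n / b) ^ 2) * ((1 + b * L) ^ (5 / 4 : ℝ) / (1 + |z.im|) ^ (5 / 4 : ℝ)) :=
              le_mul_of_one_le_right (mul_nonneg (hM.nn z) (by positivity)) hr
          _ = _ := by ring
      refine (Finset.sum_le_sum hterm).trans ?_
      rw [← Finset.mul_sum]
      have hp : (1 + b * L) ^ (5 / 4 : ℝ) ≤ 3 * b ^ (5 / 4 : ℝ) * L ^ (5 / 4 : ℝ) := by
        calc (1 + b * L) ^ (5 / 4 : ℝ) ≤ (2 * (b * L)) ^ (5 / 4 : ℝ) :=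
              Real.rpow_le_rpow (by positivity) (by linarith) (by norm_num)
          _ = 2 ^ (5 / 4 : ℝ) * (b ^ (5 / 4 : ℝ) * L ^ (5 / 4 : ℝ)) := by
              rw [Real.mul_rpow (by norm_num) (by positivity), Real.mul_rpow (by positivity) (by positivity)]
          _ ≤ 3 * (b ^ (5 / 4 : ℝ) * L ^ (5 / 4 : ℝ)) := by
              have : (2 : ℝ) ^ (5 / 4 : ℝ) ≤ 3 := by
                have h5 : (2 : ℝ) ^ (5 / 4 : ℝ) ≤ 2 ^ (3 / 2 : ℝ) :=
                  Real.rpow_le_rpow_of_exponent_le (by norm_num) (by norm_num)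
                have h6 : (2 : ℝ) ^ (3 / 2 : ℝ) ≤ 3 := by
                  have h7 : ((2 : ℝ) ^ (3 / 2 : ℝ)) ^ 2 = 8 := by
                    rw [← Real.rpow_natCast, ← Real.rpow_mul (by norm_num)]
                    norm_num
                  nlinarith [Real.rpow_nonneg (show (0:ℝ) ≤ 2 by norm_num) (3 / 2)]
                linarith
              gcongr
          _ = _ := by ring
      have hL2 : L ^ (5 / 4 : ℝ) ≤ L ^ 2 := by
        rw [← Real.rpow_natCast]
        exact Real.rpow_le_rpow_of_exponent_le hL1 (by norm_num)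
      have hb2 : b ^ (5 / 4 : ℝ) * b ^ (3 / 4 : ℝ) = b ^ 2 := by
        rw [← Real.rpow_add hb0, ← Real.rpow_natCast]; norm_num
      have hnb1 : (n : ℝ) / b ≤ 1 := (div_le_one hb0).2 hnb
      rw [pow_one] at h2
      calc 2 * n ^ 2 / b ^ 2 * (1 + b * L) ^ (5 / 4 : ℝ) *
            ∑ z ∈ S.filter (fun z => ¬ b * L ≤ |z.im|), M z / (1 + |z.im|) ^ (5 / 4 : ℝ)
          ≤ 2 * n ^ 2 / b ^ 2 * (3 * b ^ (5 / 4 : ℝ) * L ^ (5 / 4 : ℝ)) * C5 := by
            gcongr
            · exact Finset.sum_nonneg fun z _ => div_nonneg (hM.nn z) (by positivity)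
            · exact hc5 _
        _ ≤ 2 * n ^ 2 / b ^ 2 * (3 * b ^ (5 / 4 : ℝ) * L ^ 2) * C5 := by gcongr
        _ = n / b * (n / b * (1 / 2) * L * (4 * C5 * 3 * L) * b ^ (5 / 4 : ℝ)) := by ring
        _ ≤ 1 * (n / b * (1 / 2) * L * (ε * b ^ (3 / 4 : ℝ)) * b ^ (5 / 4 : ℝ)) := by gcongr
        _ = n / b * (1 / 2) * L * ε * (b ^ (5 / 4 : ℝ) * b ^ (3 / 4 : ℝ)) := by ring
        _ = ε / 2 * n * b * L := by rw [hb2]; field_simp
    · -- `n > b`
      have hterm : ∀ z ∈ S.filter (fun z => ¬ b * L ≤ |z.im|),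
          qq M b n z ≤ 6 * κ ^ 2 * L ^ 2 * (M z * (b * L) ^ (2 * κ * |z.re|)) := by
        intro z hz
        rw [Finset.mem_filter, not_le] at hz
        by_cases hM0 : M z = 0
        · simp [qq, hM0]
        have hx := hM.strip z hM0
        have hx0 := abs_nonneg z.re
        have hg := gg_le' hb z.im
        have hg0 := gg_nonneg hbh z.im
        set u : ℝ := n * (|z.re| * gg b z.im) with hu
        have hu0 : 0 ≤ u := by positivity
        have hu1 : u ≤ κ * L * |z.re| * (2 + 6 / b) := by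
          calc u ≤ (κ * b * L) * (|z.re| * gg b z.im) := by
                rw [hu]; gcongr
            _ = κ * L * |z.re| * (b * gg b z.im) := by ring
            _ ≤ _ := by gcongr
        have h6b : 6 / b ≤ 2 := by rw [div_le_iff₀ hb0]; linarith
        have hu2 : u ≤ 2 * κ * L := by
          refine hu1.trans ?_
          calc κ * L * |z.re| * (2 + 6 / b) ≤ κ * L * (1 / 2) * (2 + 2) := by gcongr
            _ = _ := by ring
        have hu3 : u ≤ 2 * κ * |z.re| * L + 1 := by
          refine hu1.trans ?_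
          have h7 : κ * L * |z.re| * (6 / b) ≤ 1 := by
            calc κ * L * |z.re| * (6 / b) ≤ κ * L * (1 / 2) * (6 / b) := by gcongr
              _ = (3 * κ * L ^ 1) / b := by ring
              _ ≤ 1 := by
                  rw [div_le_one hb0]
                  rw [Real.rpow_one] at h4
                  linarith
          nlinarith
        have he : Real.exp u ≤ 3 * (b * L) ^ (2 * κ * |z.re|) := by
          calc Real.exp u ≤ Real.exp (2 * κ * |z.re| * L + 1) := Real.exp_le_exp.2 hu3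
            _ = Real.exp (2 * κ * |z.re| * L) * Real.exp 1 := Real.exp_add _ _
            _ ≤ Real.exp (2 * κ * |z.re| * L) * 3 := by
                gcongr
                exact exp_le_three le_rfl
            _ = 3 * b ^ (2 * κ * |z.re|) := by
                rw [Real.rpow_def_of_pos hb0, mul_comm]
                congr 2
                rw [hL]; ring
            _ ≤ _ := by
                gcongr
                nlinarith
        calc qq M b n z = M z * (u ^ 2 / 2 * Real.exp u) := rfl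
          _ ≤ M z * ((2 * κ * L) ^ 2 / 2 * (3 * (b * L) ^ (2 * κ * |z.re|))) := by
              refine mul_le_mul_of_nonneg_left ?_ (hM.nn z)
              gcongr
          _ = _ := by ring
      refine (Finset.sum_le_sum hterm).trans ?_
      rw [← Finset.mul_sum]
      have h5 := hd (b * L) hbL (S.filter (fun z => ¬ b * L ≤ |z.im|)) (fun z hz => by
        rw [Finset.mem_filter, not_le] at hz
        exact hz.2.le)
      have hpow : (b * L) ^ (2 - η) ≤ b ^ 2 * L ^ 2 * (b ^ η)⁻¹ := by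
        have e : (b * L) ^ (2 - η) = b ^ 2 * L ^ 2 * ((b * L) ^ η)⁻¹ := by
          rw [Real.rpow_sub (by positivity), Real.rpow_two, div_eq_mul_inv]; ring
        rw [e]
        gcongr
        nlinarith
      have hbη : 0 < b ^ η := Real.rpow_pos_of_pos hb0 _
      calc 6 * κ ^ 2 * L ^ 2 * ∑ z ∈ S.filter (fun z => ¬ b * L ≤ |z.im|), M z * (b * L) ^ (2 * κ * |z.re|)
          ≤ 6 * κ ^ 2 * L ^ 2 * (C * (b ^ 2 * L ^ 2 * (b ^ η)⁻¹)) := by
            gcongr
            exact h5.trans (by gcongr)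
        _ = (1 / 2) * b ^ 2 * L * (b ^ η)⁻¹ * (12 * κ ^ 2 * C * L ^ 3) := by ring
        _ ≤ (1 / 2) * b ^ 2 * L * (b ^ η)⁻¹ * (ε * b ^ η) := by gcongr
        _ = ε / 2 * b * b * L := by field_simp
        _ ≤ ε / 2 * n * b * L := by gcongr
  calc _ ≤ ε / 2 * n * b * L + ε / 2 * n * b * L := add_le_add hhigh hlow
    _ = _ := by ring

/-- the direct theorem -/
theorem direct (hM : Zs M) {κ : ℝ} (hκ : 0 < κ) (hD : Dn M κ) :
    ∃ c : ℝ, 0 < c ∧ ∀ᶠ b : ℝ in atTop, ∀ n : ℕ, 1 ≤ n → (n : ℝ) ≤ κ * b * Real.log b →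
      c * n * b * Real.log b ≤ li M b n := by
  obtain ⟨c, hc, Y0, hY0, hlow⟩ := hM.low
  refine ⟨c / 20, by positivity, ?_⟩
  filter_upwards [neg_small hM hκ hD (show 0 < c / 20 by positivity),
    eventually_ge_atTop (max 10 Y0)] with b h1 hb
  intro n hn hnk
  have hb10 : 10 ≤ b := (le_max_left _ _).trans hb
  have hbY : Y0 ≤ b := (le_max_right _ _).trans hb
  have hn1 : (1 : ℝ) ≤ n := by exact_mod_cast hn
  have hbh : (1 / 2 : ℝ) < b := by linarith
  have hnb : b ≤ 2 * (n * b) := by nlinarith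
  obtain ⟨P, hP, hPs⟩ := hlow (2 * (n * b)) (by linarith)
  have hsum := li_symm hM (show 1 ≤ b by linarith) n
  have h2 := lower_of hsum (qq M b n) (fun z => by
      unfold qq; exact mul_nonneg (hM.nn z) (by positivity)) (fun z => by
      unfold qq
      by_cases h0 : M z = 0
      · simp [h0]
      rw [← mul_neg]
      exact mul_le_mul_of_nonneg_left (hh_lower hbh (hM.strip z h0) n) (hM.nn z))
    (h1 n hn hnk) P (fun z => 1 / 20 * M z) (fun z hz => by
      by_cases h0 : M z = 0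
      · simp [h0]
      obtain ⟨a1, a2⟩ := hP z hz
      rw [mul_comm]
      exact mul_le_mul_of_nonneg_left (hh_main hb10 (hM.strip z h0) hn a1 (by linarith)) (hM.nn z))
  rw [← Finset.mul_sum] at h2
  have hlog : Real.log b ≤ Real.log (2 * (n * b)) := Real.log_le_log (by linarith) hnb
  have hL0 : 0 ≤ Real.log b := Real.log_nonneg (by linarith)
  have h3 : c * (2 * (n * b)) * Real.log b ≤ ∑ z ∈ P, M z := by
    refine le_trans ?_ hPs
    gcongr
  calc c / 20 * n * b * Real.log b = 1 / 20 * (c * (2 * (n * b)) * Real.log b) -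
        c / 20 * n * b * Real.log b := by ring
    _ ≤ 1 / 20 * ∑ z ∈ P, M z - c / 20 * n * b * Real.log b := by gcongr
    _ ≤ _ := h2

end Pool.Agent.N831.LI
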