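import Pool.Agent.N831.LI.Kern
import Pool.Agent.N831.LI.Neg

/-!
# The converse: bounds for the kernel at the zeros
-/

set_option autoImplicit false

open Complex Filter Topology Finset Polynomial

namespace Pool.Agent.N831.LI

/-- the parameters `A`, `q`, `m` belong to `b` -/
structure Par (α c τ b : ℝ) (A q m : ℕ) : Prop where
  hm1 : c * Real.log b ≤ m
  hm2 : (m : ℝ) ≤ c * Real.log b + 1
  hA : (A : ℝ) ≤ α * b * Real.log b
  hq1 : τ * b - 1 ≤ q
  hq2 : (q : ℝ) ≤ τ * b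

variable {α c τ : ℝ}

lemma exp_111 {x : ℝ} (h : x ≤ 0.111) : Real.exp x ≤ 1.12 := by
  have h5 : Real.exp x ≤ Real.exp 0.111 := Real.exp_le_exp.2 h
  have h8 : Real.exp 0.111 ≤ 1.12 := by
    have h8 := Real.exp_bound' (x := 0.111) (by norm_num) (by norm_num) (n := 3) (by norm_num)
    norm_num [Finset.sum_range_succ, Nat.factorial] at h8 ⊢
    linarith
  linarith

lemma norm_pow_le {b : ℝ} (hb : 10 ≤ b) {z : ℂ} (hz : |z.re| < 1 / 2) (n : ℕ) :
    ‖W b z‖ ^ n ≤ Real.exp (1.11 * (n / b)) := by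
  have hbh : (1 / 2 : ℝ) < b := by linarith
  calc ‖W b z‖ ^ n ≤ Real.exp (|z.re| * gg b z.im) ^ n := by
        gcongr
        exact norm_W_le hbh hz
    _ = Real.exp (n * (|z.re| * gg b z.im)) := by rw [← Real.exp_nat_mul]
    _ ≤ _ := by
        apply Real.exp_le_exp.2
        have h1 := gg_le hb z.im
        have h2 := gg_nonneg hbh z.im
        calc n * (|z.re| * gg b z.im) ≤ n * (1 / 2 * (2.22 / b)) := by gcongr
          _ = _ := by ring

lemma pow06 (m : ℕ) {D : ℝ} (h0 : 0 ≤ D) (h : D ≤ 0.6) : D ^ m ≤ Real.exp (-(m / 2)) := by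
  have h1 : (0.6 : ℝ) ≤ Real.exp (-(1 / 2)) := by
    have h2 : Real.exp (1 / 2) ≤ 1.65 := by
      have h8 := Real.exp_bound' (x := 1 / 2) (by norm_num) (by norm_num) (n := 5) (by norm_num)
      norm_num [Finset.sum_range_succ, Nat.factorial] at h8 ⊢
      linarith
    rw [Real.exp_neg, le_inv_comm₀ (by norm_num) (Real.exp_pos _)]
    norm_num at h2 ⊢
    linarith
  calc D ^ m ≤ (Real.exp (-(1 / 2))) ^ m := pow_le_pow_left₀ h0 (h.trans h1) m
    _ = Real.exp (-(m / 2)) := by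
        rw [← Real.exp_nat_mul]
        congr 1
        ring

/-- the product bound -/
lemma prod_bnd {b : ℝ} {A q m : ℕ} (hP : Par α c τ b A q m) (hb : 10 ≤ b) (hα : 0 < α)
    (hc : 3 * α ≤ c) {z x : ℂ} (hz : |z.re| < 1 / 2) (hx : ‖x‖ = ‖W b z‖) (hD : ‖dv q x‖ ≤ 0.6) :
    ‖aeval x (kp A q m)‖ ≤ 1 := by
  have hL : 0 ≤ Real.log b := Real.log_nonneg (by linarith)
  rw [kp_aeval, norm_mul, norm_pow, norm_pow, hx]
  have h1 := norm_pow_le hb hz A
  have h2 := pow06 m (norm_nonneg _) hD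
  calc ‖W b z‖ ^ A * ‖dv q x‖ ^ m ≤ Real.exp (1.11 * (A / b)) * Real.exp (-(m / 2)) := by gcongr
    _ = Real.exp (1.11 * (A / b) - m / 2) := by rw [← Real.exp_add]; ring_nf
    _ ≤ Real.exp 0 := by
        apply Real.exp_le_exp.2
        have h3 : (A : ℝ) / b ≤ α * Real.log b := by
          rw [div_le_iff₀ (by linarith)]
          linarith [hP.hA]
        have := hP.hm1
        nlinarith [mul_nonneg hα.le hL]
    _ = 1 := Real.exp_zero

lemma norm_one_sub_pow {b : ℝ} {A q m : ℕ} (hP : Par α c τ b A q m) (hb : 10 ≤ b)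
    (hτ1 : τ ≤ 1 / 10) {z x : ℂ} (hz : |z.re| < 1 / 2) (hx : ‖x‖ = ‖W b z‖) :
    ‖1 - x ^ q‖ ≤ 2.12 := by
  have h1 := norm_pow_le hb hz q
  have h2 : (q : ℝ) / b ≤ 1 / 10 := by
    rw [div_le_iff₀ (by linarith)]
    have := hP.hq2
    nlinarith
  calc ‖1 - x ^ q‖ ≤ ‖(1 : ℂ)‖ + ‖x ^ q‖ := norm_sub_le _ _
    _ = 1 + ‖W b z‖ ^ q := by rw [norm_one, norm_pow, hx]
    _ ≤ 1 + 1.12 := by
        have := exp_111 (x := 1.11 * (q / b)) (by linarith)
        linarith
    _ = 2.12 := by norm_num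

theorem untwisted (hα : 0 < α) (hc : 3 * α ≤ c) (hτ0 : 0 < τ) (hτ1 : τ ≤ 1 / 10) :
    ∀ᶠ b : ℝ in atTop, ∀ A q m : ℕ, Par α c τ b A q m → ∀ z : ℂ, |z.re| < 1 / 2 →
      ‖aeval (W b z) (kp A q m)‖ ≤ 2 := by
  have e1 := ev_log 1 2 (1 / 2) (by norm_num) (by norm_num) ((α + 2 * c * τ) * 64 / τ ^ 2)
  have e2 := Real.tendsto_log_atTop.eventually_ge_atTop (1 / c)
  have hc0 : 0 < c := by linarith
  filter_upwards [e1, e2, eventually_ge_atTop (max 10 (4 / τ))] with b h1 hLc hb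
  intro A q m hP z hz
  rw [div_le_iff₀ hc0] at hLc
  have hb10 : 10 ≤ b := (le_max_left _ _).trans hb
  have hbτ : 4 ≤ b * τ := by
    have := (le_max_right _ _).trans hb
    rwa [div_le_iff₀ hτ0] at this
  have hb0 : 0 < b := by linarith
  have hbh : (1 / 2 : ℝ) < b := by linarith
  have hL : 0 ≤ Real.log b := Real.log_nonneg (by linarith)
  have hq3 : (3 : ℝ) ≤ q := by linarith [hP.hq1]
  rcases le_or_gt |z.im| (τ * b ^ 2 / 8) with h | h
  · refine (prod_bnd hP hb10 hα hc hz rfl ?_).trans (by norm_num)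
    have h2 := one_sub_W hbh hz
    have hne := add_ne hbh hz
    have hbC : (b : ℂ) ≠ 0 := by exact_mod_cast hb0.ne'
    have hne1 : W b z ≠ 1 := by
      intro h3
      rw [h3, sub_self] at h2
      have : (2 : ℂ) * b / (z + b) ≠ 0 := div_ne_zero (by simpa using hbC) hne
      exact this h2.symm
    rw [dv_geom hne1, norm_div, norm_mul, h2, norm_div, norm_mul]
    simp only [Complex.norm_natCast, Complex.norm_ofNat, Complex.norm_real, Real.norm_eq_abs]
    rw [abs_of_pos hb0]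
    have h4 := norm_one_sub_pow hP hb10 hτ1 hz (rfl : ‖W b z‖ = ‖W b z‖)
    have h5 : ‖z + b‖ ≤ |z.im| + b + 1 / 2 := by
      have h6 := Complex.norm_le_abs_re_add_abs_im (z + b)
      simp only [add_re, ofReal_re, add_im, ofReal_im, add_zero] at h6
      have h7 := abs_add_le z.re b
      rw [abs_of_pos hb0] at h7
      linarith
    have hnp : 0 < ‖z + b‖ := norm_pos_iff.2 hne
    have e : ‖1 - W b z ^ q‖ / (q * (2 * b / ‖z + b‖)) = ‖1 - W b z ^ q‖ * ‖z + b‖ / (q * (2 * b)) := by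
      field_simp
    rw [e, div_le_iff₀ (by positivity)]
    calc ‖1 - W b z ^ q‖ * ‖z + b‖ ≤ 2.12 * (|z.im| + b + 1 / 2) := by gcongr
      _ ≤ 2.12 * (τ * b ^ 2 / 8 + b + 1 / 2) := by gcongr
      _ ≤ 0.6 * ((τ * b - 1) * (2 * b)) := by nlinarith
      _ ≤ 0.6 * (q * (2 * b)) := by
          gcongr
          exact hP.hq1
  · refine norm_aeval_le (kp_nn A q m) (kp_deg A q m) (kp_one (by
      have : (1 : ℝ) ≤ q := by linarith
      exact_mod_cast this) A m) ?_
    intro n hn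
    have hy : 0 < τ * b ^ 2 / 8 := by positivity
    have hg : |z.re| * gg b z.im ≤ 64 / (τ ^ 2 * b ^ 3) := by
      have h2 : gg b z.im ≤ 2 * b / (τ * b ^ 2 / 8) ^ 2 := by
        unfold gg
        apply div_le_div_of_nonneg_left (by linarith) (by positivity)
        have : (τ * b ^ 2 / 8) ^ 2 ≤ z.im ^ 2 := by
          rw [← sq_abs z.im]; exact pow_le_pow_left₀ hy.le h.le 2
        nlinarith [sq_nonneg (b - 1 / 2)]
      have h0 := gg_nonneg hbh z.im
      calc |z.re| * gg b z.im ≤ 1 / 2 * (2 * b / (τ * b ^ 2 / 8) ^ 2) := by gcongr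
        _ = 64 / (τ ^ 2 * b ^ 3) := by field_simp; norm_num
    have hnr : (n : ℝ) ≤ (α + 2 * c * τ) * b * Real.log b := by
      have h2 : (n : ℝ) ≤ A + m * q := by exact_mod_cast hn
      have h3 : (m : ℝ) * q ≤ (2 * c * Real.log b) * (τ * b) := by
        have h5 : (m : ℝ) ≤ 2 * c * Real.log b := by linarith [hP.hm2]
        exact mul_le_mul h5 hP.hq2 (by positivity) (by positivity)
      have := hP.hA
      nlinarith
    have hcτ : 0 ≤ (α + 2 * c * τ) := by positivity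
    have hg0 : 0 ≤ |z.re| * gg b z.im := mul_nonneg (abs_nonneg _) (gg_nonneg hbh _)
    calc ‖W b z‖ ^ n ≤ Real.exp (|z.re| * gg b z.im) ^ n := by
          gcongr
          exact norm_W_le hbh hz
      _ = Real.exp (n * (|z.re| * gg b z.im)) := by rw [← Real.exp_nat_mul]
      _ ≤ Real.exp (1 / 2) := by
          apply Real.exp_le_exp.2
          calc n * (|z.re| * gg b z.im) ≤ ((α + 2 * c * τ) * b * Real.log b) * (64 / (τ ^ 2 * b ^ 3)) := by
                gcongr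
            _ = ((α + 2 * c * τ) * 64 / τ ^ 2 * Real.log b ^ 1) / b ^ 2 := by field_simp
            _ ≤ (1 / 2 * b ^ (2 : ℝ)) / b ^ 2 := by gcongr
            _ = 1 / 2 := by rw [Real.rpow_two]; field_simp
      _ ≤ 2 := by
          have h8 := Real.exp_bound' (x := 1 / 2) (by norm_num) (by norm_num) (n := 5) (by norm_num)
          norm_num [Finset.sum_range_succ, Nat.factorial] at h8 ⊢
          linarith

theorem twisted (ν : ℝ) (hα : 0 < α) (hc : 3 * α ≤ c) (hτ0 : 0 < τ) (hτ1 : τ ≤ 1 / 10) :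
    ∀ᶠ b : ℝ in atTop, ∀ A q m : ℕ, Par α c τ b A q m → ∀ z : ℂ, |z.re| < 1 / 2 →
      2 / τ ≤ |z.im - ν| → ‖aeval (-tw b ν * W b z) (kp A q m)‖ ≤ 1 := by
  filter_upwards [eventually_ge_atTop (max (max 10 (40 / τ)) (100 * |ν|))] with b hb
  intro A q m hP z hz hzν
  have hb10 : 10 ≤ b := (le_max_left _ _).trans ((le_max_left _ _).trans hb)
  have hbτ : 40 ≤ b * τ := by
    have := (le_max_right _ _).trans ((le_max_left _ _).trans hb)
    rwa [div_le_iff₀ hτ0] at this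
  have hbν : 100 * |ν| ≤ b := (le_max_right _ _).trans hb
  have hb0 : 0 < b := by linarith
  have hbh : (1 / 2 : ℝ) < b := by linarith
  have hν0 := abs_nonneg ν
  have hq39 : (39 : ℝ) ≤ q := by linarith [hP.hq1]
  have hx : ‖-tw b ν * W b z‖ = ‖W b z‖ := by rw [norm_mul, norm_neg, tw_norm hb0, one_mul]
  refine prod_bnd hP hb10 hα hc hz hx ?_
  have h2 := one_sub_tw (ν := ν) hbh hz
  have hne := add_ne hbh hz
  have hden := tw_den (ν := ν) hb0
  have hbC : (b : ℂ) ≠ 0 := by exact_mod_cast hb0.ne'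
  have h2τ : 0 < 2 / τ := by positivity
  have hζn : 2 / τ ≤ ‖z - ν * I‖ := by
    have := Complex.abs_im_le_norm (z - ν * I)
    simp only [sub_im, mul_im, ofReal_re, I_im, mul_one, ofReal_im, I_re, mul_zero, add_zero] at this
    linarith
  have hζ : z - ν * I ≠ 0 := norm_pos_iff.1 (by linarith)
  have hne1 : -tw b ν * W b z ≠ 1 := by
    intro h3
    rw [h3, sub_self] at h2
    exact (div_ne_zero (mul_ne_zero (by simpa using hbC) hζ) (mul_ne_zero hden hne)) h2.symm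
  rw [dv_geom hne1, norm_div, norm_mul, h2, norm_div, norm_mul, norm_mul, norm_mul]
  simp only [Complex.norm_natCast, Complex.norm_ofNat, Complex.norm_real, Real.norm_eq_abs]
  rw [abs_of_pos hb0]
  have h4 := norm_one_sub_pow hP hb10 hτ1 hz hx
  have h5 : ‖z + b‖ ≤ ‖z - ν * I‖ + 1.01 * b := by
    have e : z + b = (z - ν * I) + (ν * I + b) := by ring
    rw [e]
    refine (norm_add_le _ _).trans ?_
    have h6 : ‖(ν : ℂ) * I + b‖ ≤ |ν| + b := by
      refine (norm_add_le _ _).trans ?_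
      rw [norm_mul, Complex.norm_real, Complex.norm_I, mul_one, Complex.norm_real, Real.norm_eq_abs,
        Real.norm_eq_abs, abs_of_pos hb0]
    linarith
  have h7 : ‖(b : ℂ) - ν * I‖ ≤ 1.01 * b := by
    refine (norm_sub_le _ _).trans ?_
    rw [norm_mul, Complex.norm_real, Complex.norm_I, mul_one, Complex.norm_real, Real.norm_eq_abs,
      Real.norm_eq_abs, abs_of_pos hb0]
    linarith
  have hn1 : 0 < ‖z + b‖ := norm_pos_iff.2 hne
  have hn2 : 0 < ‖(b : ℂ) - ν * I‖ := norm_pos_iff.2 hden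
  have hn3 : 0 < ‖z - ν * I‖ := norm_pos_iff.2 hζ
  set x := -tw b ν * W b z
  have e : ‖1 - x ^ q‖ / (q * (2 * b * ‖z - ν * I‖ / (‖(b : ℂ) - ν * I‖ * ‖z + b‖))) =
      ‖1 - x ^ q‖ * (‖(b : ℂ) - ν * I‖ * ‖z + b‖) / (q * (2 * b * ‖z - ν * I‖)) := by
    field_simp
  rw [e, div_le_iff₀ (by positivity)]
  set Z := ‖z - ν * I‖
  have hZ : 2 ≤ Z * τ := by rwa [div_le_iff₀ hτ0] at hζn
  calc ‖1 - x ^ q‖ * (‖(b : ℂ) - ν * I‖ * ‖z + b‖) ≤ 2.12 * ((1.01 * b) * (Z + 1.01 * b)) := by gcongr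
    _ ≤ 0.6 * ((τ * b - 1) * (2 * b * Z)) := by
        have h8 : 2.12 * (1.01 * (Z + 1.01 * b)) ≤ 0.6 * ((τ * b - 1) * (2 * Z)) := by
          nlinarith
        nlinarith
    _ ≤ 0.6 * (q * (2 * b * Z)) := by
        gcongr
        exact hP.hq1

end Pool.Agent.N831.LI
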