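import Pool.Agent.N831.LI.Asy

/-!
# The converse theorem
-/

set_option autoImplicit false

open Complex Filter Topology Finset Polynomial

namespace Pool.Agent.N831.LI

variable {M : ℂ → ℝ}

/-- a quantitative form of the Vandermonde determinant -/
theorem lin_lower (F : Finset ℂ) (x : ℂ → ℂ) (hx : ∀ z ∈ F, ∀ w ∈ F, x z = x w → z = w) :
    ∃ c0 : ℝ, 0 < c0 ∧ ∀ v : ℂ → ℂ, ∃ j ≤ F.card, ∀ z ∈ F, c0 * ‖v z‖ ≤ ‖∑ w ∈ F, v w * x w ^ j‖ := by
  classical
  rcases F.eq_empty_or_nonempty with hF | hF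
  · subst hF
    exact ⟨1, one_pos, fun v => ⟨0, by simp, fun z hz => by simp at hz⟩⟩
  set k := F.card with hk
  have hk0 : 0 < k := Finset.card_pos.2 hF
  set e : F ≃ Fin k := F.equivFin with he
  let f : (Fin k → ℂ) →ₗ[ℂ] (Fin k → ℂ) :=
    { toFun := fun v i => ∑ j : Fin k, v j * x (e.symm j).1 ^ (i : ℕ)
      map_add' := fun v w => by
        funext i
        simp only [Pi.add_apply, add_mul, Finset.sum_add_distrib]
      map_smul' := fun a v => by
        funext i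
        simp only [Pi.smul_apply, smul_eq_mul, RingHom.id_apply, Finset.mul_sum, mul_assoc] }
  have hfapp : ∀ v i, f v i = ∑ j : Fin k, v j * x (e.symm j).1 ^ (i : ℕ) := fun v i => rfl
  have hinj : LinearMap.ker f = ⊥ := by
    rw [LinearMap.ker_eq_bot']
    intro v hv
    refine Matrix.eq_zero_of_forall_pow_sum_mul_pow_eq_zero (f := fun j => x (e.symm j).1) ?_ ?_
    · intro a b hab
      have := hx _ (e.symm a).2 _ (e.symm b).2 hab
      exact e.symm.injective (Subtype.ext this)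
    · intro i
      rw [← hfapp, hv]
      rfl
  obtain ⟨K, hK0, hK⟩ := LinearMap.exists_antilipschitzWith f hinj
  have hKr : (0 : ℝ) < K := by exact_mod_cast hK0
  refine ⟨(K : ℝ)⁻¹, inv_pos.2 hKr, fun v => ?_⟩
  set u : Fin k → ℂ := fun j => v (e.symm j).1 with hu
  have h1 : ‖u‖ ≤ K * ‖f u‖ := by
    have := hK.le_mul_dist u 0
    rwa [map_zero, dist_zero_right, dist_zero_right] at this
  haveI : Nonempty (Fin k) := ⟨⟨0, hk0⟩⟩
  obtain ⟨i, hi⟩ := Finite.exists_max (fun i => ‖f u i‖)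
  have h2 : ‖f u‖ ≤ ‖f u i‖ := (pi_norm_le_iff_of_nonneg (norm_nonneg _)).2 hi
  have h3 : f u i = ∑ w ∈ F, v w * x w ^ (i : ℕ) := by
    rw [hfapp, ← Finset.sum_coe_sort F (fun w => v w * x w ^ (i : ℕ))]
    exact (Equiv.sum_comp e.symm (fun w : F => v w.1 * x w.1 ^ (i : ℕ)))
  refine ⟨i, i.2.le, fun z hz => ?_⟩
  have h4 : ‖v z‖ ≤ ‖u‖ := by
    have := norm_le_pi_norm u (e ⟨z, hz⟩)
    simpa [hu] using this
  rw [← h3]
  have h5 : ‖v z‖ ≤ K * ‖f u i‖ := h4.trans (h1.trans (by gcongr))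
  rw [inv_mul_le_iff₀ hKr]
  exact h5

lemma GG_ne {τ : ℝ} (hτ : 0 < τ) {ζ : ℂ} (h : |ζ.im| < 2 / τ) : GG τ ζ ≠ 0 := by
  unfold GG
  split_ifs with h0
  · exact one_ne_zero
  · have hτC : (τ : ℂ) ≠ 0 := by exact_mod_cast hτ.ne'
    refine div_ne_zero ?_ (mul_ne_zero (mul_ne_zero two_ne_zero hτC) h0)
    intro h1
    have h2 : cexp (-(2 * τ * ζ)) = 1 := (sub_eq_zero.1 h1).symm
    rw [Complex.exp_eq_one_iff] at h2
    obtain ⟨k, hk⟩ := h2
    have him := congrArg Complex.im hk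
    have hre := congrArg Complex.re hk
    simp at him hre
    have hre0 : ζ.re = 0 := by
      rcases hre with h | h
      · exact absurd h hτ.ne'
      · exact h
    have hk0 : k = 0 := by
      by_contra hk0
      have h3 : (1 : ℝ) ≤ |(k : ℝ)| := by
        have : 1 ≤ |k| := Int.one_le_abs hk0
        exact_mod_cast this
      have h4 : |2 * τ * ζ.im| = |(k : ℝ)| * (2 * Real.pi) := by
        have : 2 * τ * ζ.im = -(k * (2 * Real.pi)) := by linarith
        rw [this, abs_neg, abs_mul, abs_of_pos (show 0 < 2 * Real.pi by positivity)]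
      rw [abs_mul, abs_of_pos (show 0 < 2 * τ by positivity)] at h4
      rw [lt_div_iff₀ hτ] at h
      have := Real.pi_gt_three
      nlinarith
    rw [hk0] at him
    simp at him
    rcases him with h | h
    · exact absurd h hτ.ne'
    · exact h0 (Complex.ext hre0 h)

lemma GG_real {τ δ : ℝ} (hτ : 0 < τ) (hδ : 0 < δ) {ζ : ℂ} (h : ζ = ((-δ : ℝ) : ℂ)) : 1 ≤ ‖GG τ ζ‖ := by
  have h0 : ζ ≠ 0 := by
    rw [h]
    exact_mod_cast (by linarith : (-δ : ℝ) ≠ 0)
  have e : GG τ ζ = (((Real.exp (2 * τ * δ) - 1) / (2 * τ * δ) : ℝ) : ℂ) := by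
    unfold GG
    rw [if_neg h0, h]
    push_cast
    have hτC : (τ : ℂ) ≠ 0 := by exact_mod_cast hτ.ne'
    have hδC : (δ : ℂ) ≠ 0 := by exact_mod_cast hδ.ne'
    rw [show -(2 * (τ : ℂ) * -δ) = 2 * τ * δ by ring]
    field_simp
    ring
  rw [e, Complex.norm_real, Real.norm_eq_abs]
  have h1 : 1 ≤ (Real.exp (2 * τ * δ) - 1) / (2 * τ * δ) := by
    rw [one_le_div (by positivity)]
    linarith [Real.add_one_le_exp (2 * τ * δ)]
  exact h1.trans (le_abs_self _)

/-- the asymptotics at one zero -/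
theorem asym {α c τ : ℝ} (hα : 0 < α) (hc : 0 < c) (hτ : 0 < τ) (ν : ℝ) {z : ℂ} (hz : |z.re| < 1 / 2)
    (hG : GG τ (z - ν * I) ≠ 0) {ε : ℝ} (hε : 0 < ε) :
    ∀ᶠ b : ℝ in atTop, ∀ t : ℝ, 0 ≤ t → t ≤ α * Real.log b → ∀ m : ℕ, (m : ℝ) ≤ c * Real.log b + 1 →
      ‖(tw b ν)⁻¹ ^ ⌊t * b⌋₊ * aeval (-tw b ν * W b z) (kp ⌊t * b⌋₊ ⌊τ * b⌋₊ m) -
        cexp (-(2 * z * t)) * GG τ (z - ν * I) ^ m‖ ≤ ε * ‖cexp (-(2 * z * t)) * GG τ (z - ν * I) ^ m‖ := by
  set G := GG τ (z - ν * I) with hGd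
  obtain ⟨K, hK, h1⟩ := claim1 hα z
  have h2 := claim2 hτ ν hz
  have hKlim : Tendsto (fun b : ℝ => K * (Real.log b / b)) atTop (𝓝 0) := by
    simpa using tendsto_log_div.const_mul K
  set ε1 : ℝ := min (ε / 3) 1 with hε1
  have hε10 : 0 < ε1 := lt_min (by positivity) one_pos
  have hε11 : ε1 ≤ 1 := min_le_right _ _
  have hε12 : ε1 ≤ ε / 3 := min_le_left _ _
  have hGn : 0 < ‖G‖ := norm_pos_iff.2 hG
  have ev1 := hKlim.eventually_lt_const hε10
  have ev2 := (tendsto_zero_iff_norm_tendsto_zero.1 h2).eventually_lt_const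
    (show 0 < ε1 * ‖G‖ / (2 * (c + 1)) by positivity)
  filter_upwards [h1, ev1, ev2, Real.tendsto_log_atTop.eventually_ge_atTop 1,
    eventually_gt_atTop (0 : ℝ)] with b a1 a2 a3 a4 hb0
  intro t ht0 ht m hm
  set L := Real.log b with hL
  have htw : tw b ν ≠ 0 := norm_pos_iff.1 (by rw [tw_norm hb0]; exact one_pos)
  set A := ⌊t * b⌋₊ with hA
  set D := dv ⌊τ * b⌋₊ (-tw b ν * W b z) with hD
  have e1 : (tw b ν)⁻¹ ^ A * aeval (-tw b ν * W b z) (kp A ⌊τ * b⌋₊ m) = (-W b z) ^ A * D ^ m := by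
    rw [kp_aeval, ← mul_assoc, ← mul_pow]
    congr 2
    field_simp
  rw [e1]
  set x := (-W b z) ^ A * cexp (2 * z * t) - 1 with hx
  have hxn : ‖x‖ ≤ ε1 := (a1 t ht0 ht).trans a2.le
  -- the kernel
  set g := (D - G) / G with hg
  have hgn : m * ‖g‖ ≤ ε1 / 2 := by
    rw [norm_mul, Complex.norm_real, Real.norm_eq_abs, abs_of_nonneg (by linarith)] at a3
    have h3 : (m : ℝ) ≤ (c + 1) * L := by nlinarith
    rw [hg, norm_div]
    calc m * (‖D - G‖ / ‖G‖) ≤ ((c + 1) * L) * (‖D - G‖ / ‖G‖) := by gcongr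
      _ = (c + 1) * (L * ‖D - G‖) / ‖G‖ := by ring
      _ ≤ (c + 1) * (ε1 * ‖G‖ / (2 * (c + 1))) / ‖G‖ := by gcongr
      _ = ε1 / 2 := by field_simp
  set y := (1 + g) ^ m - 1 with hy
  have hyn : ‖y‖ ≤ ε1 := by
    have := pow_one_add g m (by linarith)
    linarith
  have e2 : D ^ m = G ^ m * (1 + y) := by
    have h3 : 1 + y = (1 + g) ^ m := by rw [hy]; ring
    have h4 : 1 + g = D / G := by rw [hg]; field_simp; ring
    rw [h3, h4, div_pow]
    have := pow_ne_zero m hG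
    field_simp
  have e3 : (-W b z) ^ A = cexp (-(2 * z * t)) * (1 + x) := by
    have h3 : 1 + x = (-W b z) ^ A * cexp (2 * z * t) := by rw [hx]; ring
    rw [h3, Complex.exp_neg]
    have := Complex.exp_ne_zero (2 * z * t)
    field_simp
  have e4 : (-W b z) ^ A * D ^ m - cexp (-(2 * z * t)) * G ^ m =
      (x + y + x * y) * (cexp (-(2 * z * t)) * G ^ m) := by
    rw [e2, e3]; ring
  rw [e4, norm_mul]
  have h5 : ‖x + y + x * y‖ ≤ ε := by
    calc ‖x + y + x * y‖ ≤ ‖x‖ + ‖y‖ + ‖x‖ * ‖y‖ := by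
          refine (norm_add_le _ _).trans ?_
          rw [norm_mul]
          gcongr
          exact norm_add_le _ _
      _ ≤ ε1 + ε1 + 1 * ε1 := by
          gcongr
          exact hxn.trans hε11
      _ ≤ ε := by linarith
  gcongr

/-- lower bound for the finite sum at some of finitely many shifts -/
theorem lower_all {α0 α1 c τ h : ℝ} (hα0 : 0 < α0) (hα1 : α0 < α1) (hc : 0 < c) (hτ : 0 < τ)
    (hh : 0 < h) (ν : ℝ) (F : Finset ℂ) (hF : ∀ z ∈ F, |z.re| < 1 / 2)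
    (hG : ∀ z ∈ F, GG τ (z - ν * I) ≠ 0)
    (hinj : ∀ z ∈ F, ∀ w ∈ F, cexp (-(2 * z * h)) = cexp (-(2 * w * h)) → z = w) (v : ℂ → ℂ) :
    ∃ c1 : ℝ, 0 < c1 ∧ ∀ᶠ b : ℝ in atTop, ∀ m : ℕ, (m : ℝ) ≤ c * Real.log b + 1 →
      ∃ j ≤ F.card, ∀ z ∈ F, c1 * ‖v z * (cexp (-(2 * z * (α0 * Real.log b : ℝ))) *
        GG τ (z - ν * I) ^ m)‖ ≤ ‖∑ w ∈ F, v w * aeval (-tw b ν * W b w)
          (kp ⌊(α0 * Real.log b + j * h) * b⌋₊ ⌊τ * b⌋₊ m)‖ := by
  classical
  obtain ⟨c0, hc0, hlin⟩ := lin_lower F (fun z => cexp (-(2 * z * h))) hinj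
  set k := F.card with hk
  -- a bound for the exponentials
  set E0 : ℝ := ∑ z ∈ F, Real.exp (2 * ‖z‖ * (k * h)) with hE0
  have hE00 : 0 ≤ E0 := Finset.sum_nonneg fun z _ => (Real.exp_pos _).le
  set ε : ℝ := c0 / (2 * (E0 + 1)) with hε
  have hε0 : 0 < ε := by positivity
  refine ⟨c0 / 2, by positivity, ?_⟩
  have hev : ∀ᶠ b : ℝ in atTop, ∀ z ∈ F, ∀ t : ℝ, 0 ≤ t → t ≤ α1 * Real.log b → ∀ m : ℕ,
      (m : ℝ) ≤ c * Real.log b + 1 →
      ‖(tw b ν)⁻¹ ^ ⌊t * b⌋₊ * aeval (-tw b ν * W b z) (kp ⌊t * b⌋₊ ⌊τ * b⌋₊ m) -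
        cexp (-(2 * z * t)) * GG τ (z - ν * I) ^ m‖ ≤
          ε * ‖cexp (-(2 * z * t)) * GG τ (z - ν * I) ^ m‖ := by
    rw [Filter.eventually_all_finset]
    intro z hz
    exact asym (by linarith) hc hτ ν (hF z hz) (hG z hz) hε0
  filter_upwards [hev, Real.tendsto_log_atTop.eventually_ge_atTop (max 1 (k * h / (α1 - α0))),
    eventually_gt_atTop (0 : ℝ)] with b a1 a2 hb0
  intro m hm
  set L := Real.log b with hL
  have hL1 : 1 ≤ L := (le_max_left _ _).trans a2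
  have hLk : k * h ≤ L * (α1 - α0) := by
    have := (le_max_right _ _).trans a2
    rwa [div_le_iff₀ (by linarith)] at this
  set C : ℂ → ℂ := fun z => v z * (cexp (-(2 * z * (α0 * L : ℝ))) * GG τ (z - ν * I) ^ m) with hC
  obtain ⟨j, hj, hjl⟩ := hlin C
  refine ⟨j, hj, ?_⟩
  have hjk : (j : ℝ) ≤ k := by exact_mod_cast hj
  set t : ℝ := α0 * L + j * h with ht
  have ht0 : 0 ≤ t := by positivity
  have ht1 : t ≤ α1 * L := by
    have : (j : ℝ) * h ≤ k * h := by gcongr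
    rw [ht]; linarith
  -- the main sum
  set S1 := ∑ w ∈ F, C w * cexp (-(2 * w * h)) ^ j with hS1
  set S2 := ∑ w ∈ F, v w * aeval (-tw b ν * W b w) (kp ⌊t * b⌋₊ ⌊τ * b⌋₊ m) with hS2
  -- the maximum
  rcases F.eq_empty_or_nonempty with hFe | hFn
  · intro z hz
    rw [hFe] at hz
    simp at hz
  obtain ⟨z0, hz0, hmax⟩ := F.exists_max_image (fun z => ‖C z‖) hFn
  have hdiff : ‖(tw b ν)⁻¹ ^ ⌊t * b⌋₊ * S2 - S1‖ ≤ E0 * ε * ‖C z0‖ := by
    have e1 : (tw b ν)⁻¹ ^ ⌊t * b⌋₊ * S2 - S1 = ∑ w ∈ F, v w * ((tw b ν)⁻¹ ^ ⌊t * b⌋₊ *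
        aeval (-tw b ν * W b w) (kp ⌊t * b⌋₊ ⌊τ * b⌋₊ m) -
        cexp (-(2 * w * t)) * GG τ (w - ν * I) ^ m) := by
      rw [hS2, hS1, Finset.mul_sum, ← Finset.sum_sub_distrib]
      refine Finset.sum_congr rfl fun w _ => ?_
      have e2 : cexp (-(2 * w * (α0 * L : ℝ))) * cexp (-(2 * w * h)) ^ j = cexp (-(2 * w * t)) := by
        rw [← Complex.exp_nat_mul, ← Complex.exp_add]
        congr 1
        rw [ht]
        push_cast
        ring
      rw [hC, ← e2]
      ring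
    rw [e1, hE0, Finset.sum_mul, Finset.sum_mul]
    refine (norm_sum_le _ _).trans (Finset.sum_le_sum fun w hw => ?_)
    rw [norm_mul]
    have h2 := a1 w hw t ht0 ht1 m hm
    have e3 : cexp (-(2 * w * t)) = cexp (-(2 * w * (α0 * L : ℝ))) * cexp (-(2 * w * (j * h))) := by
      rw [← Complex.exp_add]
      congr 1
      rw [ht]
      push_cast
      ring
    have h3 : ‖cexp (-(2 * w * (j * h)))‖ ≤ Real.exp (2 * ‖w‖ * (k * h)) := by
      rw [Complex.norm_exp]
      apply Real.exp_le_exp.2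
      refine (Complex.re_le_norm _).trans ?_
      rw [norm_neg, norm_mul, norm_mul, norm_mul, Complex.norm_ofNat, Complex.norm_natCast,
        Complex.norm_real, Real.norm_eq_abs, abs_of_pos hh]
      gcongr
    calc ‖v w‖ * _ ≤ ‖v w‖ * (ε * ‖cexp (-(2 * w * t)) * GG τ (w - ν * I) ^ m‖) := by gcongr
      _ = ‖cexp (-(2 * w * (j * h)))‖ * ε * ‖C w‖ := by
          rw [e3, hC]
          simp only [norm_mul]
          ring
      _ ≤ Real.exp (2 * ‖w‖ * (k * h)) * ε * ‖C z0‖ := by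
          gcongr
          exact hmax w hw
  have h4 := hjl z0 hz0
  have htwn : ‖(tw b ν)⁻¹ ^ ⌊t * b⌋₊ * S2‖ = ‖S2‖ := by
    rw [norm_mul, norm_pow, norm_inv, tw_norm hb0, inv_one, one_pow, one_mul]
  have h5 : ‖S1‖ ≤ ‖S2‖ + E0 * ε * ‖C z0‖ := by
    have h6 := norm_sub_norm_le S1 ((tw b ν)⁻¹ ^ ⌊t * b⌋₊ * S2)
    rw [norm_sub_rev, htwn] at h6
    linarith
  have h6 : E0 * ε ≤ c0 / 2 := by
    rw [hε]
    have : E0 * (c0 / (2 * (E0 + 1))) = c0 / 2 * (E0 / (E0 + 1)) := by field_simp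
    rw [this]
    apply mul_le_of_le_one_right (by positivity)
    rw [div_le_one (by positivity)]
    linarith
  have h7 : E0 * ε * ‖C z0‖ ≤ c0 / 2 * ‖C z0‖ := by gcongr
  have h8 : c0 * ‖C z0‖ ≤ ‖S1‖ := h4
  have h9 : c0 / 2 * ‖C z0‖ ≤ ‖S2‖ := by linarith
  intro z hz
  refine le_trans ?_ h9
  have := hmax z hz
  gcongr

/-- **the converse for zeros on the left** -/
theorem conv_left (hM : Zs M) {κ : ℝ} (hκ : 0 < κ) {z1 : ℂ} (h1 : M z1 ≠ 0) (h1r : z1.re < 0)
    (hcon : 1 < κ * (-z1.re)) :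
    ∀ᶠ b : ℝ in atTop, ∃ n : ℕ, 1 ≤ n ∧ (n : ℝ) ≤ κ * b * Real.log b ∧ li M b n < 0 := by
  classical
  set δ : ℝ := -z1.re with hδ
  have hδ0 : 0 < δ := by linarith
  -- parameters
  set α : ℝ := (κ + 1 / δ) / 2 with hα
  have hα0 : 0 < α := by positivity
  have h1δ : 1 / δ < κ := by rw [div_lt_iff₀ hδ0]; exact hcon
  have hακ : α < κ := by rw [hα]; linarith
  have hαδ : 1 < α * δ := by
    have : α * δ = (κ * δ + 1) / 2 := by rw [hα]; field_simp
    rw [this]; linarith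
  set α1 : ℝ := (κ + α) / 2 with hα1
  have hα10 : 0 < α1 := by positivity
  have hαα1 : α < α1 := by linarith
  have hα1κ : α1 < κ := by linarith
  set c : ℝ := 3 * κ with hcd
  have hc0 : 0 < c := by positivity
  have hcα : 3 * α1 ≤ c := by rw [hcd]; linarith
  set τ : ℝ := min (1 / 10) ((κ - α1) / (2 * c)) with hτ
  have hτ0 : 0 < τ := lt_min (by norm_num) (div_pos (by linarith) (by positivity))
  have hτ1 : τ ≤ 1 / 10 := min_le_left _ _
  have hcτ : 2 * (c * τ) ≤ κ - α1 := by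
    have h2 : τ ≤ (κ - α1) / (2 * c) := min_le_right _ _
    rw [le_div_iff₀ (by positivity)] at h2
    linarith
  set s : ℝ := min ((1 + α * δ) / 2) 2 with hs
  have hs1 : 1 < s := lt_min (by linarith) (by norm_num)
  have hs2 : s ≤ 2 := min_le_right _ _
  have hsα : s < α * δ := (min_le_left _ _).trans_lt (by linarith)
  set ν := z1.im with hν
  obtain ⟨K, hK0, hkey⟩ := key hM hs1 hs2
  obtain ⟨C, hC0, hcnt⟩ := hM.cnt s hs1
  -- the finite set of near zeros
  have hFfin : {z : ℂ | M z ≠ 0 ∧ |z.im - ν| < 2 / τ}.Finite := by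
    refine (finite_supp hM (|ν| + 2 / τ)).subset ?_
    rintro z ⟨h2, h3⟩
    refine ⟨h2, ?_⟩
    have := abs_sub_abs_le_abs_sub z.im ν
    linarith
  set F := hFfin.toFinset with hFd
  have hF : ∀ z, z ∈ F ↔ M z ≠ 0 ∧ |z.im - ν| < 2 / τ := by
    intro z
    rw [hFd, Set.Finite.mem_toFinset]
    rfl
  have hFre : ∀ z ∈ F, |z.re| < 1 / 2 := fun z hz => hM.strip z ((hF z).1 hz).1
  have hGne : ∀ z ∈ F, GG τ (z - ν * I) ≠ 0 := by
    intro z hz
    apply GG_ne hτ0
    have := ((hF z).1 hz).2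
    simpa using this
  set h : ℝ := τ / 2 with hh
  have hh0 : 0 < h := by positivity
  have hinj : ∀ z ∈ F, ∀ w ∈ F, cexp (-(2 * z * h)) = cexp (-(2 * w * h)) → z = w := by
    intro z hz w hw hzw
    rw [Complex.exp_eq_exp_iff_exists_int] at hzw
    obtain ⟨n, hn⟩ := hzw
    have hre := congrArg Complex.re hn
    have him := congrArg Complex.im hn
    simp at hre him
    have hre' : z.re = w.re := by
      rcases hre with h2 | h2
      · exact h2
      · exact absurd h2 hh0.ne'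
    have hzi := ((hF z).1 hz).2
    have hwi := ((hF w).1 hw).2
    rw [abs_lt] at hzi hwi
    have h4 : |z.im - w.im| < 4 / τ := by
      have e : (4 : ℝ) / τ = 2 / τ + 2 / τ := by ring
      rw [e, abs_lt]
      constructor <;> linarith [hzi.1, hzi.2, hwi.1, hwi.2]
    have hn0 : n = 0 := by
      by_contra hn0
      have h3 : (1 : ℝ) ≤ |(n : ℝ)| := by
        have : 1 ≤ |n| := Int.one_le_abs hn0
        exact_mod_cast this
      have h5 : |2 * h * (z.im - w.im)| = |(n : ℝ)| * (2 * Real.pi) := by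
        have : 2 * h * (z.im - w.im) = -(n * (2 * Real.pi)) := by linarith
        rw [this, abs_neg, abs_mul, abs_of_pos (show 0 < 2 * Real.pi by positivity)]
      have h6 : |2 * h * (z.im - w.im)| < 4 := by
        rw [abs_mul, abs_of_pos (show 0 < 2 * h by positivity)]
        rw [lt_div_iff₀ hτ0] at h4
        rw [hh]
        linarith
      have := Real.pi_gt_three
      nlinarith
    rw [hn0] at him
    have him' : z.im = w.im := by
      have h5 : 2 * h * (z.im - w.im) = 0 := by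
        push_cast at him
        linarith
      rcases mul_eq_zero.1 h5 with h6 | h6
      · exact absurd h6 (by positivity)
      · linarith
    exact Complex.ext hre' him'
  obtain ⟨c1, hc1, hlow⟩ := lower_all hα0 hαα1 hc0 hτ0 hh0 ν F hFre hGne hinj (fun z => (M z : ℂ))
  set k := F.card with hk
  set ι : ℝ := (α * δ - s) / s with hι
  have hι0 : 0 < ι := div_pos (by linarith) (by linarith)
  have ev1 := untwisted (α := α1) (c := c) (τ := τ) hα10 hcα hτ0 hτ1
  have ev2 := twisted (α := α1) (c := c) (τ := τ) ν hα10 hcα hτ0 hτ1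
  have ev3 := ev_log 1 ι 1 hι0 one_pos (2 * κ)
  have ev4 : ∀ᶠ b : ℝ in atTop, (K + C) * b ^ (s + α * δ) < c1 * b ^ (2 * α * δ) := by
    have h2 := tendsto_rpow_atTop (show 0 < α * δ - s by linarith)
    filter_upwards [h2.eventually_gt_atTop ((K + C) / c1), eventually_gt_atTop (0:ℝ)] with b h3 h4
    rw [div_lt_iff₀ hc1] at h3
    have e : b ^ (2 * α * δ) = b ^ (α * δ - s) * b ^ (s + α * δ) := by
      rw [← Real.rpow_add h4]; congr 1; ring
    rw [e]
    have h5 : 0 < b ^ (s + α * δ) := Real.rpow_pos_of_pos h4 _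
    nlinarith
  have ev5 := Real.tendsto_log_atTop.eventually_ge_atTop (max (max 1 (1 / κ))
    (max (k * h / (α1 - α)) (1 / c)))
  filter_upwards [ev1, ev2, ev3, ev4, ev5, hlow, eventually_ge_atTop (max (max 10 (2 / α))
    (|ν| + 2 / τ))] with b b2 b3 b4 b5 b6 b8 b7
  by_contra hneg
  push Not at hneg
  set L := Real.log b with hL
  have hb10 : 10 ≤ b := (le_max_left _ _).trans ((le_max_left _ _).trans b7)
  have hbα : 2 ≤ b * α := by
    have := (le_max_right _ _).trans ((le_max_left _ _).trans b7)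
    rwa [div_le_iff₀ hα0] at this
  have hbν : |ν| + 2 / τ ≤ b := (le_max_right _ _).trans b7
  have hb0 : 0 < b := by linarith
  have hL1 : 1 ≤ L := (le_max_left _ _).trans ((le_max_left _ _).trans b6)
  have hLκ : 1 ≤ L * κ := by
    have := (le_max_right _ _).trans ((le_max_left _ _).trans b6)
    rwa [div_le_iff₀ hκ] at this
  have hLk : k * h ≤ L * (α1 - α) := by
    have := (le_max_left _ _).trans ((le_max_right _ _).trans b6)
    rwa [div_le_iff₀ (by linarith)] at this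
  have hLc : 1 ≤ L * c := by
    have := (le_max_right _ _).trans ((le_max_right _ _).trans b6)
    rwa [div_le_iff₀ hc0] at this
  set m := ⌈c * L⌉₊ with hm
  have hm1 : c * L ≤ m := Nat.le_ceil _
  have hm2 : (m : ℝ) ≤ c * L + 1 := (Nat.ceil_lt_add_one (by positivity)).le
  obtain ⟨j, hj, hjl⟩ := b8 m hm2
  have hjk : (j : ℝ) ≤ k := by exact_mod_cast hj
  set t : ℝ := α * L + j * h with ht
  have ht0 : 0 ≤ t := by positivity
  have ht1 : t ≤ α1 * L := by
    have : (j : ℝ) * h ≤ k * h := by gcongr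
    rw [ht]; linarith
  set A := ⌊t * b⌋₊ with hA
  set q := ⌊τ * b⌋₊ with hq
  have hPar : Par α1 c τ b A q m := by
    refine ⟨hm1, hm2, ?_, ?_, Nat.floor_le (by positivity)⟩
    · calc (A : ℝ) ≤ t * b := Nat.floor_le (by positivity)
        _ ≤ (α1 * L) * b := by gcongr
        _ = α1 * b * Real.log b := by rw [hL]; ring
    · have := Nat.lt_floor_add_one (τ * b)
      linarith
  set N := A + m * q with hN
  have hA1 : 1 ≤ A := by
    rw [hA, Nat.one_le_floor_iff]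
    have h2 : α * L ≤ t := by
      rw [ht]
      have : 0 ≤ (j : ℝ) * h := by positivity
      linarith
    nlinarith
  have hN1 : 1 ≤ N := by omega
  have hNle : (N : ℝ) ≤ κ * b * L := by
    have h2 : (m : ℝ) * q ≤ (2 * (c * L)) * (τ * b) := by
      have h3 : (m : ℝ) ≤ 2 * (c * L) := by linarith
      exact mul_le_mul h3 hPar.hq2 (by positivity) (by positivity)
    rw [hN]
    push_cast
    calc (A : ℝ) + m * q ≤ α1 * b * L + (2 * (c * L)) * (τ * b) := add_le_add hPar.hA h2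
      _ = (α1 + 2 * (c * τ)) * (b * L) := by ring
      _ ≤ κ * (b * L) := by
          gcongr
          linarith
      _ = _ := by ring
  have hq1 : 1 ≤ q := by
    have h3 := hPar.hq1
    have h2 : 2 / τ ≤ b := by linarith [abs_nonneg ν]
    rw [div_le_iff₀ hτ0] at h2
    have : (1 : ℝ) ≤ q := by linarith
    exact_mod_cast this
  -- the set `S`
  have hSfin := finite_supp hM (N * b)
  set S := hSfin.toFinset with hSd
  have hS : ∀ z, z ∈ S ↔ M z ≠ 0 ∧ |z.im| ≤ N * b := by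
    intro z
    rw [hSd, Set.Finite.mem_toFinset]
    rfl
  have hN1r : (1 : ℝ) ≤ N := by exact_mod_cast hN1
  have hFS : F ⊆ S := by
    intro z hz
    rw [hF] at hz
    rw [hS]
    refine ⟨hz.1, ?_⟩
    have := abs_sub_abs_le_abs_sub z.im ν
    nlinarith [hz.2]
  have hup := hkey b (by linarith) N hN1 (kp A q m) (kp_nn A q m) (kp_one hq1 A m) (kp_deg A q m)
    (fun n hn hn2 => hneg n hn (by
      have : (n : ℝ) ≤ N := by exact_mod_cast hn2
      linarith))
    (fun z hz => b2 A q m hPar z (hM.strip z hz)) (-tw b ν) (by rw [norm_neg, tw_norm hb0]) S hS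
  have hrest : ‖∑ z ∈ S \ F, (M z : ℂ) * aeval (-tw b ν * W b z) (kp A q m)‖ ≤ C * (1 + N * b) ^ s := by
    calc ‖∑ z ∈ S \ F, (M z : ℂ) * aeval (-tw b ν * W b z) (kp A q m)‖
        ≤ ∑ z ∈ S \ F, (1 + N * b) ^ s * (M z / (1 + |z.im|) ^ s) := by
          refine (norm_sum_le _ _).trans (Finset.sum_le_sum fun z hz => ?_)
          rw [Finset.mem_sdiff, hS, hF] at hz
          obtain ⟨⟨h2, h3⟩, h4⟩ := hz
          have h5 : 2 / τ ≤ |z.im - ν| := by
            by_contra h6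
            push Not at h6
            exact h4 ⟨h2, h6⟩
          have h6 := b3 A q m hPar z (hM.strip z h2) h5
          rw [norm_mul, Complex.norm_real, Real.norm_eq_abs, abs_of_nonneg (hM.nn z)]
          have h7 : 1 ≤ (1 + N * b) ^ s / (1 + |z.im|) ^ s := by
            rw [one_le_div (by positivity)]
            exact Real.rpow_le_rpow (by positivity) (by linarith) (by linarith)
          calc M z * ‖aeval (-tw b ν * W b z) (kp A q m)‖ ≤ M z * 1 :=
                mul_le_mul_of_nonneg_left h6 (hM.nn z)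
            _ ≤ M z * ((1 + N * b) ^ s / (1 + |z.im|) ^ s) := mul_le_mul_of_nonneg_left h7 (hM.nn z)
            _ = _ := by ring
      _ = (1 + N * b) ^ s * ∑ z ∈ S \ F, M z / (1 + |z.im|) ^ s := by rw [Finset.mul_sum]
      _ ≤ (1 + N * b) ^ s * C := by gcongr; exact hcnt _
      _ = _ := by ring
  have hsplit := Finset.sum_sdiff (f := fun z => (M z : ℂ) * aeval (-tw b ν * W b z) (kp A q m)) hFS
  have hFle : ‖∑ z ∈ F, (M z : ℂ) * aeval (-tw b ν * W b z) (kp A q m)‖ ≤ (K + C) * (1 + N * b) ^ s := by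
    have e : ∑ z ∈ F, (M z : ℂ) * aeval (-tw b ν * W b z) (kp A q m) =
        ∑ z ∈ S, (M z : ℂ) * aeval (-tw b ν * W b z) (kp A q m) -
        ∑ z ∈ S \ F, (M z : ℂ) * aeval (-tw b ν * W b z) (kp A q m) := by
      rw [← hsplit]; ring
    rw [e]
    refine (norm_sub_le _ _).trans ?_
    linarith
  have hXle : (1 + N * b) ^ s ≤ b ^ (s + α * δ) := by
    have h2 : 1 + N * b ≤ b ^ (2 + ι) := by
      rw [pow_one, one_mul] at b4
      have h3 : 1 ≤ κ * b ^ 2 * L := by nlinarith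
      have h4 : b ^ (2 + ι) = b ^ 2 * b ^ ι := by
        rw [Real.rpow_add hb0, Real.rpow_two]
      rw [h4]
      calc 1 + N * b ≤ κ * b ^ 2 * L + (κ * b * L) * b := by gcongr
        _ = b ^ 2 * (2 * κ * L) := by ring
        _ ≤ b ^ 2 * b ^ ι := by gcongr
    calc (1 + N * b) ^ s ≤ (b ^ (2 + ι)) ^ s := Real.rpow_le_rpow (by positivity) h2 (by linarith)
      _ = b ^ (s + α * δ) := by
          rw [← Real.rpow_mul hb0.le]
          congr 1
          rw [hι]
          field_simp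
          ring
  -- the term of `z1`
  have hz1 : z1 ∈ F := (hF z1).2 ⟨h1, by rw [hν, sub_self, abs_zero]; positivity⟩
  have hterm := hjl z1 hz1
  have hbig : b ^ (2 * α * δ) ≤ ‖(M z1 : ℂ) * (cexp (-(2 * z1 * (α * L : ℝ))) * GG τ (z1 - ν * I) ^ m)‖ := by
    rw [norm_mul, norm_mul, norm_pow, Complex.norm_real, Real.norm_eq_abs, abs_of_nonneg (hM.nn z1),
      Complex.norm_exp]
    have e1 : (-(2 * z1 * ((α * L : ℝ) : ℂ))).re = 2 * α * δ * L := by
      have : -(2 * z1 * ((α * L : ℝ) : ℂ)) = (((2 * α * L : ℝ)) : ℂ) * (-z1) := by push_cast; ring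
      rw [this, Complex.re_ofReal_mul, neg_re, hδ]
      ring
    have e2 : Real.exp (2 * α * δ * L) = b ^ (2 * α * δ) := by
      rw [Real.rpow_def_of_pos hb0, mul_comm]
    rw [e1, e2]
    have h3 : 1 ≤ ‖GG τ (z1 - ν * I)‖ := by
      apply GG_real hτ0 (δ := δ) hδ0
      rw [hν, hδ]
      apply Complex.ext <;> simp
    have h4 : 1 ≤ ‖GG τ (z1 - ν * I)‖ ^ m := one_le_pow₀ h3
    have h5 := hM.one z1 h1
    have h6 : 0 < b ^ (2 * α * δ) := Real.rpow_pos_of_pos hb0 _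
    calc b ^ (2 * α * δ) = 1 * (b ^ (2 * α * δ) * 1) := by ring
      _ ≤ M z1 * (b ^ (2 * α * δ) * ‖GG τ (z1 - ν * I)‖ ^ m) := by gcongr
  have hfinal : c1 * b ^ (2 * α * δ) ≤ (K + C) * b ^ (s + α * δ) := by
    refine le_trans (by gcongr) (hterm.trans (hFle.trans ?_))
    gcongr
  linarith

/-- **the converse theorem** -/
theorem converse (hM : Zs M) {κ : ℝ} (hκ : 0 < κ) {z : ℂ} (h : M z ≠ 0) (hz : 1 < κ * |z.re|) :
    ∀ᶠ b : ℝ in atTop, ∃ n : ℕ, 1 ≤ n ∧ (n : ℝ) ≤ κ * b * Real.log b ∧ li M b n < 0 := by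
  rcases lt_trichotomy z.re 0 with h0 | h0 | h0
  · rw [abs_of_neg h0] at hz
    exact conv_left hM hκ h h0 hz
  · rw [h0, abs_zero, mul_zero] at hz
    linarith
  · rw [abs_of_pos h0] at hz
    exact conv_left hM hκ (z1 := -z) (by rwa [hM.neg]) (by simpa using h0) (by simpa using hz)

end Pool.Agent.N831.LI
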