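import Pool.Agent.N831.LI.Zeta
import Pool.Agent.W190.C3

/-!
# The density hypothesis for zeta, from Carlson's theorem
-/

set_option autoImplicit false

open Complex Filter Topology Finset

namespace Pool.Agent.N831.LI

open H353 (FF mu mu_cast mu_pos mu_conj FF_anal FF_order_ne_top FF_im_ne local_count)

/-- Carlson's theorem for both sides -/
lemma carlson_two (δ ε : ℝ) (h1 : 0 < δ) (h2 : δ < 1 / 2) (hε : 0 < ε) : ∃ C : ℝ, 0 ≤ C ∧
    ∀ T : ℝ, 1 ≤ T → ∀ S : Finset ℂ, (∀ z ∈ S, δ ≤ |z.re| ∧ |z.im| ≤ T) →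
      ∑ z ∈ S, MZ z ≤ C * T ^ (1 - 4 * δ ^ 2 + ε) := by
  classical
  obtain ⟨C, hC, h⟩ := W190.carlson (1 / 2 + δ) ε (by linarith) (by linarith) hε
  have hexp : 4 * (1 / 2 + δ) * (1 - (1 / 2 + δ)) + ε = 1 - 4 * δ ^ 2 + ε := by ring
  rw [hexp] at h
  have key : ∀ T : ℝ, 1 ≤ T → ∀ S : Finset ℂ, (∀ z ∈ S, δ ≤ z.re ∧ |z.im| ≤ T) →
      ∑ z ∈ S, MZ z ≤ C * T ^ (1 - 4 * δ ^ 2 + ε) := by
    intro T hT S hS
    have h3 := h T hT ((S.filter (fun z => MZ z ≠ 0)).image (fun z => 1 / 2 + z)) (by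
      intro ρ hρ
      simp only [Finset.mem_image, Finset.mem_filter] at hρ
      obtain ⟨z, ⟨hz, hz0⟩, rfl⟩ := hρ
      obtain ⟨a1, a2⟩ := hS z hz
      refine ⟨MZ_zero hz0, by simpa using a1, by simpa using a2⟩)
    rw [Finset.sum_image (fun a _ b _ hab => by simpa using hab)] at h3
    have h4 : ∑ z ∈ S, MZ z = ∑ z ∈ S.filter (fun z => MZ z ≠ 0), (mu (1 / 2 + z) : ℝ) := by
      rw [Finset.sum_filter]
      refine Finset.sum_congr rfl fun z _ => ?_
      by_cases h : MZ z = 0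
      · rw [if_neg (by simpa using h), h]
      · rw [if_pos h, MZ_eq (MZ_strip h)]
    rw [h4]
    exact h3
  refine ⟨2 * C, by positivity, fun T hT S hS => ?_⟩
  rw [← Finset.sum_filter_add_sum_filter_not S (fun z => 0 ≤ z.re)]
  have g1 := key T hT (S.filter (fun z => 0 ≤ z.re)) (by
    intro z hz
    rw [Finset.mem_filter] at hz
    obtain ⟨a1, a2⟩ := hS z hz.1
    rw [abs_of_nonneg hz.2] at a1
    exact ⟨a1, a2⟩)
  have g2 := key T hT ((S.filter (fun z => ¬ 0 ≤ z.re)).image (fun z => -z)) (by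
    intro z hz
    simp only [Finset.mem_image, Finset.mem_filter, not_le] at hz
    obtain ⟨w, ⟨hw, hw0⟩, rfl⟩ := hz
    obtain ⟨a1, a2⟩ := hS w hw
    rw [abs_of_neg hw0] at a1
    rw [Complex.neg_re, Complex.neg_im, abs_neg]
    exact ⟨a1, a2⟩)
  rw [Finset.sum_image (fun a _ b _ hab => neg_injective hab)] at g2
  simp only [MZ_neg] at g2
  linarith

theorem dn_of {κ : ℝ} (hκ : 0 < κ) {δ0 : ℝ} (h0 : 0 ≤ δ0) (hz : ∀ z, MZ z ≠ 0 → |z.re| ≤ δ0)
    (h : ∀ δ : ℝ, 0 ≤ δ → δ ≤ δ0 → 2 * κ * δ < 1 + 4 * δ ^ 2) : Dn MZ κ := by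
  classical
  -- the minimum
  obtain ⟨x, hx, hmin⟩ := isCompact_Icc.exists_isMinOn (s := Set.Icc 0 δ0) (f := fun δ : ℝ => 1 + 4 * δ ^ 2 - 2 * κ * δ)
    ⟨0, le_rfl, h0⟩ (by fun_prop)
  set m0 : ℝ := 1 + 4 * x ^ 2 - 2 * κ * x with hm0
  have hm0p : 0 < m0 := by
    have := h x hx.1 hx.2
    rw [hm0]; linarith
  have hmin' : ∀ δ, 0 ≤ δ → δ ≤ δ0 → m0 ≤ 1 + 4 * δ ^ 2 - 2 * κ * δ := fun δ h1 h2 =>
    hmin (⟨h1, h2⟩ : δ ∈ Set.Icc 0 δ0)
  set η : ℝ := m0 / 4 with hη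
  have hη0 : 0 < η := by rw [hη]; linarith
  obtain ⟨J, hJ⟩ := exists_nat_gt (max 1 (κ / η))
  have hJ1 : (1 : ℝ) < J := (le_max_left _ _).trans_lt hJ
  have hJκ : κ / η < J := (le_max_right _ _).trans_lt hJ
  set μ : ℝ := 1 / (2 * J) with hμ
  have hμ0 : 0 < μ := by positivity
  have hκμ : 2 * κ * μ ≤ η := by
    rw [div_lt_iff₀ hη0] at hJκ
    rw [hμ]
    have : 2 * κ * (1 / (2 * J)) = κ / J := by field_simp
    rw [this, div_le_iff₀ (by linarith)]
    linarith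
  have hJμ : J * μ = 1 / 2 := by rw [hμ]; field_simp
  -- each layer
  have hlayer : ∀ j : ℕ, ∃ C : ℝ, 0 ≤ C ∧ ∀ T : ℝ, 1 ≤ T → ∀ S : Finset ℂ,
      (∀ z ∈ S, |z.im| ≤ T ∧ j * μ ≤ |z.re| ∧ |z.re| < (j + 1) * μ) →
      ∑ z ∈ S, MZ z * T ^ (2 * κ * |z.re|) ≤ C * T ^ (2 - η) := by
    intro j
    by_cases hj : (j : ℝ) * μ ≤ δ0 ∧ (j : ℝ) * μ < 1 / 2
    swap
    · refine ⟨0, le_rfl, fun T hT S hS => ?_⟩
      rw [zero_mul]
      refine (Finset.sum_eq_zero fun z hz1 => ?_).le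
      by_cases h3 : MZ z = 0
      · rw [h3, zero_mul]
      · exfalso
        apply hj
        have := hS z hz1
        exact ⟨this.2.1.trans (hz z h3), this.2.1.trans_lt (MZ_strip h3)⟩
    obtain ⟨hj1, hj2⟩ := hj
    have hjμ0 : (0:ℝ) ≤ j * μ := by positivity
    have hf := hmin' (j * μ) hjμ0 hj1
    -- the count
    have hcount : ∃ C : ℝ, 0 ≤ C ∧ ∀ T : ℝ, 1 ≤ T → ∀ S : Finset ℂ,
        (∀ z ∈ S, |z.im| ≤ T ∧ j * μ ≤ |z.re|) → ∑ z ∈ S, MZ z ≤ C * T ^ (1 - 4 * (j * μ) ^ 2 + η) := by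
      rcases Nat.eq_zero_or_pos j with hj0 | hj0
      · obtain ⟨C, hC, hc⟩ := MZ_cnt (1 + η) (by linarith)
        refine ⟨C * 2 ^ (1 + η), by positivity, fun T hT S hS => ?_⟩
        have e : (1 - 4 * ((j : ℝ) * μ) ^ 2 + η) = 1 + η := by rw [hj0]; push_cast; ring
        rw [e]
        calc ∑ z ∈ S, MZ z ≤ ∑ z ∈ S, (2 * T) ^ (1 + η) * (MZ z / (1 + |z.im|) ^ (1 + η)) := by
              refine Finset.sum_le_sum fun z hz1 => ?_
              have h3 := (hS z hz1).1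
              have h4 : 1 ≤ (2 * T) ^ (1 + η) / (1 + |z.im|) ^ (1 + η) := by
                rw [one_le_div (by positivity)]
                exact Real.rpow_le_rpow (by positivity) (by linarith) (by linarith)
              calc MZ z ≤ MZ z * ((2 * T) ^ (1 + η) / (1 + |z.im|) ^ (1 + η)) :=
                    le_mul_of_one_le_right (MZ_nn z) h4
                _ = _ := by ring
          _ = (2 * T) ^ (1 + η) * ∑ z ∈ S, MZ z / (1 + |z.im|) ^ (1 + η) := by rw [Finset.mul_sum]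
          _ ≤ (2 * T) ^ (1 + η) * C := by gcongr; exact hc S
          _ = C * 2 ^ (1 + η) * T ^ (1 + η) := by
              rw [Real.mul_rpow (by norm_num) (by linarith)]; ring
      · have hjr : (1 : ℝ) ≤ j := by exact_mod_cast hj0
        obtain ⟨C, hC, hc⟩ := carlson_two (j * μ) η (by positivity) hj2 hη0
        exact ⟨C, hC, fun T hT S hS => hc T hT S fun z hz1 => ⟨(hS z hz1).2, (hS z hz1).1⟩⟩
    obtain ⟨C, hC, hc⟩ := hcount
    refine ⟨C, hC, fun T hT S hS => ?_⟩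
    have hT0 : 0 < T := by linarith
    calc ∑ z ∈ S, MZ z * T ^ (2 * κ * |z.re|) ≤ ∑ z ∈ S, MZ z * T ^ (2 * κ * (j * μ) + η) := by
          refine Finset.sum_le_sum fun z hz1 => ?_
          have h3 := (hS z hz1).2.2
          apply mul_le_mul_of_nonneg_left _ (MZ_nn z)
          apply Real.rpow_le_rpow_of_exponent_le hT
          nlinarith
      _ = (∑ z ∈ S, MZ z) * T ^ (2 * κ * (j * μ) + η) := by rw [Finset.sum_mul]
      _ ≤ (C * T ^ (1 - 4 * (j * μ) ^ 2 + η)) * T ^ (2 * κ * (j * μ) + η) := by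
          gcongr
          exact hc T hT S fun z hz1 => ⟨(hS z hz1).1, (hS z hz1).2.1⟩
      _ = C * T ^ ((1 - 4 * (j * μ) ^ 2 + η) + (2 * κ * (j * μ) + η)) := by
          rw [mul_assoc, ← Real.rpow_add hT0]
      _ ≤ C * T ^ (2 - η) := by
          gcongr
          linarith
  choose Cj hCj0 hCj using hlayer
  refine ⟨η, hη0, ∑ j ∈ range J, Cj j, Finset.sum_nonneg fun j _ => hCj0 j, fun T hT S hS => ?_⟩
  have hT0 : 0 < T := by linarith
  -- restrict to the support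
  have hsupp : ∑ z ∈ S, MZ z * T ^ (2 * κ * |z.re|) =
      ∑ z ∈ S.filter (fun z => MZ z ≠ 0), MZ z * T ^ (2 * κ * |z.re|) := by
    rw [Finset.sum_filter]
    refine Finset.sum_congr rfl fun z _ => ?_
    by_cases h3 : MZ z = 0
    · rw [if_neg (by simpa using h3), h3, zero_mul]
    · rw [if_pos h3]
  rw [hsupp]
  rw [← Finset.sum_fiberwise_of_maps_to (s := S.filter (fun z => MZ z ≠ 0)) (t := range J)
    (g := fun z => ⌊|z.re| / μ⌋₊) (fun z hz1 => by
      rw [Finset.mem_filter] at hz1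
      rw [Finset.mem_range, Nat.floor_lt (by positivity), div_lt_iff₀ hμ0, hJμ]
      exact MZ_strip hz1.2)]
  rw [Finset.sum_mul]
  refine Finset.sum_le_sum fun j _ => ?_
  refine hCj j T hT _ fun z hz1 => ?_
  rw [Finset.mem_filter, Finset.mem_filter] at hz1
  have h3 : (j : ℝ) ≤ |z.re| / μ := by
    rw [← hz1.2]
    exact Nat.floor_le (by positivity)
  have h4 : |z.re| / μ < j + 1 := by
    rw [← hz1.2]
    exact Nat.lt_floor_add_one _
  rw [le_div_iff₀ hμ0] at h3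
  rw [div_lt_iff₀ hμ0] at h4
  exact ⟨hS z hz1.1.1, h3, h4⟩

/-- unconditional -/
theorem dn_uncond {κ : ℝ} (hκ : 0 < κ) (h2 : κ < 2) : Dn MZ κ := by
  refine dn_of hκ (δ0 := 1 / 2) (by norm_num) (fun z h => (MZ_strip h).le) fun δ h0 h1 => ?_
  rcases h0.lt_or_eq with h | h
  · nlinarith [sq_nonneg (1 - 2 * δ)]
  · rw [← h]; norm_num

/-- with a zero-free half plane -/
theorem dn_quasi {κ θ : ℝ} (hκ : 0 < κ) (hθ : 1 / 2 < θ) (hθ1 : θ ≤ 1)
    (hz : ∀ s : ℂ, θ < s.re → riemannZeta s ≠ 0) (h : κ < 1 / (2 * θ - 1) + (2 * θ - 1)) : Dn MZ κ := by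
  set d : ℝ := 2 * θ - 1 with hd
  have hd0 : 0 < d := by linarith
  have hd1 : d ≤ 1 := by linarith
  have hzr : ∀ z, MZ z ≠ 0 → |z.re| ≤ d / 2 := by
    have key : ∀ z, MZ z ≠ 0 → z.re ≤ d / 2 := by
      intro z h3
      by_contra h4
      push Not at h4
      obtain ⟨h5, h6⟩ := MZ_ne_iff.1 h3
      refine hz _ ?_ h6
      simp only [add_re, one_div]
      norm_num
      linarith
    intro z h3
    rw [abs_le]
    constructor
    · have := key (-z) (by rwa [MZ_neg])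
      rw [Complex.neg_re] at this
      linarith
    · exact key z h3
  refine dn_of hκ (δ0 := d / 2) (by linarith) hzr fun δ h0 h1 => ?_
  rcases h0.lt_or_eq with h5 | h5
  · -- `κ < 1/d + d ≤ 1/(2δ) + 2δ`
    have h6 : 1 / d + d ≤ 1 / (2 * δ) + 2 * δ := by
      have h7 : 0 < 2 * δ := by linarith
      have h8 : 2 * δ ≤ d := by linarith
      have e : 1 / (2 * δ) + 2 * δ - (1 / d + d) = (d - 2 * δ) * (1 - d * (2 * δ)) / (d * (2 * δ)) := by
        field_simp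
        ring
      have h9 : 0 ≤ (d - 2 * δ) * (1 - d * (2 * δ)) / (d * (2 * δ)) := by
        apply div_nonneg _ (by positivity)
        apply mul_nonneg (by linarith)
        nlinarith
      linarith
    have h7 : κ < 1 / (2 * δ) + 2 * δ := by linarith
    have h8 : κ * (2 * δ) < (1 / (2 * δ) + 2 * δ) * (2 * δ) := mul_lt_mul_of_pos_right h7 (by linarith)
    have e : (1 / (2 * δ) + 2 * δ) * (2 * δ) = 1 + 4 * δ ^ 2 := by
      field_simp
      ring
    linarith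
  · rw [← h5]; norm_num

end Pool.Agent.N831.LI
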