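import Pool.Agent.N831.LI.Conv
import Pool.Agent.N831.LI.Dens

/-!
# The theorem for zeta
-/

set_option autoImplicit false

open Complex Filter Topology Finset

namespace Pool.Agent.N831.LI

lemma tendsto_sub_half : Tendsto (fun a : ℝ => a - 1 / 2) atTop atTop := by
  have := tendsto_atTop_add_const_right atTop (-(1 / 2) : ℝ) tendsto_id
  simpa [sub_eq_add_neg] using this

/-- from `b` to `a` -/
theorem pos_of_dn {κ : ℝ} (hκ : 0 < κ) {κ' : ℝ} (hκ' : κ < κ') (hD : Dn MZ κ') :
    ∃ c : ℝ, 0 < c ∧ ∀ᶠ a : ℝ in atTop, ∀ n : ℕ, 1 ≤ n → (n : ℝ) ≤ κ * a * Real.log a →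
      c * n * a * Real.log a ≤ li MZ (a - 1 / 2) n := by
  obtain ⟨c, hc, h⟩ := direct zsZeta (by linarith) hD
  refine ⟨c / 4, by positivity, ?_⟩
  have h1 := tendsto_sub_half.eventually h
  -- `a log a ≤ (κ'/κ) b log b`
  have h2 : ∀ᶠ a : ℝ in atTop, κ * a * Real.log a ≤ κ' * (a - 1 / 2) * Real.log (a - 1 / 2) := by
    have hlog : ∀ᶠ a : ℝ in atTop, Real.log a - 1 / a ≤ Real.log (a - 1 / 2) := by
      filter_upwards [eventually_ge_atTop (2 : ℝ)] with a ha
      have h3 := Real.one_sub_inv_le_log_of_pos (show 0 < (a - 1 / 2) / a by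
        apply div_pos <;> linarith)
      rw [Real.log_div (by linarith) (by linarith), inv_div] at h3
      have h4 : 1 - a / (a - 1 / 2) ≥ -(1 / a) := by
        have : a / (a - 1 / 2) = 1 + (1 / 2) / (a - 1 / 2) := by
          have h5 : a - 1 / 2 ≠ 0 := by linarith
          rw [div_eq_iff h5, add_mul, one_mul, div_mul_cancel₀ _ h5]
          ring
        rw [this]
        have h6 : (1 / 2) / (a - 1 / 2) ≤ 1 / a := by
          rw [div_le_div_iff₀ (by linarith) (by linarith)]
          linarith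
        linarith
      linarith
    set r : ℝ := κ' / κ with hr
    have hr1 : 1 < r := by rw [hr, one_lt_div hκ]; exact hκ'
    have hl := Real.tendsto_log_atTop.eventually_ge_atTop (2 * (1 + r) / (r - 1))
    filter_upwards [hlog, hl, eventually_ge_atTop (max 2 (r / (r - 1)))] with a h3 h4 h5
    have ha2 : 2 ≤ a := (le_max_left _ _).trans h5
    have ha3 := (le_max_right _ _).trans h5
    rw [div_le_iff₀ (by linarith)] at h4 ha3
    have hLa : 0 ≤ Real.log a := Real.log_nonneg (by linarith)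
    have e : κ' = r * κ := by rw [hr]; field_simp
    rw [e]
    have h6 : a * Real.log a ≤ r * (a - 1 / 2) * (Real.log a - 1 / a) := by
      have h7 : r * (a - 1 / 2) * (Real.log a - 1 / a) =
          r * a * Real.log a - r / 2 * Real.log a - r + r / (2 * a) := by
        field_simp
        ring
      rw [h7]
      have h8 : 0 ≤ r / (2 * a) := by positivity
      -- `(r - 1) a log a ≥ r/2 log a + r`
      nlinarith
    have h9 : 0 ≤ r * (a - 1 / 2) := by
      apply mul_nonneg <;> linarith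
    calc κ * a * Real.log a = κ * (a * Real.log a) := by ring
      _ ≤ κ * (r * (a - 1 / 2) * (Real.log a - 1 / a)) := by gcongr
      _ ≤ κ * (r * (a - 1 / 2) * Real.log (a - 1 / 2)) := by gcongr
      _ = r * κ * (a - 1 / 2) * Real.log (a - 1 / 2) := by ring
  have h3 : ∀ᶠ a : ℝ in atTop, a * Real.log a ≤ 4 * ((a - 1 / 2) * Real.log (a - 1 / 2)) := by
    filter_upwards [eventually_ge_atTop (4 : ℝ)] with a ha
    have h4 : a / 2 ≤ a - 1 / 2 := by linarith
    have h5 : Real.log a / 2 ≤ Real.log (a - 1 / 2) := by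
      have h6 : Real.log a / 2 = Real.log (Real.sqrt a) := by rw [Real.log_sqrt (by linarith)]
      rw [h6]
      apply Real.log_le_log (Real.sqrt_pos.2 (by linarith))
      rw [Real.sqrt_le_left (by linarith)]
      nlinarith
    have hLa : 0 ≤ Real.log a := Real.log_nonneg (by linarith)
    have h6 : 0 ≤ a - 1 / 2 := by linarith
    calc a * Real.log a = 4 * ((a / 2) * (Real.log a / 2)) := by ring
      _ ≤ _ := by gcongr
  filter_upwards [h1, h2, h3, eventually_ge_atTop (2 : ℝ)] with a k1 k2 k3 ha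
  intro n hn hnk
  refine le_trans ?_ (k1 n hn (hnk.trans k2))
  calc c / 4 * n * a * Real.log a = c / 4 * n * (a * Real.log a) := by ring
    _ ≤ c / 4 * n * (4 * ((a - 1 / 2) * Real.log (a - 1 / 2))) := by gcongr
    _ = _ := by ring

/-- failure of positivity -/
theorem neg_of_zero {κ : ℝ} (hκ : 0 < κ) {s : ℂ} (hs : riemannZeta s = 0) (hre : 1 / 2 + 1 / κ < s.re) :
    ∀ᶠ a : ℝ in atTop, ∃ n : ℕ, 1 ≤ n ∧ (n : ℝ) ≤ κ * a * Real.log a ∧ li MZ (a - 1 / 2) n < 0 := by
  have hκ1 : 0 < 1 / κ := by positivity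
  have hs1 : s.re < 1 := by
    by_contra h
    push Not at h
    exact riemannZeta_ne_zero_of_one_le_re h hs
  set z : ℂ := s - 1 / 2 with hz
  have hzre : z.re = s.re - 1 / 2 := by rw [hz]; simp
  have hM : MZ z ≠ 0 := by
    rw [MZ_ne_iff, hzre]
    constructor
    · rw [abs_lt]; constructor <;> linarith
    · rw [hz]
      have : (1 / 2 : ℂ) + (s - 1 / 2) = s := by ring
      rw [this]; exact hs
  have h1 : 1 < κ * |z.re| := by
    have h2 : 1 / κ < |z.re| := by
      rw [hzre]
      exact (by linarith : 1 / κ < s.re - 1 / 2).trans_le (le_abs_self _)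
    rw [div_lt_iff₀ hκ] at h2
    linarith
  have h2 := tendsto_sub_half.eventually (converse zsZeta hκ hM h1)
  filter_upwards [h2, eventually_ge_atTop (2 : ℝ)] with a ⟨n, hn, hnk, hneg⟩ ha
  refine ⟨n, hn, hnk.trans ?_, hneg⟩
  have h3 : Real.log (a - 1 / 2) ≤ Real.log a := Real.log_le_log (by linarith) (by linarith)
  have h4 : 0 ≤ Real.log (a - 1 / 2) := Real.log_nonneg (by linarith)
  have h5 : a - 1 / 2 ≤ a := by linarith
  gcongr

end Pool.Agent.N831.LI
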