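import Pool.Agent.N831.LI.Key

/-!
# The converse: the kernel polynomials
-/

set_option autoImplicit false

open Complex Filter Topology Finset Polynomial

namespace Pool.Agent.N831.LI

/-- polynomials with nonnegative coefficients -/
def NNc (p : ℝ[X]) : Prop := ∀ n, 0 ≤ p.coeff n

lemma NNc.mul {p q : ℝ[X]} (hp : NNc p) (hq : NNc q) : NNc (p * q) := by
  intro n
  rw [Polynomial.coeff_mul]
  exact Finset.sum_nonneg fun x _ => mul_nonneg (hp _) (hq _)

lemma NNc.pow {p : ℝ[X]} (hp : NNc p) (k : ℕ) : NNc (p ^ k) := by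
  induction k with
  | zero =>
    intro n
    rw [pow_zero, Polynomial.coeff_one]
    split_ifs <;> norm_num
  | succ k ih =>
    rw [pow_succ]
    exact ih.mul hp

/-- the normalised Dirichlet kernel -/
noncomputable def dk (q : ℕ) : ℝ[X] := C ((q : ℝ)⁻¹) * ∑ j ∈ range q, X ^ j

/-- the kernel -/
noncomputable def kp (A q m : ℕ) : ℝ[X] := X ^ A * dk q ^ m

lemma dk_nn (q : ℕ) : NNc (dk q) := by
  intro n
  unfold dk
  rw [Polynomial.coeff_C_mul, Polynomial.finset_sum_coeff]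
  refine mul_nonneg (by positivity) (Finset.sum_nonneg fun j _ => ?_)
  rw [Polynomial.coeff_X_pow]
  split_ifs <;> norm_num

lemma kp_nn (A q m : ℕ) : NNc (kp A q m) := by
  refine NNc.mul ?_ ((dk_nn q).pow m)
  intro n
  rw [Polynomial.coeff_X_pow]
  split_ifs <;> norm_num

lemma dk_one {q : ℕ} (hq : 1 ≤ q) : (dk q).eval 1 = 1 := by
  unfold dk
  rw [Polynomial.eval_mul, Polynomial.eval_C, Polynomial.eval_finset_sum]
  have : (q : ℝ) ≠ 0 := by
    have : (1 : ℝ) ≤ q := by exact_mod_cast hq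
    linarith
  simp [this]

lemma kp_one {q : ℕ} (hq : 1 ≤ q) (A m : ℕ) : (kp A q m).eval 1 = 1 := by
  unfold kp
  rw [Polynomial.eval_mul, Polynomial.eval_pow, Polynomial.eval_pow, dk_one hq]
  simp

lemma dk_deg (q : ℕ) : (dk q).natDegree ≤ q := by
  unfold dk
  refine (Polynomial.natDegree_C_mul_le _ _).trans ?_
  refine Polynomial.natDegree_sum_le_of_forall_le _ _ fun j hj => ?_
  rw [Polynomial.natDegree_X_pow]
  exact (Finset.mem_range.1 hj).le

lemma kp_deg (A q m : ℕ) : (kp A q m).natDegree ≤ A + m * q := by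
  unfold kp
  refine Polynomial.natDegree_mul_le.trans ?_
  rw [Polynomial.natDegree_X_pow]
  refine Nat.add_le_add_left (Polynomial.natDegree_pow_le.trans ?_) _
  exact Nat.mul_le_mul_left _ (dk_deg q)

/-- the value of the Dirichlet kernel -/
noncomputable def dv (q : ℕ) (x : ℂ) : ℂ := aeval x (dk q)

lemma dv_eq (q : ℕ) (x : ℂ) : dv q x = (q : ℂ)⁻¹ * ∑ j ∈ range q, x ^ j := by
  unfold dv dk
  simp

lemma kp_aeval (A q m : ℕ) (x : ℂ) : aeval x (kp A q m) = x ^ A * dv q x ^ m := by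
  unfold kp dv
  simp

lemma dv_geom {q : ℕ} {x : ℂ} (hx : x ≠ 1) : dv q x = (1 - x ^ q) / (q * (1 - x)) := by
  have h1 : (1 : ℂ) - x ≠ 0 := sub_ne_zero.2 (Ne.symm hx)
  have h2 : x - 1 ≠ 0 := sub_ne_zero.2 hx
  rw [dv_eq, geom_sum_eq hx, inv_mul_eq_div, div_div]
  rw [show (1 : ℂ) - x ^ q = -(x ^ q - 1) by ring, show (q : ℂ) * (1 - x) = -((x - 1) * q) by ring,
    neg_div_neg_eq]

lemma dv_one {q : ℕ} (hq : 1 ≤ q) : dv q 1 = 1 := by
  rw [dv_eq]
  have : (q : ℂ) ≠ 0 := by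
    have : (1 : ℝ) ≤ q := by exact_mod_cast hq
    exact_mod_cast (show (q : ℝ) ≠ 0 by linarith)
  simp [this]

/-- the twist -/
noncomputable def tw (b ν : ℝ) : ℂ := (b + ν * I) / (b - ν * I)

lemma tw_den {b ν : ℝ} (hb : 0 < b) : (b : ℂ) - ν * I ≠ 0 := by
  intro h
  have := congrArg Complex.re h
  simp at this
  linarith

lemma tw_num {b ν : ℝ} (hb : 0 < b) : (b : ℂ) + ν * I ≠ 0 := by
  intro h
  have := congrArg Complex.re h
  simp at this
  linarith

lemma tw_norm {b ν : ℝ} (hb : 0 < b) : ‖tw b ν‖ = 1 := by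
  unfold tw
  rw [norm_div]
  have : ‖(b : ℂ) + ν * I‖ = ‖(b : ℂ) - ν * I‖ := by
    rw [← Complex.norm_conj ((b : ℂ) - ν * I)]
    congr 1
    simp
  rw [this]
  exact div_self (norm_ne_zero_iff.2 (tw_den hb))

/-- the twisted variable -/
lemma one_sub_tw {b ν : ℝ} (hb : 1 / 2 < b) {z : ℂ} (hz : |z.re| < 1 / 2) :
    1 - (-tw b ν) * W b z = 2 * b * (z - ν * I) / ((b - ν * I) * (z + b)) := by
  unfold tw W
  have h1 := tw_den (b := b) (ν := ν) (by linarith)
  have h2 := add_ne hb hz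
  field_simp
  ring

lemma one_sub_W {b : ℝ} (hb : 1 / 2 < b) {z : ℂ} (hz : |z.re| < 1 / 2) :
    1 - W b z = 2 * b / (z + b) := by
  unfold W
  have h2 := add_ne hb hz
  field_simp
  ring

end Pool.Agent.N831.LI
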