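import Pool.Agent.N831.LI.Sum

/-!
# The converse: the inequality for polynomials with nonnegative coefficients
-/

set_option autoImplicit false

open Complex Filter Topology Finset Polynomial

namespace Pool.Agent.N831.LI

variable {M : ℂ → ℝ}

lemma hasSum_tail {f : ℂ → ℂ} {E : ℂ} (hf : HasSum f E) (S : Finset ℂ) {Q : ℝ}
    (hQ : ∀ T : Finset ℂ, Disjoint T S → ∑ z ∈ T, ‖f z‖ ≤ Q) : ‖E - ∑ z ∈ S, f z‖ ≤ Q := by
  classical
  have h1 : Tendsto (fun T : Finset ℂ => ‖∑ z ∈ T, f z - ∑ z ∈ S, f z‖) atTop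
      (𝓝 ‖E - ∑ z ∈ S, f z‖) := (hf.sub_const _).norm
  refine le_of_tendsto h1 ?_
  filter_upwards [eventually_ge_atTop S] with T hT
  rw [← Finset.sum_sdiff hT, add_sub_cancel_right]
  exact (norm_sum_le _ _).trans (hQ _ Finset.sdiff_disjoint)

lemma li_zero (b : ℝ) : li M b 0 = 0 := by
  unfold li
  simp

lemma finite_supp (hM : Zs M) (Y : ℝ) : {z : ℂ | M z ≠ 0 ∧ |z.im| ≤ Y}.Finite := by
  obtain ⟨C, hC, h⟩ := hM.cnt 2 (by norm_num)
  by_contra hinf
  have hinf : {z : ℂ | M z ≠ 0 ∧ |z.im| ≤ Y}.Infinite := hinf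
  obtain ⟨n, hn⟩ := exists_nat_gt (C * (1 + |Y|) ^ (2 : ℝ))
  obtain ⟨t, ht, hcard⟩ := hinf.exists_subset_card_eq n
  have h1 := h t
  have hY : 0 < (1 + |Y|) ^ (2 : ℝ) := by positivity
  have h2 : (n : ℝ) * (1 / (1 + |Y|) ^ (2 : ℝ)) ≤ ∑ z ∈ t, M z / (1 + |z.im|) ^ (2 : ℝ) := by
    rw [← hcard, ← nsmul_eq_mul]
    refine Finset.card_nsmul_le_sum _ _ _ fun z hz => ?_
    have h3 := ht hz
    have h4 := hM.one z h3.1
    have h5 : |z.im| ≤ |Y| := h3.2.trans (le_abs_self Y)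
    apply div_le_div₀ (by linarith) h4 (by positivity)
    exact Real.rpow_le_rpow (by positivity) (by linarith) (by norm_num)
  have h6 := h2.trans h1
  rw [mul_one_div, div_le_iff₀ hY] at h6
  linarith

lemma aeval_sum {p : ℝ[X]} {N : ℕ} (hN : p.natDegree ≤ N) (x : ℂ) :
    aeval x p = ∑ n ∈ range (N + 1), (p.coeff n : ℂ) * x ^ n := by
  rw [Polynomial.aeval_eq_sum_range' (Nat.lt_succ_of_le hN)]
  refine Finset.sum_congr rfl fun n _ => ?_
  rw [Complex.real_smul]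

lemma coeff_sum {p : ℝ[X]} {N : ℕ} (hN : p.natDegree ≤ N) (h1 : p.eval 1 = 1) :
    ∑ n ∈ range (N + 1), p.coeff n = 1 := by
  have := Polynomial.eval_eq_sum_range' (Nat.lt_succ_of_le hN) (1 : ℝ)
  rw [h1] at this
  simpa using this.symm

/-- the majorant -/
lemma beta_low {s X y : ℝ} (hs : 1 < s) (_ : 1 ≤ X) (hy : |y| ≤ X) :
    3 ≤ 160 * ((1 + X) / (1 + |y|)) ^ s := by
  have h1 : 1 ≤ (1 + X) / (1 + |y|) := by
    rw [one_le_div (by positivity)]; linarith
  have h2 := Real.one_le_rpow h1 (show 0 ≤ s by linarith)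
  linarith

lemma beta_high {s X y : ℝ} (hs : 1 < s) (hs2 : s ≤ 2) (hX : 1 ≤ X) (hy : X ≤ |y|) :
    40 * (X / |y|) ^ 2 ≤ 160 * ((1 + X) / (1 + |y|)) ^ s := by
  have hy0 : 0 < |y| := by linarith
  have h1 : X / |y| ≤ 1 := (div_le_one hy0).2 hy
  have h2 : 0 < X / |y| := by positivity
  have h3 : (X / |y|) ^ 2 ≤ (X / |y|) ^ s := by
    rw [← Real.rpow_two]
    exact Real.rpow_le_rpow_of_exponent_ge h2 h1 hs2
  have h4 : X / |y| ≤ 2 * ((1 + X) / (1 + |y|)) := by
    rw [div_le_iff₀ hy0]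
    have : 2 * ((1 + X) / (1 + |y|)) * |y| = 2 * (1 + X) * |y| / (1 + |y|) := by ring
    rw [this, le_div_iff₀ (by positivity)]
    nlinarith
  have h5 : (X / |y|) ^ s ≤ (2 * ((1 + X) / (1 + |y|))) ^ s :=
    Real.rpow_le_rpow h2.le h4 (by linarith)
  rw [Real.mul_rpow (by norm_num) (by positivity)] at h5
  have h6 : (2 : ℝ) ^ s ≤ 4 := by
    have := Real.rpow_le_rpow_of_exponent_le (show (1:ℝ) ≤ 2 by norm_num) hs2
    norm_num at this
    exact this
  have h7 : 0 ≤ ((1 + X) / (1 + |y|)) ^ s := by positivity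
  nlinarith

lemma norm_aeval_le {p : ℝ[X]} {N : ℕ} (hp0 : ∀ n, 0 ≤ p.coeff n) (hN : p.natDegree ≤ N)
    (h1 : p.eval 1 = 1) {x : ℂ} {R : ℝ} (hR : ∀ n ≤ N, ‖x‖ ^ n ≤ R) : ‖aeval x p‖ ≤ R := by
  rw [aeval_sum hN]
  calc ‖∑ n ∈ range (N + 1), (p.coeff n : ℂ) * x ^ n‖ ≤ ∑ n ∈ range (N + 1), ‖(p.coeff n : ℂ) * x ^ n‖ :=
        norm_sum_le _ _
    _ ≤ ∑ n ∈ range (N + 1), p.coeff n * R := by
        refine Finset.sum_le_sum fun n hn => ?_
        rw [norm_mul, norm_pow, Complex.norm_real, Real.norm_eq_abs, abs_of_nonneg (hp0 n)]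
        exact mul_le_mul_of_nonneg_left (hR n (by simpa [Nat.lt_succ_iff] using hn)) (hp0 n)
    _ = R := by rw [← Finset.sum_mul, coeff_sum hN h1, one_mul]

theorem key (hM : Zs M) {s : ℝ} (hs : 1 < s) (hs2 : s ≤ 2) : ∃ K : ℝ, 0 ≤ K ∧
    ∀ (b : ℝ), 1 ≤ b → ∀ N : ℕ, 1 ≤ N → ∀ p : ℝ[X], (∀ n, 0 ≤ p.coeff n) → p.eval 1 = 1 →
      p.natDegree ≤ N → (∀ n : ℕ, 1 ≤ n → n ≤ N → 0 ≤ li M b n) →
      (∀ z, M z ≠ 0 → ‖aeval (W b z) p‖ ≤ 2) → ∀ σ : ℂ, ‖σ‖ = 1 → ∀ S : Finset ℂ,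
      (∀ z, z ∈ S ↔ M z ≠ 0 ∧ |z.im| ≤ N * b) →
      ‖∑ z ∈ S, (M z : ℂ) * aeval (σ * W b z) p‖ ≤ K * (1 + N * b) ^ s := by
  classical
  obtain ⟨C, hC, hc⟩ := hM.cnt s hs
  refine ⟨480 * C, by positivity, ?_⟩
  intro b hb N hN p hp0 hp1 hpN hli hpw σ hσ S hS
  have hN1 : (1 : ℝ) ≤ N := by exact_mod_cast hN
  set X : ℝ := N * b with hX
  have hX1 : 1 ≤ X := by rw [hX]; nlinarith
  set β : ℂ → ℝ := fun z => 160 * ((1 + X) / (1 + |z.im|)) ^ s with hβ
  have hβsum : ∀ T : Finset ℂ, ∑ z ∈ T, M z * β z ≤ 160 * C * (1 + X) ^ s := by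
    intro T
    calc ∑ z ∈ T, M z * β z = ∑ z ∈ T, 160 * (1 + X) ^ s * (M z / (1 + |z.im|) ^ s) := by
          refine Finset.sum_congr rfl fun z _ => ?_
          rw [hβ]
          simp only
          rw [Real.div_rpow (by linarith) (by positivity)]
          ring
      _ = 160 * (1 + X) ^ s * ∑ z ∈ T, M z / (1 + |z.im|) ^ s := by rw [Finset.mul_sum]
      _ ≤ 160 * (1 + X) ^ s * C := by gcongr; exact hc T
      _ = _ := by ring
  set Λ : ℕ → ℝ := fun n => li M b n with hΛ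
  have hΛ0 : ∀ n ∈ range (N + 1), 0 ≤ Λ n := by
    intro n hn
    rcases Nat.eq_zero_or_pos n with h0 | h0
    · rw [h0, hΛ]; simp only; rw [li_zero]
    · exact hli n h0 (by simpa [Nat.lt_succ_iff] using hn)
  -- far terms
  have hfar : ∀ z, |z.re| < 1 / 2 → X < |z.im| → ∀ n ≤ N, |1 - (W b z ^ n).re| ≤ β z := by
    intro z hz hy n hn
    rcases Nat.eq_zero_or_pos n with h0 | h0
    · subst h0
      simp only [pow_zero, one_re, sub_self, abs_zero, hβ]
      positivity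
    · have hn1 : (1 : ℝ) ≤ n := by exact_mod_cast h0
      have hnN : (n : ℝ) * b ≤ X := by
        rw [hX]
        have : (n : ℝ) ≤ N := by exact_mod_cast hn
        gcongr
      have h2 := term_far hb hz h0 (hnN.trans hy.le)
      refine h2.trans ?_
      have h3 : (n * b / |z.im|) ^ 2 ≤ (X / |z.im|) ^ 2 := by gcongr
      have h4 := beta_high hs hs2 hX1 hy.le
      linarith
  -- the real sum
  have hE1 : HasSum (fun z => M z * (1 - (aeval (W b z) p).re)) (∑ n ∈ range (N + 1), p.coeff n * Λ n) := by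
    have h1 := hasSum_sum (s := range (N + 1)) (f := fun n z => p.coeff n * (M z * (1 - (W b z ^ n).re)))
      (a := fun n => p.coeff n * Λ n) (fun n _ => (summ hM hb n).hasSum.mul_left (p.coeff n))
    refine h1.congr_fun ?_
    intro z
    rw [aeval_sum hpN, Complex.re_sum]
    have e : ∀ n, ((p.coeff n : ℂ) * W b z ^ n).re = p.coeff n * (W b z ^ n).re := fun n => by
      rw [Complex.re_ofReal_mul]
    simp only [e]
    have h2 := coeff_sum hpN hp1
    calc M z * (1 - ∑ n ∈ range (N + 1), p.coeff n * (W b z ^ n).re)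
        = M z * (∑ n ∈ range (N + 1), p.coeff n - ∑ n ∈ range (N + 1), p.coeff n * (W b z ^ n).re) := by
          rw [h2]
      _ = ∑ n ∈ range (N + 1), p.coeff n * (M z * (1 - (W b z ^ n).re)) := by
          rw [← Finset.sum_sub_distrib, Finset.mul_sum]
          refine Finset.sum_congr rfl fun n _ => ?_
          ring
  have hE1le : ∑ n ∈ range (N + 1), p.coeff n * Λ n ≤ 160 * C * (1 + X) ^ s := by
    refine hasSum_le_of_sum_le hE1 fun T => ?_
    refine le_trans (Finset.sum_le_sum fun z _ => ?_) (hβsum T)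
    by_cases h0 : M z = 0
    · simp [h0]
    refine mul_le_mul_of_nonneg_left ?_ (hM.nn z)
    have hx := hM.strip z h0
    rcases le_or_gt |z.im| X with h | h
    · have h2 := (Complex.abs_re_le_norm _).trans (hpw z h0)
      rw [abs_le] at h2
      have := beta_low hs hX1 h
      simp only [hβ]
      linarith [h2.1]
    · have e : 1 - (aeval (W b z) p).re = ∑ n ∈ range (N + 1), p.coeff n * (1 - (W b z ^ n).re) := by
        rw [aeval_sum hpN, Complex.re_sum]
        have e : ∀ n, ((p.coeff n : ℂ) * W b z ^ n).re = p.coeff n * (W b z ^ n).re := fun n => by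
          rw [Complex.re_ofReal_mul]
        simp only [e]
        calc 1 - ∑ n ∈ range (N + 1), p.coeff n * (W b z ^ n).re
            = ∑ n ∈ range (N + 1), p.coeff n - ∑ n ∈ range (N + 1), p.coeff n * (W b z ^ n).re := by
              rw [coeff_sum hpN hp1]
          _ = _ := by
              rw [← Finset.sum_sub_distrib]
              refine Finset.sum_congr rfl fun n _ => ?_
              ring
      rw [e]
      calc ∑ n ∈ range (N + 1), p.coeff n * (1 - (W b z ^ n).re)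
          ≤ ∑ n ∈ range (N + 1), p.coeff n * β z := by
            refine Finset.sum_le_sum fun n hn => mul_le_mul_of_nonneg_left ?_ (hp0 n)
            exact (le_abs_self _).trans (hfar z hx h n (by simpa [Nat.lt_succ_iff] using hn))
        _ = β z := by rw [← Finset.sum_mul, coeff_sum hpN hp1, one_mul]
  -- the twisted sum
  set ez : ℂ → ℂ := fun z => ∑ n ∈ range (N + 1), (p.coeff n : ℂ) * σ ^ n *
    ((1 - (W b z ^ n).re : ℝ) : ℂ) with hez
  have hEσ : HasSum (fun z => (M z : ℂ) * ez z)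
      (∑ n ∈ range (N + 1), (p.coeff n : ℂ) * σ ^ n * (Λ n : ℂ)) := by
    have h1 := hasSum_sum (s := range (N + 1)) (f := fun n z => (p.coeff n : ℂ) * σ ^ n *
        ((M z * (1 - (W b z ^ n).re) : ℝ) : ℂ))
      (a := fun n => (p.coeff n : ℂ) * σ ^ n * (Λ n : ℂ)) (fun n _ => by
        have h2 : HasSum (fun z => ((M z * (1 - (W b z ^ n).re) : ℝ) : ℂ)) ((Λ n : ℝ) : ℂ) :=
          Complex.ofRealCLM.hasSum (summ hM hb n).hasSum
        exact h2.mul_left _)
    refine h1.congr_fun ?_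
    intro z
    rw [hez]
    simp only
    rw [Finset.mul_sum]
    refine Finset.sum_congr rfl fun n _ => ?_
    push_cast
    ring
  have hEσle : ‖∑ n ∈ range (N + 1), (p.coeff n : ℂ) * σ ^ n * (Λ n : ℂ)‖ ≤
      ∑ n ∈ range (N + 1), p.coeff n * Λ n := by
    refine (norm_sum_le _ _).trans (Finset.sum_le_sum fun n hn => ?_)
    rw [norm_mul, norm_mul, norm_pow, hσ, one_pow, mul_one, Complex.norm_real, Complex.norm_real,
      Real.norm_eq_abs, Real.norm_eq_abs, abs_of_nonneg (hp0 n), abs_of_nonneg (hΛ0 n hn)]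
  have htail := hasSum_tail hEσ S (Q := 160 * C * (1 + X) ^ s) (by
    intro T hT
    refine le_trans (Finset.sum_le_sum fun z hz => ?_) (hβsum T)
    rw [norm_mul, Complex.norm_real, Real.norm_eq_abs, abs_of_nonneg (hM.nn z)]
    by_cases h0 : M z = 0
    · simp [h0]
    refine mul_le_mul_of_nonneg_left ?_ (hM.nn z)
    have hx := hM.strip z h0
    have hy : X < |z.im| := by
      by_contra hcon
      push Not at hcon
      exact Finset.disjoint_left.1 hT hz ((hS z).2 ⟨h0, hcon⟩)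
    rw [hez]
    simp only
    calc ‖∑ n ∈ range (N + 1), (p.coeff n : ℂ) * σ ^ n * ((1 - (W b z ^ n).re : ℝ) : ℂ)‖
        ≤ ∑ n ∈ range (N + 1), ‖(p.coeff n : ℂ) * σ ^ n * ((1 - (W b z ^ n).re : ℝ) : ℂ)‖ :=
          norm_sum_le _ _
      _ ≤ ∑ n ∈ range (N + 1), p.coeff n * β z := by
          refine Finset.sum_le_sum fun n hn => ?_
          rw [norm_mul, norm_mul, norm_pow, hσ, one_pow, mul_one, Complex.norm_real, Complex.norm_real,
            Real.norm_eq_abs, Real.norm_eq_abs, abs_of_nonneg (hp0 n)]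
          exact mul_le_mul_of_nonneg_left (hfar z hx hy n (by simpa [Nat.lt_succ_iff] using hn)) (hp0 n)
      _ = β z := by rw [← Finset.sum_mul, coeff_sum hpN hp1, one_mul])
  -- the finite sum
  have hfin : ∑ z ∈ S, (M z : ℂ) * ez z = (∑ z ∈ S, (M z : ℂ)) * aeval σ p -
      ∑ z ∈ S, (M z : ℂ) * aeval (σ * W b z) p := by
    have e1 : ∀ z, ez z = aeval σ p - (aeval (σ * W b z) p +
        aeval (σ * W b (starRingEnd ℂ z)) p) / 2 := by
      intro z
      rw [hez]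
      simp only
      rw [aeval_sum hpN, aeval_sum hpN, aeval_sum hpN, ← Finset.sum_add_distrib, Finset.sum_div,
        ← Finset.sum_sub_distrib]
      refine Finset.sum_congr rfl fun n _ => ?_
      have h3 : (((W b z ^ n).re : ℝ) : ℂ) = (W b z ^ n + W b (starRingEnd ℂ z) ^ n) / 2 := by
        rw [W_conj, ← map_pow, Complex.add_conj]
        push_cast
        ring
      rw [Complex.ofReal_sub, h3, mul_pow, mul_pow]
      push_cast
      ring
    have e2 : ∑ z ∈ S, (M z : ℂ) * aeval (σ * W b (starRingEnd ℂ z)) p =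
        ∑ z ∈ S, (M z : ℂ) * aeval (σ * W b z) p := by
      refine Finset.sum_bij' (fun z _ => starRingEnd ℂ z) (fun z _ => starRingEnd ℂ z) ?_ ?_ ?_ ?_ ?_
      · intro z hz
        rw [hS] at hz ⊢
        rw [hM.conj, Complex.conj_im, abs_neg]
        exact hz
      · intro z hz
        rw [hS] at hz ⊢
        rw [hM.conj, Complex.conj_im, abs_neg]
        exact hz
      · intro z _; simp
      · intro z _; simp
      · intro z _
        rw [hM.conj]
    simp only [e1, mul_sub, Finset.sum_sub_distrib]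
    rw [← Finset.sum_mul]
    congr 1
    have e3 : ∑ z ∈ S, (M z : ℂ) * ((aeval (σ * W b z) p + aeval (σ * W b (starRingEnd ℂ z)) p) / 2) =
        (∑ z ∈ S, (M z : ℂ) * aeval (σ * W b z) p +
          ∑ z ∈ S, (M z : ℂ) * aeval (σ * W b (starRingEnd ℂ z)) p) / 2 := by
      rw [← Finset.sum_add_distrib, Finset.sum_div]
      refine Finset.sum_congr rfl fun z _ => ?_
      ring
    rw [e3, e2]
    ring
  have hpσ : ‖aeval σ p‖ ≤ 1 := norm_aeval_le hp0 hpN hp1 (fun n _ => by rw [hσ, one_pow])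
  have hMS : ‖(∑ z ∈ S, (M z : ℂ)) * aeval σ p‖ ≤ 160 * C * (1 + X) ^ s := by
    rw [norm_mul]
    have h3 : ‖∑ z ∈ S, (M z : ℂ)‖ ≤ ∑ z ∈ S, M z := by
      refine (norm_sum_le _ _).trans (Finset.sum_le_sum fun z _ => ?_)
      rw [Complex.norm_real, Real.norm_eq_abs, abs_of_nonneg (hM.nn z)]
    have h4 : ∑ z ∈ S, M z ≤ 160 * C * (1 + X) ^ s := by
      refine le_trans (Finset.sum_le_sum fun z hz => ?_) (hβsum S)
      have h5 := beta_low hs hX1 ((hS z).1 hz).2
      have h6 := hM.nn z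
      have h7 : 1 ≤ β z := by simp only [hβ]; linarith
      exact le_mul_of_one_le_right h6 h7
    calc ‖∑ z ∈ S, (M z : ℂ)‖ * ‖aeval σ p‖ ≤ ‖∑ z ∈ S, (M z : ℂ)‖ * 1 := by gcongr
      _ ≤ _ := by linarith
  rw [hfin] at htail
  set E := ∑ n ∈ range (N + 1), (p.coeff n : ℂ) * σ ^ n * (Λ n : ℂ)
  set A := (∑ z ∈ S, (M z : ℂ)) * aeval σ p
  set B := ∑ z ∈ S, (M z : ℂ) * aeval (σ * W b z) p
  have e : B = (E - (A - B)) - E + A := by ring
  calc ‖B‖ = ‖(E - (A - B)) - E + A‖ := by rw [← e]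
    _ ≤ ‖(E - (A - B)) - E‖ + ‖A‖ := norm_add_le _ _
    _ ≤ ‖E - (A - B)‖ + ‖E‖ + ‖A‖ := by gcongr; exact norm_sub_le _ _
    _ ≤ 160 * C * (1 + X) ^ s + 160 * C * (1 + X) ^ s + 160 * C * (1 + X) ^ s := by
        gcongr
        exact hEσle.trans hE1le
    _ = _ := by ring

end Pool.Agent.N831.LI
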