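import Pool.Agent.N831.LI.Sum

/-!
# The positive part: zeros with ordinates in `(2nb, 4nb]`
-/

set_option autoImplicit false

open Complex Filter Topology Finset

namespace Pool.Agent.N831.LI

lemma W_eq {b : ℝ} {z : ℂ} : W b z = ((((Complex.normSq (z + b))⁻¹ : ℝ) : ℂ)) *
    (((Complex.normSq z - b ^ 2 : ℝ) : ℂ) + ((2 * b * z.im : ℝ) : ℂ) * I) := by
  unfold W
  rw [div_eq_mul_inv, Complex.inv_def]
  apply Complex.ext
  · simp [Complex.normSq_apply, pow_two]; ring
  · simp [Complex.normSq_apply, pow_two]; ring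

/-- the argument -/
lemma arg_bounds {b : ℝ} (hb : 10 ≤ b) {z : ℂ} (hz : |z.re| < 1 / 2) {n : ℕ} (hn : 1 ≤ n)
    (h1 : 2 * (n * b) < z.im) (h2 : z.im ≤ 4 * (n * b)) :
    0.39 ≤ n * (W b z).arg ∧ n * (W b z).arg ≤ 1.4 := by
  have hn1 : (1 : ℝ) ≤ n := by exact_mod_cast hn
  have hy : 2 * b < z.im := by nlinarith
  have hy0 : 0 < z.im := by linarith
  have hne := add_ne (b := b) (by linarith) hz
  have hns : 0 < Complex.normSq (z + b) := Complex.normSq_pos.2 hne
  have hx : z.re ^ 2 < 1 / 4 := by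
    rw [← sq_abs]; nlinarith [abs_nonneg z.re]
  have hnz : Complex.normSq z = z.re ^ 2 + z.im ^ 2 := by rw [Complex.normSq_apply]; ring
  set A : ℝ := Complex.normSq z - b ^ 2 with hA
  set B : ℝ := 2 * b * z.im with hB
  have hB0 : 0 < B := by positivity
  have hAl : 0.75 * z.im ^ 2 ≤ A := by rw [hA, hnz]; nlinarith [sq_nonneg z.re]
  have hA0 : 0 < A := lt_of_lt_of_le (by positivity) hAl
  have harg : (W b z).arg = ((A : ℂ) + (B : ℂ) * I).arg := by
    rw [W_eq, Complex.arg_real_mul _ (inv_pos.2 hns)]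
  set V : ℂ := (A : ℂ) + (B : ℂ) * I with hV
  have hVre : V.re = A := by simp [hV]
  have hVim : V.im = B := by simp [hV]
  have hθ0 : 0 < V.arg := by
    have h3 : 0 ≤ V.arg := Complex.arg_nonneg_iff.2 (by rw [hVim]; exact hB0.le)
    rcases h3.lt_or_eq with h | h
    · exact h
    · exfalso
      have := (Complex.arg_eq_zero_iff.1 h.symm).2
      rw [hVim] at this
      linarith
  have hθ1 : V.arg < Real.pi / 2 :=
    (abs_lt.1 (Complex.abs_arg_lt_pi_div_two_iff.2 (Or.inl (by rw [hVre]; exact hA0)))).2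
  have hVn : ‖V‖ ≤ 1.26 * z.im ^ 2 := by
    have h4 : ‖V‖ ^ 2 = A ^ 2 + B ^ 2 := by
      rw [← Complex.normSq_eq_norm_sq, Complex.normSq_apply, hVre, hVim]; ring
    have h5 : ‖V‖ ^ 2 ≤ (1.26 * z.im ^ 2) ^ 2 := by
      rw [h4]
      have h6 : A ^ 2 + B ^ 2 ≤ (Complex.normSq z + b ^ 2) ^ 2 := by
        rw [hA, hB, hnz]; nlinarith [mul_nonneg (sq_nonneg b) (sq_nonneg z.re)]
      refine h6.trans ?_
      apply pow_le_pow_left₀ (by rw [hnz]; positivity)
      rw [hnz]; nlinarith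
    exact (pow_le_pow_iff_left₀ (norm_nonneg _) (by positivity) two_ne_zero).1 h5
  have hVp : 0 < ‖V‖ := norm_pos_iff.2 (fun h => by rw [h] at hVre; simp at hVre; linarith)
  rw [harg]
  constructor
  · have h7 : Real.sin V.arg = B / ‖V‖ := by rw [Complex.sin_arg, hVim]
    have h8 := Real.sin_le hθ0.le
    have h9 : 0.39 / n ≤ B / ‖V‖ := by
      rw [div_le_div_iff₀ (by linarith) hVp, hB]
      nlinarith
    have h10 : 0.39 / n ≤ V.arg := by linarith
    rw [div_le_iff₀ (by linarith)] at h10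
    linarith
  · have h7 : Real.tan V.arg = B / A := by rw [Complex.tan_arg, hVim, hVre]
    have h8 := Real.le_tan hθ0.le hθ1
    have h9 : B / A ≤ 1.4 / n := by
      rw [div_le_div_iff₀ hA0 (by linarith), hB]
      nlinarith
    have h10 : V.arg ≤ 1.4 / n := by linarith
    rw [le_div_iff₀ (by linarith)] at h10
    linarith

/-- the main terms -/
lemma hh_main {b : ℝ} (hb : 10 ≤ b) {z : ℂ} (hz : |z.re| < 1 / 2) {n : ℕ} (hn : 1 ≤ n)
    (h1 : 2 * (n * b) < z.im) (h2 : z.im ≤ 4 * (n * b)) : 1 / 20 ≤ hh b n z := by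
  obtain ⟨a1, a2⟩ := arg_bounds hb hz hn h1 h2
  have hn1 : (1 : ℝ) ≤ n := by exact_mod_cast hn
  have hb2 : (1 / 2 : ℝ) < b := by linarith
  have h0 : 0 < ‖W b z‖ := norm_pos_iff.2 (W_ne hb2 hz)
  set ℓ := Real.log ‖W b z‖ with hℓ
  set θ := (W b z).arg with hθ
  have hW : W b z = Complex.exp ((ℓ : ℂ) + (θ : ℂ) * I) := by
    rw [Complex.exp_add, ← Complex.ofReal_exp, hℓ, Real.exp_log h0, hθ, Complex.norm_mul_exp_arg_mul_I]
  have e1 : (W b z ^ n).re = Real.exp (n * ℓ) * Real.cos (n * θ) := by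
    rw [hW, ← Complex.exp_nat_mul, Complex.exp_re]
    simp
  have e2 : ((W b z)⁻¹ ^ n).re = Real.exp (-(n * ℓ)) * Real.cos (n * θ) := by
    rw [hW, ← Complex.exp_neg, ← Complex.exp_nat_mul, Complex.exp_re]
    simp
  have hc0 : 0 ≤ Real.cos (n * θ) := by
    apply Real.cos_nonneg_of_mem_Icc
    constructor
    · have := Real.pi_pos; linarith
    · have := Real.pi_gt_d2; linarith
  have hc1 : Real.cos (n * θ) ≤ 0.926 := by
    have h3 : Real.cos (n * θ) ≤ Real.cos 0.39 :=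
      Real.cos_le_cos_of_nonneg_of_le_pi (by norm_num) (by have := Real.pi_gt_d2; linarith) a1
    have h4 := Real.cos_bound (x := 0.39) (by rw [abs_of_pos] <;> norm_num)
    rw [abs_le] at h4
    have h5 := h4.2
    rw [abs_of_pos (by norm_num : (0:ℝ) < 0.39)] at h5
    norm_num at h5
    linarith
  have hu : |n * ℓ| ≤ 1 / 40 := by
    have h5 := abs_log_norm_W hb2 hz
    rw [← hℓ] at h5
    have h6 : gg b z.im ≤ 1 / (2 * (n * n) * b) := by
      unfold gg
      rw [div_le_div_iff₀ (by nlinarith [sq_nonneg (b - 1/2)]) (by positivity)]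
      have : (2 * (n * b)) ^ 2 ≤ z.im ^ 2 := pow_le_pow_left₀ (by positivity) h1.le 2
      nlinarith [sq_nonneg (b - 1/2)]
    have h7 : |ℓ| ≤ 1 / 2 * (1 / (2 * (n * n) * b)) := by
      refine h5.trans ?_
      apply mul_le_mul (by linarith) h6 (gg_nonneg hb2 _) (by norm_num)
    rw [abs_mul, abs_of_nonneg (show (0:ℝ) ≤ n by linarith)]
    calc n * |ℓ| ≤ n * (1 / 2 * (1 / (2 * (n * n) * b))) := by gcongr
      _ = 1 / (4 * n * b) := by field_simp; norm_num
      _ ≤ 1 / 40 := by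
          apply one_div_le_one_div_of_le (by norm_num)
          nlinarith
  have hcosh : Real.cosh (n * ℓ) ≤ 1.001 := by
    have h5 := Real.cosh_le_exp_half_sq (n * ℓ)
    have h6 : (n * ℓ) ^ 2 / 2 ≤ 0.0004 := by
      rw [← sq_abs]
      have := pow_le_pow_left₀ (abs_nonneg _) hu 2
      norm_num at this ⊢
      linarith
    have h7 : Real.exp ((n * ℓ) ^ 2 / 2) ≤ Real.exp 0.0004 := Real.exp_le_exp.2 h6
    have h8 : Real.exp 0.0004 ≤ 1.001 := by
      have h8 := Real.exp_bound' (x := 0.0004) (by norm_num) (by norm_num) (n := 2) (by norm_num)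
      norm_num [Finset.sum_range_succ, Nat.factorial] at h8 ⊢
      linarith
    linarith
  have e3 : hh b n z = 1 - Real.cosh (n * ℓ) * Real.cos (n * θ) := by
    unfold hh
    rw [e1, e2, Real.cosh_eq]
    ring
  rw [e3]
  have h9 : Real.cosh (n * ℓ) * Real.cos (n * θ) ≤ 1.001 * 0.926 :=
    mul_le_mul hcosh hc1 hc0 (by norm_num)
  norm_num at h9 ⊢
  linarith

end Pool.Agent.N831.LI
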