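import Pool.Agent.N831.LI.Final
import Pool.Agent.N831.LI.RH

/-!
# The theorem on Li coefficients: final form
-/

set_option autoImplicit false

namespace Pool.Agent.N831.LI.Out

open Filter

/-- The nontrivial zeros of zeta. -/
def Zeros : Set ℂ := {ρ : ℂ | riemannZeta ρ = 0 ∧ 0 < ρ.re ∧ ρ.re < 1}

/-- The Li coefficient with base point `a`: the sum over the nontrivial zeros `ρ`, with multiplicity, of
`Re (1 - ((ρ - a) / (ρ + a - 1)) ^ n)`. The sum converges absolutely; `a = 1` is Li's coefficient. -/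
noncomputable def lam (a : ℝ) (n : ℕ) : ℝ :=
  ∑' ρ : Zeros, (analyticOrderNatAt riemannZeta ρ : ℝ) * (1 - (((ρ : ℂ) - a) / (ρ + a - 1)) ^ n).re

/-- The coefficients with `n ≤ κ a log a` are at least `c n a log a`, for all large `a`. -/
def Large (κ : ℝ) : Prop := ∃ c : ℝ, 0 < c ∧ ∀ᶠ a : ℝ in atTop, ∀ n : ℕ, 1 ≤ n →
  (n : ℝ) ≤ κ * a * Real.log a → c * n * a * Real.log a ≤ lam a n

/-- The coefficients with `n ≤ κ a log a` are nonnegative, for arbitrarily large `a`. -/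
def SometimesNonneg (κ : ℝ) : Prop := ∃ᶠ a : ℝ in atTop, ∀ n : ℕ, 1 ≤ n →
  (n : ℝ) ≤ κ * a * Real.log a → 0 ≤ lam a n

/-- The zeta function has no zeros with `Re s > θ`. -/
def ZeroFree (θ : ℝ) : Prop := ∀ s : ℂ, θ < s.re → riemannZeta s ≠ 0

lemma lam_eq (a : ℝ) (n : ℕ) : lam a n = Pool.Agent.N831.LI.li Pool.Agent.N831.LI.MZ (a - 1 / 2) n := by
  classical
  unfold Pool.Agent.N831.LI.li
  rw [← (Equiv.addLeft (1 / 2 : ℂ)).symm.tsum_eq, lam]
  rw [tsum_subtype Zeros (fun ρ : ℂ => (analyticOrderNatAt riemannZeta ρ : ℝ) *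
    (1 - ((ρ - a) / (ρ + a - 1)) ^ n).re)]
  refine tsum_congr fun ρ => ?_
  have e : (Equiv.addLeft (1 / 2 : ℂ)).symm ρ = -(1 / 2) + ρ := rfl
  rw [e]
  by_cases h : ρ ∈ Zeros
  · obtain ⟨h1, h2, h3⟩ := h
    rw [Set.indicator_of_mem (show ρ ∈ Zeros from ⟨h1, h2, h3⟩)]
    have h4 : |(-(1 / 2) + ρ).re| < 1 / 2 := by
      have : (-(1 / 2) + ρ).re = ρ.re - 1 / 2 := by simp; ring
      rw [this, abs_lt]
      constructor <;> linarith
    unfold Pool.Agent.N831.LI.MZ Pool.Agent.N831.LI.W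
    rw [if_pos h4, Complex.sub_re, Complex.one_re]
    have e1 : (1 / 2 : ℂ) + (-(1 / 2) + ρ) = ρ := by ring
    have e2 : (-(1 / 2) + ρ) - ((a - 1 / 2 : ℝ) : ℂ) = ρ - a := by push_cast; ring
    have e3 : (-(1 / 2) + ρ) + ((a - 1 / 2 : ℝ) : ℂ) = ρ + a - 1 := by push_cast; ring
    rw [e1, e2, e3]
  · rw [Set.indicator_of_notMem h]
    have h4 : Pool.Agent.N831.LI.MZ (-(1 / 2) + ρ) = 0 := by
      by_contra h5
      obtain ⟨h6, h7⟩ := Pool.Agent.N831.LI.MZ_ne_iff.1 h5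
      apply h
      have e1 : (1 / 2 : ℂ) + (-(1 / 2) + ρ) = ρ := by ring
      have : (-(1 / 2) + ρ).re = ρ.re - 1 / 2 := by simp; ring
      rw [this, abs_lt] at h6
      rw [e1] at h7
      exact ⟨h7, by linarith [h6.1], by linarith [h6.2]⟩
    rw [h4, zero_mul]

open Pool.Agent.N831.LI in
lemma large_of {κ κ' : ℝ} (h : κ < κ') (h0 : 0 < κ') (hD : Dn MZ κ') : Large κ := by
  have key : ∀ k : ℝ, 0 < k → k < κ' → Large k := by
    intro k hk hk'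
    obtain ⟨c, hc, h1⟩ := pos_of_dn hk hk' hD
    refine ⟨c, hc, h1.mono fun a ha n hn hnk => ?_⟩
    rw [lam_eq]
    exact ha n hn hnk
  obtain ⟨c, hc, h1⟩ := key (max κ (κ' / 2)) (lt_max_of_lt_right (by linarith)) (max_lt h (by linarith))
  refine ⟨c, hc, ?_⟩
  filter_upwards [h1, eventually_ge_atTop (1 : ℝ)] with a ha ha1 n hn hnk
  refine ha n hn (hnk.trans ?_)
  have h2 := Real.log_nonneg ha1
  have h3 : κ ≤ max κ (κ' / 2) := le_max_left _ _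
  gcongr

theorem negative {κ : ℝ} (hκ : 0 < κ) {s : ℂ} (hs : riemannZeta s = 0) (hre : 1 / 2 + 1 / κ < s.re) :
    ∀ᶠ a : ℝ in atTop, ∃ n : ℕ, 1 ≤ n ∧ (n : ℝ) ≤ κ * a * Real.log a ∧ lam a n < 0 := by
  filter_upwards [Pool.Agent.N831.LI.neg_of_zero hκ hs hre] with a ⟨n, h1, h2, h3⟩
  exact ⟨n, h1, h2, by rw [lam_eq]; exact h3⟩

theorem large_quasi {θ : ℝ} (h1 : 1 / 2 < θ) (h2 : θ < 1) (h : ZeroFree θ) {κ : ℝ}
    (hκ : κ < 1 / (2 * θ - 1) + (2 * θ - 1)) : Large κ := by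
  have h0 : 0 < 2 * θ - 1 := by linarith
  have h3 : 0 < 1 / (2 * θ - 1) + (2 * θ - 1) := by positivity
  have h4 : max κ 0 < 1 / (2 * θ - 1) + (2 * θ - 1) := max_lt hκ h3
  obtain ⟨κ', h5, h6⟩ := exists_between h4
  have h7 : 0 < κ' := (le_max_right _ _).trans_lt h5
  exact large_of ((le_max_left _ _).trans_lt h5) h7 (Pool.Agent.N831.LI.dn_quasi h7 h1 h2.le h h6)

theorem zeroFree_of {κ : ℝ} (hκ : 0 < κ) (h : SometimesNonneg κ) : ZeroFree (1 / 2 + 1 / κ) := by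
  intro s hs h0
  obtain ⟨a, ha1, ha2⟩ := (h.and_eventually (negative hκ h0 hs)).exists
  obtain ⟨n, hn, hnk, hneg⟩ := ha2
  have := ha1 n hn hnk
  linarith

theorem large_sometimes {κ : ℝ} (h : Large κ) : SometimesNonneg κ := by
  obtain ⟨c, hc, h1⟩ := h
  refine Eventually.frequently ?_
  filter_upwards [h1, eventually_ge_atTop (1 : ℝ)] with a ha ha1 n hn hnk
  have h2 := Real.log_nonneg ha1
  have : 0 ≤ c * n * a * Real.log a := by positivity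
  exact this.trans (ha n hn hnk)

theorem main :
    (∀ κ : ℝ, κ < 2 → Large κ) ∧
    (∀ θ : ℝ, 1 / 2 < θ → θ < 1 → ZeroFree θ → ∀ κ : ℝ, κ < 1 / (2 * θ - 1) + (2 * θ - 1) → Large κ) ∧
    (∀ (κ : ℝ) (s : ℂ), 0 < κ → riemannZeta s = 0 → 1 / 2 + 1 / κ < s.re →
      ∀ᶠ a : ℝ in atTop, ∃ n : ℕ, 1 ≤ n ∧ (n : ℝ) ≤ κ * a * Real.log a ∧ lam a n < 0) ∧
    ((∃ κ : ℝ, 2 < κ ∧ SometimesNonneg κ) ↔ ∃ θ : ℝ, θ < 1 ∧ ZeroFree θ) ∧
    ((∃ κ : ℝ, 2 < κ ∧ Large κ) ↔ ∃ θ : ℝ, θ < 1 ∧ ZeroFree θ) ∧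
    (RiemannHypothesis ↔ ∀ κ : ℝ, 0 < κ → SometimesNonneg κ) ∧
    (RiemannHypothesis ↔ ∀ κ : ℝ, Large κ) := by
  have hq : (∃ θ : ℝ, θ < 1 ∧ ZeroFree θ) → ∃ κ : ℝ, 2 < κ ∧ Large κ := by
    rintro ⟨θ, hθ, hz⟩
    -- enlarge `θ`
    set θ' : ℝ := max θ (3 / 4) with hθ'
    have h1 : θ' < 1 := max_lt hθ (by norm_num)
    have h2 : 1 / 2 < θ' := lt_of_lt_of_le (by norm_num) (le_max_right _ _)
    have hz' : ZeroFree θ' := fun s hs => hz s ((le_max_left _ _).trans_lt hs)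
    have h3 : 2 < 1 / (2 * θ' - 1) + (2 * θ' - 1) := by
      have h4 : 0 < 2 * θ' - 1 := by linarith
      have h5 : 2 * θ' - 1 < 1 := by linarith
      have e : 1 / (2 * θ' - 1) + (2 * θ' - 1) - 2 = (1 - (2 * θ' - 1)) ^ 2 / (2 * θ' - 1) := by
        field_simp
        ring
      have h6 : 0 < (1 - (2 * θ' - 1)) ^ 2 / (2 * θ' - 1) := by
        have : 0 < 1 - (2 * θ' - 1) := by linarith
        positivity
      linarith
    obtain ⟨κ, h4, h5⟩ := exists_between h3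
    exact ⟨κ, h4, large_quasi h2 h1 hz' h5⟩
  have hz : (∃ κ : ℝ, 2 < κ ∧ SometimesNonneg κ) → ∃ θ : ℝ, θ < 1 ∧ ZeroFree θ := by
    rintro ⟨κ, h1, h2⟩
    refine ⟨1 / 2 + 1 / κ, ?_, zeroFree_of (by linarith) h2⟩
    have : 1 / κ < 1 / 2 := one_div_lt_one_div_of_lt (by norm_num) h1
    linarith
  have hRH1 : RiemannHypothesis → ∀ κ : ℝ, Large κ := by
    intro h κ
    -- choose `θ` close to `1/2`
    set d : ℝ := 1 / (|κ| + 2) with hd
    have hκ0 := abs_nonneg κ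
    have hd0 : 0 < d := by positivity
    have hd1 : d ≤ 1 / 2 := one_div_le_one_div_of_le (by norm_num) (by linarith)
    refine large_quasi (θ := 1 / 2 + d / 2) (by linarith) (by linarith) (fun s hs h0 => ?_) ?_
    · have := right_of_rh h h0
      linarith
    · have e : 2 * (1 / 2 + d / 2) - 1 = d := by ring
      rw [e]
      have e2 : 1 / d = |κ| + 2 := by rw [hd, one_div_one_div]
      rw [e2]
      have := le_abs_self κ
      linarith
  have hRH2 : (∀ κ : ℝ, 0 < κ → SometimesNonneg κ) → RiemannHypothesis := by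
    intro h
    refine rh_of_right fun s h0 => ?_
    by_contra h2
    push Not at h2
    have h3 : 0 < s.re - 1 / 2 := by linarith
    have h4 := zeroFree_of (κ := 2 / (s.re - 1 / 2)) (by positivity) (h _ (by positivity))
    refine h4 s ?_ h0
    rw [one_div_div]
    linarith
  refine ⟨fun κ hκ => ?_, fun θ h1 h2 h3 κ hκ => large_quasi h1 h2 h3 hκ,
    fun κ s hκ hs hre => negative hκ hs hre, ⟨hz, fun h => ?_⟩, ⟨fun ⟨κ, h1, h2⟩ => hz ⟨κ, h1,
      large_sometimes h2⟩, hq⟩, ⟨fun h κ _ => large_sometimes (hRH1 h κ), hRH2⟩,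
    ⟨hRH1, fun h => hRH2 fun κ _ => large_sometimes (h κ)⟩⟩
  · obtain ⟨κ', h1, h2⟩ := exists_between (max_lt hκ (show (0:ℝ) < 2 by norm_num))
    have h3 : 0 < κ' := (le_max_right _ _).trans_lt h1
    exact large_of ((le_max_left _ _).trans_lt h1) h3 (Pool.Agent.N831.LI.dn_uncond h3 h2)
  · obtain ⟨κ, h1, h2⟩ := hq h
    exact ⟨κ, h1, large_sometimes h2⟩

end Pool.Agent.N831.LI.Out
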