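import Pool.Agent.N831.LI.Basic

/-!
# Summability and the symmetrised sum
-/

set_option autoImplicit false

open Complex Filter Topology Finset

namespace Pool.Agent.N831.LI

variable {M : ℂ → ℝ}

/-- every term is `O (1 / (1 + |y|)^2)` -/
lemma term_bnd {b : ℝ} (hb : 1 ≤ b) (n : ℕ) : ∃ K : ℝ, 0 ≤ K ∧ ∀ z : ℂ, |z.re| < 1 / 2 →
    |1 - (W b z ^ n).re| ≤ K / (1 + |z.im|) ^ 2 := by
  rcases Nat.eq_zero_or_pos n with h0 | h0
  · refine ⟨0, le_rfl, fun z _ => ?_⟩
    subst h0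
    simp
  have hn1 : (1 : ℝ) ≤ n := by exact_mod_cast h0
  have hnb : 1 ≤ n * b := by nlinarith
  set K1 : ℝ := (1 + Real.exp (n * (2 * b / (b - 1 / 2) ^ 2))) * (1 + n * b) ^ 2 with hK1
  set K2 : ℝ := 40 * (n * b) ^ 2 * 4 with hK2
  have h10 : 0 ≤ K1 := by positivity
  have h20 : 0 ≤ K2 := by positivity
  refine ⟨K1 + K2, by positivity, fun z hz => ?_⟩
  have hy0 := abs_nonneg z.im
  rcases le_total (n * b) |z.im| with h | h
  · refine (term_far hb hz h0 h).trans ?_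
    rw [le_div_iff₀ (by positivity)]
    have hy : 0 < |z.im| := by linarith
    have h1 : 1 + |z.im| ≤ 2 * |z.im| := by linarith
    calc 40 * (n * b / |z.im|) ^ 2 * (1 + |z.im|) ^ 2 ≤ 40 * (n * b / |z.im|) ^ 2 * (2 * |z.im|) ^ 2 := by
          gcongr
      _ = K2 := by
          rw [hK2]; field_simp
          norm_num
      _ ≤ K1 + K2 := by linarith
  · rw [le_div_iff₀ (by positivity)]
    have h1 : ‖W b z‖ ^ n ≤ Real.exp (n * (2 * b / (b - 1 / 2) ^ 2)) := by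
      calc ‖W b z‖ ^ n ≤ Real.exp (|z.re| * gg b z.im) ^ n := by
            gcongr
            exact norm_W_le (by linarith) hz
        _ = Real.exp (n * (|z.re| * gg b z.im)) := by rw [← Real.exp_nat_mul]
        _ ≤ _ := by
            apply Real.exp_le_exp.2
            have h2 : gg b z.im ≤ 2 * b / (b - 1 / 2) ^ 2 := by
              unfold gg
              apply div_le_div_of_nonneg_left (by positivity)
              · have : 0 < b - 1 / 2 := by linarith
                positivity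
              · nlinarith [sq_nonneg z.im]
            have h3 := gg_nonneg (b := b) (by linarith) z.im
            have h4 : |z.re| * gg b z.im ≤ 1 * (2 * b / (b - 1 / 2) ^ 2) := by
              apply mul_le_mul (by linarith) h2 h3 (by norm_num)
            rw [one_mul] at h4
            gcongr
    have h5 : |1 - (W b z ^ n).re| ≤ 1 + Real.exp (n * (2 * b / (b - 1 / 2) ^ 2)) := by
      have h6 := Complex.abs_re_le_norm (W b z ^ n)
      rw [norm_pow] at h6
      calc |1 - (W b z ^ n).re| ≤ |(1 : ℝ)| + |(W b z ^ n).re| := abs_sub _ _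
        _ ≤ _ := by rw [abs_one]; linarith
    calc |1 - (W b z ^ n).re| * (1 + |z.im|) ^ 2
        ≤ (1 + Real.exp (n * (2 * b / (b - 1 / 2) ^ 2))) * (1 + n * b) ^ 2 := by gcongr
      _ ≤ K1 + K2 := by rw [hK1]; linarith

lemma cnt2 (hM : Zs M) : ∃ C : ℝ, 0 ≤ C ∧ ∀ S : Finset ℂ, ∑ z ∈ S, M z / (1 + |z.im|) ^ 2 ≤ C := by
  obtain ⟨C, hC, h⟩ := hM.cnt 2 (by norm_num)
  refine ⟨C, hC, fun S => ?_⟩
  simpa only [Real.rpow_two] using h S

lemma summ_of {f : ℂ → ℝ} (hM : Zs M) {K : ℝ} (hK : 0 ≤ K)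
    (h : ∀ z : ℂ, |z.re| < 1 / 2 → |f z| ≤ K / (1 + |z.im|) ^ 2) :
    Summable (fun z => M z * f z) := by
  obtain ⟨C, hC, hc⟩ := cnt2 hM
  have h1 : Summable (fun z => |M z * f z|) := by
    refine summable_of_sum_le (c := K * C) (fun _ => abs_nonneg _) fun S => ?_
    calc ∑ z ∈ S, |M z * f z| ≤ ∑ z ∈ S, K * (M z / (1 + |z.im|) ^ 2) := by
          refine Finset.sum_le_sum fun z _ => ?_
          rw [abs_mul, abs_of_nonneg (hM.nn z)]
          by_cases h0 : M z = 0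
          · simp [h0]
          · have := mul_le_mul_of_nonneg_left (h z (hM.strip z h0)) (hM.nn z)
            calc M z * |f z| ≤ M z * (K / (1 + |z.im|) ^ 2) := this
              _ = _ := by ring
      _ = K * ∑ z ∈ S, M z / (1 + |z.im|) ^ 2 := by rw [Finset.mul_sum]
      _ ≤ K * C := by gcongr; exact hc S
  exact h1.of_abs

lemma summ (hM : Zs M) {b : ℝ} (hb : 1 ≤ b) (n : ℕ) :
    Summable (fun z => M z * (1 - (W b z ^ n).re)) := by
  obtain ⟨K, hK, h⟩ := term_bnd hb n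
  exact summ_of hM hK h

/-- the symmetrised term -/
noncomputable def hh (b : ℝ) (n : ℕ) (z : ℂ) : ℝ := 1 - ((W b z ^ n).re + ((W b z)⁻¹ ^ n).re) / 2

lemma li_symm (hM : Zs M) {b : ℝ} (hb : 1 ≤ b) (n : ℕ) :
    HasSum (fun z => M z * hh b n z) (li M b n) := by
  have h1 : HasSum (fun z => M z * (1 - (W b z ^ n).re)) (li M b n) := (summ hM hb n).hasSum
  have h2 : HasSum (fun z => M (-z) * (1 - (W b (-z) ^ n).re)) (li M b n) :=
    (Equiv.neg ℂ).hasSum_iff.2 h1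
  have h3 := (h1.add h2).mul_left (1 / 2)
  have e : (1 / 2 : ℝ) * (li M b n + li M b n) = li M b n := by ring
  rw [e] at h3
  refine h3.congr_fun ?_ |> fun h => h
  intro z
  rw [hM.neg, W_neg]
  unfold hh
  ring

/-- lower bound of the sum from a finite piece and a bound for the negative parts -/
lemma lower_of {f : ℂ → ℝ} {s : ℝ} (hf : HasSum f s) (q : ℂ → ℝ) (hq0 : ∀ z, 0 ≤ q z)
    (hq : ∀ z, -q z ≤ f z) {Q : ℝ} (hQ : ∀ S : Finset ℂ, ∑ z ∈ S, q z ≤ Q) (P : Finset ℂ) (p : ℂ → ℝ)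
    (hp : ∀ z ∈ P, p z ≤ f z) : ∑ z ∈ P, p z - Q ≤ s := by
  classical
  refine ge_of_tendsto hf ?_
  filter_upwards [eventually_ge_atTop P] with S hS
  rw [← Finset.sum_sdiff hS]
  have h1 : -Q ≤ ∑ z ∈ S \ P, f z := by
    calc -Q ≤ -∑ z ∈ S \ P, q z := neg_le_neg (hQ _)
      _ = ∑ z ∈ S \ P, -q z := by rw [Finset.sum_neg_distrib]
      _ ≤ _ := Finset.sum_le_sum fun z _ => hq z
  have h2 : ∑ z ∈ P, p z ≤ ∑ z ∈ P, f z := Finset.sum_le_sum hp
  linarith

lemma cosh_sub_one_le {u : ℝ} (hu : 0 ≤ u) : Real.cosh u - 1 ≤ u ^ 2 / 2 * Real.exp u := by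
  have h1 : Real.exp u - 1 ≤ u * Real.exp u := by
    have := Real.add_one_le_exp (-u)
    have h2 := Real.exp_pos u
    have h3 : Real.exp u * Real.exp (-u) = 1 := by rw [← Real.exp_add]; simp
    nlinarith
  have h0 : 0 ≤ Real.exp u - 1 := by linarith [Real.add_one_le_exp u]
  have h4 : (Real.exp u - 1) ^ 2 ≤ (u * Real.exp u) ^ 2 := pow_le_pow_left₀ h0 h1 2
  have h3 : Real.exp u * Real.exp (-u) = 1 := by rw [← Real.exp_add]; simp
  have e : Real.cosh u - 1 = (Real.exp u - 1) ^ 2 * Real.exp (-u) / 2 := by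
    rw [Real.cosh_eq]
    have : (Real.exp u - 1) ^ 2 * Real.exp (-u) =
      Real.exp u * (Real.exp u * Real.exp (-u)) - 2 * (Real.exp u * Real.exp (-u)) + Real.exp (-u) := by ring
    rw [this, h3]; ring
  rw [e]
  have h5 : (Real.exp u - 1) ^ 2 * Real.exp (-u) ≤ (u * Real.exp u) ^ 2 * Real.exp (-u) := by
    gcongr
  have h6 : (u * Real.exp u) ^ 2 * Real.exp (-u) = u ^ 2 * Real.exp u * (Real.exp u * Real.exp (-u)) := by
    ring
  rw [h6, h3] at h5
  linarith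

lemma W_ne {b : ℝ} (hb : 1 / 2 < b) {z : ℂ} (hz : |z.re| < 1 / 2) : W b z ≠ 0 :=
  div_ne_zero (sub_ne hb hz) (add_ne hb hz)

lemma norm_W_inv_le {b : ℝ} (hb : 1 / 2 < b) {z : ℂ} (hz : |z.re| < 1 / 2) :
    ‖W b z‖⁻¹ ≤ Real.exp (|z.re| * gg b z.im) := by
  rw [← norm_inv, ← W_neg]
  have := norm_W_le (b := b) hb (z := -z) (by simpa using hz)
  simpa [gg] using this

/-- `|log |w|| ≤ |x| g` -/
lemma abs_log_norm_W {b : ℝ} (hb : 1 / 2 < b) {z : ℂ} (hz : |z.re| < 1 / 2) :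
    |Real.log ‖W b z‖| ≤ |z.re| * gg b z.im := by
  have h0 : 0 < ‖W b z‖ := norm_pos_iff.2 (W_ne hb hz)
  rw [abs_le]
  constructor
  · have h1 := norm_W_inv_le hb hz
    have h2 := Real.log_le_log (inv_pos.2 h0) h1
    rw [Real.log_inv, Real.log_exp] at h2
    linarith
  · have h2 := Real.log_le_log h0 (norm_W_le hb hz)
    rwa [Real.log_exp] at h2

/-- general lower bound for the symmetrised term -/
lemma hh_lower {b : ℝ} (hb : 1 / 2 < b) {z : ℂ} (hz : |z.re| < 1 / 2) (n : ℕ) :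
    -((n * (|z.re| * gg b z.im)) ^ 2 / 2 * Real.exp (n * (|z.re| * gg b z.im))) ≤ hh b n z := by
  have h0 : 0 < ‖W b z‖ := norm_pos_iff.2 (W_ne hb hz)
  set ℓ := Real.log ‖W b z‖ with hℓ
  have hl := abs_log_norm_W hb hz
  rw [← hℓ] at hl
  have hg : 0 ≤ |z.re| * gg b z.im := mul_nonneg (abs_nonneg _) (gg_nonneg hb _)
  have h1 : (W b z ^ n).re ≤ Real.exp (n * ℓ) := by
    refine (Complex.re_le_norm _).trans ?_
    rw [norm_pow, Real.exp_nat_mul, hℓ, Real.exp_log h0]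
  have h2 : ((W b z)⁻¹ ^ n).re ≤ Real.exp (-(n * ℓ)) := by
    refine (Complex.re_le_norm _).trans ?_
    rw [norm_pow, norm_inv, ← mul_neg, Real.exp_nat_mul, hℓ, Real.exp_neg, Real.exp_log h0]
  have h3 : Real.cosh (n * ℓ) ≤ Real.cosh (n * (|z.re| * gg b z.im)) := by
    rw [Real.cosh_le_cosh, abs_mul, abs_of_nonneg (show (0:ℝ) ≤ n * (|z.re| * gg b z.im) by positivity),
      abs_of_nonneg (show (0:ℝ) ≤ n from Nat.cast_nonneg n)]
    exact mul_le_mul_of_nonneg_left hl (Nat.cast_nonneg n)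
  have h4 := cosh_sub_one_le (show (0:ℝ) ≤ n * (|z.re| * gg b z.im) by positivity)
  have h5 : (Real.exp (n * ℓ) + Real.exp (-(n * ℓ))) / 2 = Real.cosh (n * ℓ) := (Real.cosh_eq _).symm
  unfold hh
  linarith

end Pool.Agent.N831.LI
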