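import Pool.Agent.N831.LI.Basic
import Pool.Agent.H353R2.K2
import Pool.Agent.H370R2.Count
import Pool.Agent.H370R2.DirGood

/-!
# The zeros of zeta as abstract zero data
-/

set_option autoImplicit false

open Complex Filter Topology Finset

namespace Pool.Agent.N831.LI

open H353 (FF mu mu_cast mu_pos mu_conj FF_anal FF_order_ne_top FF_im_ne local_count)

/-- the multiplicity of the zero `1/2 + z` of zeta -/
noncomputable def MZ (z : ℂ) : ℝ :=
  open Classical in if |z.re| < 1 / 2 then (analyticOrderNatAt riemannZeta (1 / 2 + z) : ℝ) else 0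

lemma zeta_anal {ρ : ℂ} (h : ρ ≠ 1) : AnalyticAt ℂ riemannZeta ρ := by
  have : DifferentiableOn ℂ riemannZeta ({1}ᶜ : Set ℂ) := fun z hz =>
    (differentiableAt_riemannZeta hz).differentiableWithinAt
  exact this.analyticAt (isOpen_compl_singleton.mem_nhds h)

lemma order_FF {ρ : ℂ} (h : ρ ≠ 1) : analyticOrderAt FF ρ = analyticOrderAt riemannZeta ρ := by
  have h1 : FF =ᶠ[𝓝 ρ] (fun v => v - 1) * riemannZeta := by
    filter_upwards [isOpen_ne.mem_nhds h] with v hv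
    exact ZU.J_g2b.FF_ne hv
  have h2 : AnalyticAt ℂ (fun v : ℂ => v - 1) ρ := by fun_prop
  rw [analyticOrderAt_congr h1, analyticOrderAt_mul h2 (zeta_anal h),
    h2.analyticOrderAt_eq_zero.mpr (sub_ne_zero.2 h), zero_add]

lemma ne_one {z : ℂ} (h : |z.re| < 1 / 2) : (1 / 2 + z : ℂ) ≠ 1 := by
  intro h1
  have := congrArg Complex.re h1
  simp at this
  rw [abs_lt] at h
  linarith [h.2]

lemma order_nat {z : ℂ} (h : |z.re| < 1 / 2) : analyticOrderNatAt riemannZeta (1 / 2 + z) = mu (1 / 2 + z) := by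
  unfold H353.mu analyticOrderNatAt
  rw [order_FF (ne_one h)]

lemma MZ_eq {z : ℂ} (h : |z.re| < 1 / 2) : MZ z = mu (1 / 2 + z) := by
  unfold MZ
  rw [if_pos h, order_nat h]

lemma MZ_out {z : ℂ} (h : ¬ |z.re| < 1 / 2) : MZ z = 0 := by
  unfold MZ
  rw [if_neg h]

lemma MZ_strip {z : ℂ} (h : MZ z ≠ 0) : |z.re| < 1 / 2 := by
  by_contra h1
  exact h (MZ_out h1)

lemma mu_ne_zero {ρ : ℂ} (h : mu ρ ≠ 0) : FF ρ = 0 := by
  by_contra h1
  apply h
  have h2 := (FF_anal ρ).analyticOrderAt_eq_zero.2 h1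
  have h3 := mu_cast ρ
  rw [h2] at h3
  exact_mod_cast h3

lemma MZ_zero {z : ℂ} (h : MZ z ≠ 0) : FF (1 / 2 + z) = 0 := by
  have h1 := MZ_strip h
  rw [MZ_eq h1] at h
  exact mu_ne_zero (by exact_mod_cast h)

lemma MZ_ne_iff {z : ℂ} : MZ z ≠ 0 ↔ |z.re| < 1 / 2 ∧ riemannZeta (1 / 2 + z) = 0 := by
  constructor
  · intro h
    have h1 := MZ_strip h
    refine ⟨h1, ?_⟩
    have h2 := MZ_zero h
    rw [show FF (1 / 2 + z) = (1 / 2 + z - 1) * riemannZeta (1 / 2 + z) from ZU.J_g2b.FF_ne (ne_one h1)] at h2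
    exact (mul_eq_zero.1 h2).resolve_left (sub_ne_zero.2 (ne_one h1))
  · rintro ⟨h1, h2⟩
    rw [MZ_eq h1]
    have h3 : FF (1 / 2 + z) = 0 := by
      rw [show FF (1 / 2 + z) = (1 / 2 + z - 1) * riemannZeta (1 / 2 + z) from ZU.J_g2b.FF_ne (ne_one h1),
        h2, mul_zero]
    have := mu_pos _ h3
    have h4 : mu (1 / 2 + z) ≠ 0 := by omega
    exact_mod_cast h4

lemma MZ_nn (z : ℂ) : 0 ≤ MZ z := by
  unfold MZ
  split_ifs
  · exact Nat.cast_nonneg _
  · exact le_rfl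

lemma MZ_one (z : ℂ) (h : MZ z ≠ 0) : 1 ≤ MZ z := by
  have h1 := MZ_strip h
  rw [MZ_eq h1] at h ⊢
  have : mu (1 / 2 + z) ≠ 0 := by exact_mod_cast h
  exact_mod_cast Nat.one_le_iff_ne_zero.2 this

lemma MZ_conj (z : ℂ) : MZ (starRingEnd ℂ z) = MZ z := by
  by_cases h : |z.re| < 1 / 2
  · have h' : |(starRingEnd ℂ z).re| < 1 / 2 := by rwa [Complex.conj_re]
    rw [MZ_eq h, MZ_eq h', ← mu_conj (1 / 2 + z)]
    congr 2
    simp only [map_add, map_div₀, map_one, Complex.conj_ofNat]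
  · have h' : ¬ |(starRingEnd ℂ z).re| < 1 / 2 := by rwa [Complex.conj_re]
    rw [MZ_out h, MZ_out h']

lemma MZ_im_ne {z : ℂ} (h : MZ z ≠ 0) : z.im ≠ 0 := by
  have h1 := MZ_strip h
  have h2 := FF_im_ne _ (MZ_zero h) (by
    rw [abs_lt] at h1
    simp
    linarith [h1.1])
  simpa using h2

lemma zeta_symm {s : ℂ} (hs : s.im ≠ 0) :
    analyticOrderAt riemannZeta (1 - (starRingEnd ℂ) s) = analyticOrderAt riemannZeta s := by
  have h := H370.DL.L_symm (χ := (1 : DirichletCharacter ℂ 1)) DirichletCharacter.isPrimitive_one_level_one hs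
  rwa [DirichletCharacter.LFunction_modOne_eq] at h

lemma MZ_neg (z : ℂ) : MZ (-z) = MZ z := by
  by_cases h : |z.re| < 1 / 2
  swap
  · have h' : ¬ |(-z).re| < 1 / 2 := by rwa [Complex.neg_re, abs_neg]
    rw [MZ_out h, MZ_out h']
  by_cases h0 : z.im = 0
  · have h1 : MZ z = 0 := by
      by_contra h1
      exact MZ_im_ne h1 h0
    have h2 : MZ (-z) = 0 := by
      by_contra h1
      exact MZ_im_ne h1 (by simpa using h0)
    rw [h1, h2]
  · rw [← MZ_conj (-z)]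
    have h' : |(starRingEnd ℂ (-z)).re| < 1 / 2 := by
      rw [Complex.conj_re, Complex.neg_re, abs_neg]; exact h
    unfold MZ
    rw [if_pos h, if_pos h']
    have h1 := zeta_symm (s := 1 / 2 + z) (by simpa using h0)
    have e : (1 / 2 : ℂ) + starRingEnd ℂ (-z) = 1 - starRingEnd ℂ (1 / 2 + z) := by
      simp only [map_neg, map_add, map_div₀, map_one, Complex.conj_ofNat]
      ring
    rw [e]
    unfold analyticOrderNatAt
    rw [h1]

/-- local count -/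
lemma MZ_local (k : ℕ) (S : Finset ℂ) (hS : ∀ z ∈ S, (k : ℝ) ≤ |z.im| ∧ |z.im| ≤ k + 1) :
    ∑ z ∈ S, MZ z ≤ 240 * Real.log (22 * (6 + k) ^ 2) := by
  classical
  have hk : (0 : ℝ) ≤ k := Nat.cast_nonneg k
  have hlog : 0 ≤ Real.log (22 * (6 + (k : ℝ)) ^ 2) := Real.log_nonneg (by nlinarith)
  -- right half, one sign
  have key : ∀ (T : Finset ℂ) (ε : ℝ), (ε = 1 ∨ ε = -1) → (∀ z ∈ T, 0 ≤ z.re ∧ (k : ℝ) ≤ ε * z.im ∧
      ε * z.im ≤ k + 1) → ∑ z ∈ T, MZ z ≤ 60 * Real.log (22 * (6 + k) ^ 2) := by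
    intro T ε hε hT
    have h1 := local_count (ε * (k + 1 / 2)) ((T.filter (fun z => MZ z ≠ 0)).image (fun z => 1 / 2 + z)) (by
      intro ρ hρ
      simp only [Finset.mem_image, Finset.mem_filter] at hρ
      obtain ⟨z, ⟨hz, hz0⟩, rfl⟩ := hρ
      obtain ⟨a1, a2, a3⟩ := hT z hz
      refine ⟨MZ_zero hz0, by simpa using a1, ?_⟩
      have e : ((1 / 2 + z : ℂ)).im = z.im := by simp
      rw [e]
      rcases hε with h | h <;> subst h <;> rw [abs_le] <;> constructor <;> linarith)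
    rw [Finset.sum_image (fun a _ b _ hab => by simpa using hab)] at h1
    push_cast at h1
    have h2 : ∑ z ∈ T, MZ z = ∑ z ∈ T.filter (fun z => MZ z ≠ 0), (mu (1 / 2 + z) : ℝ) := by
      rw [Finset.sum_filter]
      refine Finset.sum_congr rfl fun z _ => ?_
      by_cases h : MZ z = 0
      · rw [if_neg (by simpa using h), h]
      · rw [if_pos h, MZ_eq (MZ_strip h)]
    rw [h2]
    refine h1.trans ?_
    have h3 : |ε * ((k : ℝ) + 1 / 2)| ≤ k + 1 := by
      rcases hε with h | h <;> subst h <;> rw [abs_le] <;> constructor <;> linarith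
    have h4 : (5 + |ε * ((k : ℝ) + 1 / 2)|) ^ 2 ≤ (6 + k) ^ 2 :=
      pow_le_pow_left₀ (by positivity) (by linarith) 2
    have h5 : Real.log (22 * (5 + |ε * ((k : ℝ) + 1 / 2)|) ^ 2) ≤ Real.log (22 * (6 + k) ^ 2) :=
      Real.log_le_log (by positivity) (by linarith)
    linarith
  -- right half
  have right : ∀ T : Finset ℂ, (∀ z ∈ T, 0 ≤ z.re ∧ (k : ℝ) ≤ |z.im| ∧ |z.im| ≤ k + 1) →
      ∑ z ∈ T, MZ z ≤ 120 * Real.log (22 * (6 + k) ^ 2) := by
    intro T hT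
    rw [← Finset.sum_filter_add_sum_filter_not T (fun z => 0 ≤ z.im)]
    have h1 := key (T.filter (fun z => 0 ≤ z.im)) 1 (Or.inl rfl) (by
      intro z hz
      rw [Finset.mem_filter] at hz
      obtain ⟨a1, a2, a3⟩ := hT z hz.1
      rw [abs_of_nonneg hz.2] at a2 a3
      exact ⟨a1, by linarith, by linarith⟩)
    have h2 := key (T.filter (fun z => ¬ 0 ≤ z.im)) (-1) (Or.inr rfl) (by
      intro z hz
      rw [Finset.mem_filter, not_le] at hz
      obtain ⟨a1, a2, a3⟩ := hT z hz.1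
      rw [abs_of_neg hz.2] at a2 a3
      exact ⟨a1, by linarith, by linarith⟩)
    linarith
  rw [← Finset.sum_filter_add_sum_filter_not S (fun z => 0 ≤ z.re)]
  have h1 := right (S.filter (fun z => 0 ≤ z.re)) (by
    intro z hz
    rw [Finset.mem_filter] at hz
    exact ⟨hz.2, hS z hz.1⟩)
  have h2 := right ((S.filter (fun z => ¬ 0 ≤ z.re)).image (fun z => -z)) (by
    intro z hz
    simp only [Finset.mem_image, Finset.mem_filter, not_le] at hz
    obtain ⟨w, ⟨hw, hw0⟩, rfl⟩ := hz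
    rw [Complex.neg_re, Complex.neg_im, abs_neg]
    exact ⟨by linarith, hS w hw⟩)
  rw [Finset.sum_image (fun a _ b _ hab => neg_injective hab)] at h2
  simp only [MZ_neg] at h2
  linarith

lemma MZ_cnt (s : ℝ) (hs : 1 < s) : ∃ C : ℝ, 0 ≤ C ∧ ∀ S : Finset ℂ,
    ∑ z ∈ S, MZ z / (1 + |z.im|) ^ s ≤ C := by
  classical
  set ε : ℝ := (s - 1) / 2 with hε
  have hε0 : 0 < ε := by rw [hε]; linarith
  -- `log ≤ C (1 + k)^ε`
  set B : ℝ := 240 * ((22 * 36) ^ (ε / 2) / (ε / 2)) with hB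
  have hB0 : 0 ≤ B := by positivity
  have hlog : ∀ k : ℕ, 240 * Real.log (22 * (6 + (k : ℝ)) ^ 2) ≤ B * (1 + (k : ℝ)) ^ ε := by
    intro k
    have hk : (0 : ℝ) ≤ k := Nat.cast_nonneg k
    have h1 := Real.log_le_rpow_div (show (0:ℝ) ≤ 22 * (6 + (k:ℝ)) ^ 2 by positivity)
      (show 0 < ε / 2 by linarith)
    have h2 : (22 * (6 + (k:ℝ)) ^ 2) ^ (ε / 2) ≤ (22 * 36 * (1 + (k:ℝ)) ^ 2) ^ (ε / 2) := by
      apply Real.rpow_le_rpow (by positivity) _ (by linarith)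
      nlinarith
    have h3 : (22 * 36 * (1 + (k:ℝ)) ^ 2) ^ (ε / 2) = (22 * 36) ^ (ε / 2) * (1 + (k:ℝ)) ^ ε := by
      rw [Real.mul_rpow (by norm_num) (by positivity), ← Real.rpow_natCast, ← Real.rpow_mul (by positivity)]
      congr 2
      push_cast
      ring
    calc 240 * Real.log (22 * (6 + (k : ℝ)) ^ 2) ≤ 240 * ((22 * (6 + (k:ℝ)) ^ 2) ^ (ε / 2) / (ε / 2)) := by
          gcongr
      _ ≤ 240 * ((22 * 36 * (1 + (k:ℝ)) ^ 2) ^ (ε / 2) / (ε / 2)) := by gcongr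
      _ = B * (1 + (k : ℝ)) ^ ε := by rw [h3, hB]; ring
  have hsum : Summable (fun k : ℕ => B * (1 + (k : ℝ)) ^ (-(1 + ε))) := by
    have h1 : Summable (fun k : ℕ => ((k : ℝ)) ^ (-(1 + ε))) := Real.summable_nat_rpow.2 (by linarith)
    have h2 := (summable_nat_add_iff 1).2 h1
    refine (h2.mul_left B).congr fun k => ?_
    push_cast
    rw [add_comm]
  have hnn : ∀ k : ℕ, 0 ≤ B * (1 + (k : ℝ)) ^ (-(1 + ε)) := fun k => by positivity
  refine ⟨∑' k : ℕ, B * (1 + (k : ℝ)) ^ (-(1 + ε)), tsum_nonneg hnn, fun S => ?_⟩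
  rw [← Finset.sum_fiberwise_of_maps_to (s := S) (t := S.image fun z => ⌊|z.im|⌋₊) (g := fun z => ⌊|z.im|⌋₊)
    (fun z hz => Finset.mem_image_of_mem _ hz)]
  refine le_trans (Finset.sum_le_sum fun k _ => ?_) (hsum.sum_le_tsum _ fun k _ => hnn k)
  have hk : (0 : ℝ) ≤ k := Nat.cast_nonneg k
  have hfl : ∀ z ∈ S.filter (fun z => ⌊|z.im|⌋₊ = k), (k : ℝ) ≤ |z.im| ∧ |z.im| ≤ k + 1 := by
    intro z hz
    rw [Finset.mem_filter] at hz
    have h1 := Nat.floor_le (abs_nonneg z.im)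
    have h2 := Nat.lt_floor_add_one |z.im|
    rw [hz.2] at h1 h2
    exact ⟨h1, h2.le⟩
  calc ∑ z ∈ S.filter (fun z => ⌊|z.im|⌋₊ = k), MZ z / (1 + |z.im|) ^ s
      ≤ ∑ z ∈ S.filter (fun z => ⌊|z.im|⌋₊ = k), MZ z / (1 + (k:ℝ)) ^ s := by
        refine Finset.sum_le_sum fun z hz => ?_
        apply div_le_div_of_nonneg_left (MZ_nn z) (by positivity)
        exact Real.rpow_le_rpow (by positivity) (by linarith [(hfl z hz).1]) (by linarith)
    _ = (∑ z ∈ S.filter (fun z => ⌊|z.im|⌋₊ = k), MZ z) / (1 + (k:ℝ)) ^ s := by rw [Finset.sum_div]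
    _ ≤ (240 * Real.log (22 * (6 + (k:ℝ)) ^ 2)) / (1 + (k:ℝ)) ^ s := by
        gcongr
        exact MZ_local k _ hfl
    _ ≤ (B * (1 + (k : ℝ)) ^ ε) / (1 + (k:ℝ)) ^ s :=
        div_le_div_of_nonneg_right (hlog k) (by positivity)
    _ = B * (1 + (k : ℝ)) ^ (-(1 + ε)) := by
        rw [mul_div_assoc, ← Real.rpow_sub (by positivity)]
        congr 2
        rw [hε]; ring

lemma MZ_low : ∃ c : ℝ, 0 < c ∧ ∃ Y0 : ℝ, 1 ≤ Y0 ∧ ∀ Y : ℝ, Y0 ≤ Y → ∃ S : Finset ℂ,
    (∀ z ∈ S, Y < z.im ∧ z.im ≤ 2 * Y) ∧ c * Y * Real.log Y ≤ ∑ z ∈ S, MZ z := by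
  classical
  obtain ⟨C, T0, hC, hT0, h⟩ := H370.nn_asymp H370.good_zeta
  have hpi := Real.pi_pos
  obtain ⟨T1, hT1⟩ := eventually_atTop.1 (Real.tendsto_log_atTop.eventually_ge_atTop (4 * Real.pi * C))
  refine ⟨1 / (4 * Real.pi), by positivity, max T0 T1, by
    have := le_max_left T0 T1
    linarith, fun Y hY => ?_⟩
  have hY0 : T0 ≤ Y := (le_max_left _ _).trans hY
  have hY1 : T1 ≤ Y := (le_max_right _ _).trans hY
  have h1 := h Y hY0 Y (2 * Y) le_rfl (by linarith) (by linarith) le_rfl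
  have hfin := H370.zset_finite H370.good_zeta Y (2 * Y) (by linarith)
  refine ⟨hfin.toFinset.image (fun ρ => ρ - 1 / 2), ?_, ?_⟩
  · intro z hz
    simp only [Finset.mem_image, Set.Finite.mem_toFinset] at hz
    obtain ⟨ρ, ⟨a1, a2, a3, a4, a5⟩, rfl⟩ := hz
    constructor <;> simpa
  · rw [Finset.sum_image (fun a _ b _ hab => by simpa using hab)]
    have e : ∑ ρ ∈ hfin.toFinset, MZ (ρ - 1 / 2) = (H370.NN riemannZeta Y (2 * Y) : ℝ) := by
      rw [H370.NN_eq_sum H370.good_zeta Y (2 * Y) (by linarith)]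
      push_cast
      refine Finset.sum_congr rfl fun ρ hρ => ?_
      rw [Set.Finite.mem_toFinset] at hρ
      obtain ⟨a1, a2, a3, a4, a5⟩ := hρ
      have h2 : |(ρ - 1 / 2).re| < 1 / 2 := by
        simp only [sub_re, one_div]
        norm_num
        rw [abs_lt]
        constructor <;> linarith
      unfold MZ H370.mult
      rw [if_pos h2]
      congr 2
      ring
    rw [e]
    have h3 := (abs_le.1 h1).1
    have h4 := hT1 Y hY1
    have hYp : 0 < Y := by linarith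
    have h5 : C * Y ≤ 1 / (4 * Real.pi) * Y * Real.log Y := by
      have : C ≤ 1 / (4 * Real.pi) * Real.log Y := by
        rw [div_mul_eq_mul_div, one_mul, le_div_iff₀ (by positivity)]
        linarith
      nlinarith
    have h6 : Y * Real.log Y / (2 * Real.pi) = 2 * (1 / (4 * Real.pi) * Y * Real.log Y) := by
      field_simp
      norm_num
    linarith

theorem zsZeta : Zs MZ where
  nn := MZ_nn
  one := MZ_one
  strip := fun _ h => MZ_strip h
  conj := MZ_conj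
  neg := MZ_neg
  cnt := MZ_cnt
  low := MZ_low

end Pool.Agent.N831.LI
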